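import Pool.Agent.Lib.ClubGuess.Basic
import Mathlib.Data.Set.Card
import Mathlib.Data.Set.Finite.Range
import Mathlib.Data.Set.Finite.Lemmas

/-! A finite support iteration of Hechler forcing along a well order `T`, presented directly. -/

namespace Pool.Agent.Work.MP_d02fb9_lc

open Set Cardinal Pool.Agent.Lib.ClubGuess

/-- Finite partial functions into a countable set: countable predense subfamilies. -/
theorem ccc_fin {P T C : Type} [Countable C] (tr : P → T → C) (supp : P → Set T)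
    (hs : ∀ p, (supp p).Finite) (X : Set P) :
    ∃ X' ⊆ X, X'.Countable ∧ ∀ p ∈ X, ∃ p' ∈ X', ∀ α ∈ supp p, α ∈ supp p' → tr p α = tr p' α := by
  have key : ∀ (n : ℕ) (supp : P → Set T), (∀ p, (supp p).Finite) → ∀ X : Set P,
      (∀ p ∈ X, (supp p).ncard ≤ n) → ∃ X' ⊆ X, X'.Countable ∧
        ∀ p ∈ X, ∃ p' ∈ X', ∀ α ∈ supp p, α ∈ supp p' → tr p α = tr p' α := by
    intro n
    induction n with
    | zero =>
      intro supp hs X hX
      rcases X.eq_empty_or_nonempty with rfl | ⟨p0, hp0⟩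
      · exact ⟨∅, subset_rfl, countable_empty, by simp⟩
      · refine ⟨{p0}, singleton_subset_iff.2 hp0, countable_singleton _, fun p hp =>
          ⟨p0, rfl, fun α hα _ => ?_⟩⟩
        have := (ncard_eq_zero (hs p)).1 (Nat.le_zero.1 (hX p hp))
        rw [this] at hα
        exact hα.elim
    | succ n ih =>
      intro supp hs X hX
      rcases X.eq_empty_or_nonempty with rfl | ⟨p0, hp0⟩
      · exact ⟨∅, subset_rfl, countable_empty, by simp⟩
      choose Y h1 h2 h3 using fun (α : T) (c : C) => ih (fun p => supp p \ {α})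
        (fun p => (hs p).subset sdiff_subset) {p ∈ X | α ∈ supp p ∧ tr p α = c} (by
          rintro p ⟨hp, hα, -⟩
          have h4 := ncard_sdiff_singleton_add_one hα (hs p)
          have h5 := hX p hp
          omega)
      refine ⟨insert p0 (⋃ α ∈ supp p0, ⋃ c, Y α c), ?_, ?_, fun p hp => ?_⟩
      · refine insert_subset hp0 (iUnion₂_subset fun α _ => iUnion_subset fun c => ?_)
        exact (h1 α c).trans (sep_subset _ _)
      · exact ((hs p0).countable.biUnion fun α _ => countable_iUnion (h2 α)).insert _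
      · by_cases h : ∃ α ∈ supp p, α ∈ supp p0
        · obtain ⟨α, hα, hα0⟩ := h
          obtain ⟨p', hp', h4⟩ := h3 α (tr p α) p ⟨hp, hα, rfl⟩
          refine ⟨p', mem_insert_of_mem _ (mem_biUnion hα0 (mem_iUnion.2 ⟨_, hp'⟩)),
            fun β hβ hβ' => ?_⟩
          by_cases hb : β = α
          · rw [hb]
            exact (h1 _ _ hp').2.2.symm
          · exact h4 β ⟨hβ, hb⟩ ⟨hβ', hb⟩
        · exact ⟨p0, mem_insert _ _, fun α hα hα0 => absurd ⟨α, hα, hα0⟩ h⟩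
  choose Y h1 h2 h3 using fun n => key n supp hs {p ∈ X | (supp p).ncard ≤ n} fun p hp => hp.2
  refine ⟨⋃ n, Y n, iUnion_subset fun n => (h1 n).trans (sep_subset _ _), countable_iUnion h2,
    fun p hp => ?_⟩
  obtain ⟨p', hp', h⟩ := h3 _ p ⟨hp, le_rfl⟩
  exact ⟨p', mem_iUnion.2 ⟨_, hp'⟩, h⟩

/-- Preconditions: stems and finitely many names attached to coordinates. -/
inductive Pre (T : Type) : Type
  | mk (len : T → ℕ) (val : T → ℕ → ℕ) (n : ℕ) (co : Fin n → T) (cd : Fin n → ℕ → ℕ → Pre T)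
      (vl : Fin n → ℕ → ℕ → ℕ) : Pre T

namespace Pre

variable {T : Type}

abbrev Ent (T : Type) : Type := T × (ℕ → ℕ → Pre T) × (ℕ → ℕ → ℕ)

def len : Pre T → T → ℕ
  | mk l _ _ _ _ _ => l
def val : Pre T → T → ℕ → ℕ
  | mk _ v _ _ _ _ => v
def ents : Pre T → Set (Ent T)
  | mk _ _ _ co cd vl => range fun k => (co k, cd k, vl k)

theorem ents_finite (p : Pre T) : p.ents.Finite := by
  cases p
  exact Set.finite_range _

theorem exists_pre (l : T → ℕ) (v : T → ℕ → ℕ) {s : Set (Ent T)} (hs : s.Finite) :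
    ∃ p : Pre T, p.len = l ∧ p.val = v ∧ p.ents = s := by
  obtain ⟨n, f, -, hf⟩ := hs.fin_param
  exact ⟨mk l v n (fun k => (f k).1) (fun k => (f k).2.1) (fun k => (f k).2.2), rfl, rfl, hf⟩

theorem ind {C : Pre T → Prop} (h : ∀ p : Pre T, (∀ e ∈ p.ents, ∀ i j, C (e.2.1 i j)) → C p)
    (p : Pre T) : C p := by
  induction p with
  | mk l v n co cd vl ih =>
    refine h _ ?_
    rintro _ ⟨k, rfl⟩ i j
    exact ih k i j

/-- The stems of `q` extend those of `p`. -/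
def Pf (q p : Pre T) : Prop := ∀ γ, p.len γ ≤ q.len γ ∧ ∀ i < p.len γ, q.val γ i = p.val γ i

def Le (q : Pre T) : Pre T → Prop
  | mk l v n co cd vl => Pf q (mk l v n co cd vl) ∧ ∀ k, (co k, cd k, vl k) ∈ q.ents ∧
      ∀ i, l (co k) ≤ i → i < q.len (co k) → ∃ j, Le q (cd k i j) ∧ vl k i j < q.val (co k) i

theorem le_iff {q p : Pre T} : Le q p ↔ Pf q p ∧ ∀ e ∈ p.ents, e ∈ q.ents ∧
    ∀ i, p.len e.1 ≤ i → i < q.len e.1 → ∃ j, Le q (e.2.1 i j) ∧ e.2.2 i j < q.val e.1 i := by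
  cases p with
  | mk l v n co cd vl =>
    refine and_congr_right fun _ => ⟨?_, fun h k => h _ ⟨k, rfl⟩⟩
    rintro h _ ⟨k, rfl⟩
    exact h k

theorem le_of_same {q p : Pre T} (h1 : Pf q p) (h2 : p.ents ⊆ q.ents)
    (h3 : ∀ e ∈ p.ents, q.len e.1 ≤ p.len e.1) : Le q p :=
  le_iff.2 ⟨h1, fun e he => ⟨h2 he, fun i h4 h5 => absurd (h3 e he) (by omega)⟩⟩

theorem Le.rfl {p : Pre T} : Le p p :=
  le_of_same (fun _ => ⟨le_rfl, fun _ _ => Eq.refl _⟩) subset_rfl fun _ _ => le_rfl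

theorem Le.trans {r q p : Pre T} (h1 : Le r q) (h2 : Le q p) : Le r p := by
  induction p using ind with
  | h p ih =>
    obtain ⟨a1, a2⟩ := le_iff.1 h1
    obtain ⟨b1, b2⟩ := le_iff.1 h2
    refine le_iff.2 ⟨fun γ => ⟨(b1 γ).1.trans (a1 γ).1, fun i hi => ?_⟩, fun e he =>
      ⟨(a2 e (b2 e he).1).1, fun i h3 h4 => ?_⟩⟩
    · rw [(a1 γ).2 i (hi.trans_le (b1 γ).1), (b1 γ).2 i hi]
    · rcases lt_or_ge i (q.len e.1) with h | h
      · obtain ⟨j, h5, h6⟩ := (b2 e he).2 i h3 h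
        exact ⟨j, ih e he i j h5, by rwa [(a1 _).2 i h]⟩
      · exact (a2 e (b2 e he).1).2 i h h4

/-- The entry `e` is a name over the conditions satisfying `g`. -/
def GN (g : Pre T → Prop) (e : Ent T) : Prop :=
  (∀ i j, g (e.2.1 i j)) ∧ ∀ i q, g q → ∃ r, g r ∧ Le r q ∧ ∃ j, Le r (e.2.1 i j)

variable [LinearOrder T] [WellFoundedLT T]

theorem exists_good : ∃ G : T → Pre T → Prop, ∀ β p, G β p ↔
    {γ | p.len γ ≠ 0}.Finite ∧ (∀ γ, p.len γ ≠ 0 → γ < β) ∧ ∀ e ∈ p.ents, e.1 < β ∧ GN (G e.1) e := by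
  obtain ⟨G, hG⟩ := exists_rec (S := T) (β := Pre T → Prop) (fun β f p =>
    {γ | p.len γ ≠ 0}.Finite ∧ (∀ γ, p.len γ ≠ 0 → γ < β) ∧ ∀ e ∈ p.ents, e.1 < β ∧ GN (f e.1) e)
    (fun β f g h => by
      funext p
      congr 2
      refine propext (forall₂_congr fun e _ => and_congr_right fun he => ?_)
      rw [h _ he])
  exact ⟨G, fun β p => by rw [hG β]⟩

/-- Conditions with support below `β`. -/
def Good : T → Pre T → Prop := exists_good.choose

theorem good_iff {β : T} {p : Pre T} : Good β p ↔ {γ | p.len γ ≠ 0}.Finite ∧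
    (∀ γ, p.len γ ≠ 0 → γ < β) ∧ ∀ e ∈ p.ents, e.1 < β ∧ GN (Good e.1) e :=
  exists_good.choose_spec β p

theorem Good.mono {β β' : T} {p : Pre T} (h : Good β p) (hβ : β ≤ β') : Good β' p := by
  obtain ⟨h1, h2, h3⟩ := good_iff.1 h
  exact good_iff.2 ⟨h1, fun γ hγ => (h2 γ hγ).trans_le hβ,
    fun e he => ⟨(h3 e he).1.trans_le hβ, (h3 e he).2⟩⟩

theorem exists_res {β' : T} {p : Pre T} (h : Good β' p) (β : T) : ∃ r : Pre T, Good β r ∧
    (∀ γ < β, r.len γ = p.len γ) ∧ r.val = p.val ∧ ∀ e ∈ p.ents, e.1 < β → e ∈ r.ents := by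
  obtain ⟨h1, h2, h3⟩ := good_iff.1 h
  obtain ⟨r, e1, e2, e3⟩ := exists_pre (fun γ => if γ < β then p.len γ else 0) p.val
    (s := {e ∈ p.ents | e.1 < β}) (p.ents_finite.subset (sep_subset _ _))
  refine ⟨r, good_iff.2 ⟨h1.subset fun γ hγ => ?_, fun γ hγ => ?_, fun e he => ?_⟩,
    fun γ hγ => by rw [e1]; exact if_pos hγ, e2, fun e he hβ => by rw [e3]; exact ⟨he, hβ⟩⟩
  · simp only [e1, mem_ofPred_eq] at hγ
    split_ifs at hγ with h
    · exact hγ
    · exact absurd rfl hγ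
  · simp only [e1] at hγ
    by_contra h
    exact hγ (if_neg h)
  · rw [e3] at he
    exact ⟨he.2, (h3 e he.1).2⟩

theorem res_le {β : T} {p r : Pre T} (h1 : ∀ γ < β, r.len γ = p.len γ) (h2 : r.val = p.val)
    (h3 : ∀ e ∈ p.ents, e.1 < β → e ∈ r.ents) {q : Pre T} (hq : Good β q) (h : Le p q) :
    Le r q := by
  induction q using ind with
  | h q ih =>
    obtain ⟨a1, a2⟩ := le_iff.1 h
    obtain ⟨-, b2, b3⟩ := good_iff.1 hq
    refine le_iff.2 ⟨fun γ => ⟨?_, fun i hi => h2 ▸ (a1 γ).2 i hi⟩, fun e he =>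
      ⟨h3 e (a2 e he).1 (b3 e he).1, fun i h4 h5 => ?_⟩⟩
    · rcases eq_or_ne (q.len γ) 0 with h0 | h0
      · omega
      · rw [h1 γ (b2 γ h0)]
        exact (a1 γ).1
    · rw [h1 _ (b3 e he).1] at h5
      obtain ⟨j, h6, h7⟩ := (a2 e he).2 i h4 h5
      exact ⟨j, ih e he i j (((b3 e he).2.1 i j).mono (b3 e he).1.le) h6, h2 ▸ h7⟩

theorem exists_longer {β' : T} {p : Pre T} (hp : Good β' p) (β : T) {β'' : T} (h1 : β' ≤ β'')
    (h2 : β < β'') : ∃ m : Pre T, Good β'' m ∧ Le m p ∧ m.len β = p.len β + 1 := by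
  classical
  obtain ⟨r0, g0, l0, v0, e0⟩ := exists_res hp β
  obtain ⟨p1, p2, p3⟩ := good_iff.1 hp
  have key : ∀ s : Set (Ent T), s.Finite → s ⊆ p.ents → ∃ r M, Good β r ∧ Le r r0 ∧
      ∀ e ∈ s, e.1 = β → ∃ j, Le r (e.2.1 (p.len β) j) ∧ e.2.2 (p.len β) j < M := by
    intro s hs
    induction s, hs using Finite.induction_on with
    | empty => exact fun _ => ⟨r0, 0, g0, Le.rfl, by simp⟩
    | @insert e s _ _ ih =>
      intro hsub
      obtain ⟨r, M, a1, a2, a3⟩ := ih ((subset_insert _ _).trans hsub)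
      by_cases he : e.1 = β
      · have := (p3 e (hsub (mem_insert _ _))).2
        rw [he] at this
        obtain ⟨r', b1, b2, j, b3⟩ := this.2 (p.len β) r a1
        refine ⟨r', max M (e.2.2 (p.len β) j + 1), b1, b2.trans a2, ?_⟩
        rintro e' (rfl | he') h
        · exact ⟨j, b3, by omega⟩
        · obtain ⟨j', c1, c2⟩ := a3 e' he' h
          exact ⟨j', b2.trans c1, by omega⟩
      · refine ⟨r, M, a1, a2, ?_⟩
        rintro e' (rfl | he') h
        · exact absurd h he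
        · exact a3 e' he' h
  obtain ⟨r, M, a1, a2, a3⟩ := key _ p.ents_finite subset_rfl
  obtain ⟨r1, r2, r3⟩ := good_iff.1 a1
  obtain ⟨m, e1, e2, e3⟩ := exists_pre
    (fun γ => if γ < β then r.len γ else if γ = β then p.len β + 1 else p.len γ)
    (fun γ => if γ < β then r.val γ else if γ = β then Function.update (p.val β) (p.len β) M
      else p.val γ) (r.ents_finite.union p.ents_finite)
  have hmr : Le m r := by
    refine le_of_same (fun γ => ?_) (e3 ▸ subset_union_left) fun e he => ?_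
    · rcases eq_or_ne (r.len γ) 0 with h0 | h0
      · exact ⟨by omega, fun i hi => by omega⟩
      · simp [e1, e2, r2 γ h0]
    · simp [e1, (r3 e he).1]
  obtain ⟨b1, b2⟩ := le_iff.1 a2
  refine ⟨m, good_iff.2 ⟨((r1.union p1).insert β).subset fun γ hγ => ?_, fun γ hγ => ?_,
    fun e he => ?_⟩, le_iff.2 ⟨fun γ => ?_, fun e he => ⟨e3 ▸ Or.inr he, fun i h3 h4 => ?_⟩⟩,
    by simp [e1]⟩
  · simp only [e1, mem_ofPred_eq] at hγ
    split_ifs at hγ with h h'
    · exact Or.inr (Or.inl hγ)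
    · exact Or.inl h'
    · exact Or.inr (Or.inr hγ)
  · simp only [e1] at hγ
    split_ifs at hγ with h h'
    · exact h.trans h2
    · exact h' ▸ h2
    · exact (p2 γ hγ).trans_le h1
  · rw [e3] at he
    rcases he with he | he
    · exact ⟨(r3 e he).1.trans h2, (r3 e he).2⟩
    · exact ⟨(p3 e he).1.trans_le h1, (p3 e he).2⟩
  · simp only [e1, e2]
    split_ifs with h h'
    · rw [← l0 γ h, ← v0]
      exact b1 γ
    · subst h'
      exact ⟨by omega, fun i hi => Function.update_of_ne hi.ne _ _⟩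
    · exact ⟨le_rfl, fun _ _ => rfl⟩
  · simp only [e1, e2] at h4 ⊢
    split_ifs at h4 ⊢ with h h'
    · obtain ⟨j, c1, c2⟩ := (b2 e (e0 e he h)).2 i (by rwa [l0 _ h]) h4
      exact ⟨j, hmr.trans c1, c2⟩
    · obtain ⟨j, c1, c2⟩ := a3 e he h'
      have : i = p.len β := by rw [h'] at h3; omega
      subst this
      exact ⟨j, hmr.trans c1, by simpa using c2⟩
    · omega

end Pre

open Pre

/-- The forcing poset. -/
def PP (T : Type) [LinearOrder T] [WellFoundedLT T] : Type := {p : Pre T // ∃ β, Good β p}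

variable {T : Type} [LinearOrder T] [WellFoundedLT T]

instance : Preorder (PP T) where
  le q p := Le q.1 p.1
  le_refl _ := Le.rfl
  le_trans _ _ _ := Le.trans

/-- `p` decides the value of the `β`-th generic function at `n` to be `l`. -/
def hv (p : PP T) (β : T) (n l : ℕ) : Prop := n < p.1.len β ∧ p.1.val β n = l

theorem hv_mono {p q : PP T} (h : q ≤ p) {β n l} (hp : hv p β n l) : hv q β n l :=
  have := (le_iff.1 h).1 β
  ⟨hp.1.trans_le this.1, (this.2 n hp.1).trans hp.2⟩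

theorem pp_nonempty [Nonempty T] : Nonempty (PP T) := by
  obtain ⟨p, h1, -, h3⟩ := exists_pre (T := T) (fun _ => 0) (fun _ _ => 0) finite_empty
  exact ⟨p, Classical.arbitrary T, good_iff.2 ⟨by simp [h1], by simp [h1], by simp [h3]⟩⟩

theorem pp_long [NoMaxOrder T] (p : PP T) (β : T) (n : ℕ) : ∃ q ≤ p, ∃ l, hv q β n l := by
  have : ∃ q ≤ p, n < q.1.len β := by
    induction n using Nat.strong_induction_on with
    | _ n ih =>
      obtain ⟨q, hq, hn⟩ : ∃ q ≤ p, n ≤ q.1.len β := by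
        rcases n with _ | n
        · exact ⟨p, le_rfl, Nat.zero_le _⟩
        · exact ih n (Nat.lt_succ_self n)
      obtain ⟨β', h⟩ := q.2
      obtain ⟨b, hb⟩ := exists_gt (max β β')
      obtain ⟨m, h1, h2, h3⟩ := exists_longer h β ((le_max_right _ _).trans hb.le)
        ((le_max_left _ _).trans_lt hb)
      exact ⟨⟨m, b, h1⟩, le_trans (b := q) h2 hq, by simp only [h3]; omega⟩
  obtain ⟨q, hq, h⟩ := this
  exact ⟨q, hq, _, h, rfl⟩

theorem pp_ccc (X : Set (PP T)) :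
    ∃ X' ⊆ X, X'.Countable ∧ ∀ p ∈ X, ∃ p' ∈ X', ∃ r, r ≤ p ∧ r ≤ p' := by
  classical
  obtain ⟨X', h1, h2, h3⟩ := ccc_fin
    (fun (p : PP T) γ => (List.range (p.1.len γ)).map (p.1.val γ))
    (fun p => {γ | p.1.len γ ≠ 0} ∪ Prod.fst '' p.1.ents)
    (fun p => (good_iff.1 p.2.choose_spec).1.union (p.1.ents_finite.image _)) X
  refine ⟨X', h1, h2, fun p hp => ?_⟩
  obtain ⟨q, hq, h⟩ := h3 p hp
  refine ⟨q, hq, ?_⟩
  obtain ⟨p, β, gp⟩ := p
  obtain ⟨q, β', gq⟩ := q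
  let s : Set T := {γ | p.len γ ≠ 0} ∪ Prod.fst '' p.ents
  have hag : ∀ γ ∈ s, γ ∈ {γ | q.len γ ≠ 0} ∪ Prod.fst '' q.ents →
      p.len γ = q.len γ ∧ ∀ i < q.len γ, p.val γ i = q.val γ i := by
    intro γ a b
    have c := h γ a b
    have c1 : p.len γ = q.len γ := by simpa using congrArg List.length c
    refine ⟨c1, fun i hi => ?_⟩
    simp only [c1] at c
    exact List.map_inj_left.1 c i (List.mem_range.2 hi)
  obtain ⟨m, e1, e2, e3⟩ := exists_pre (fun γ => if γ ∈ s then p.len γ else q.len γ)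
    (fun γ => if γ ∈ s then p.val γ else q.val γ) (p.ents_finite.union q.ents_finite)
  obtain ⟨p1, p2, p3⟩ := good_iff.1 (gp.mono (le_max_left β β'))
  obtain ⟨q1, q2, q3⟩ := good_iff.1 (gq.mono (le_max_right β β'))
  refine ⟨⟨m, max β β', good_iff.2 ⟨(p1.union q1).subset fun γ hγ => ?_, fun γ hγ => ?_,
    fun e he => ?_⟩⟩, le_of_same (fun γ => ?_) (e3 ▸ subset_union_left) fun e he => ?_,
    le_of_same (fun γ => ?_) (e3 ▸ subset_union_right) fun e he => ?_⟩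
  · simp only [e1, mem_ofPred_eq] at hγ
    split_ifs at hγ
    exacts [Or.inl hγ, Or.inr hγ]
  · simp only [e1] at hγ
    split_ifs at hγ
    exacts [p2 γ hγ, q2 γ hγ]
  · rw [e3] at he
    exact he.elim (p3 e) (q3 e)
  · simp only [e1, e2]
    split_ifs with hγ
    · exact ⟨le_rfl, fun _ _ => rfl⟩
    · have : p.len γ = 0 := by_contra fun h0 => hγ (Or.inl h0)
      exact ⟨by omega, fun i hi => by omega⟩
  · simp only [e1]
    rw [if_pos (show e.1 ∈ s from Or.inr ⟨e, he, rfl⟩)]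
  · simp only [e1, e2]
    split_ifs with hγ
    · rcases eq_or_ne (q.len γ) 0 with h0 | h0
      · exact ⟨by omega, fun i hi => by omega⟩
      · exact ⟨(hag γ hγ (Or.inl h0)).1.ge, (hag γ hγ (Or.inl h0)).2⟩
    · exact ⟨le_rfl, fun _ _ => rfl⟩
  · simp only [e1]
    split_ifs with hγ
    · exact (hag _ hγ (Or.inr ⟨e, he, rfl⟩)).1.le
    · exact le_rfl

/-- The `β`-th generic function dominates the bound `B`. -/
def Dm (B : PP T → ℕ → ℕ → Prop) (β : T) : Prop :=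
  ∀ q, ∃ r ≤ q, ∃ n0, ∀ n, n0 ≤ n → ∀ r' ≤ r, ∀ l, hv r' β n l → ∃ M < l, B r' n M

theorem pp_dom [IsRegularCardinalOrder T] (hT : ℵ₀ < #T) (B : PP T → ℕ → ℕ → Prop)
    (hm : ∀ p q n M, q ≤ p → B p n M → B q n M) (hd : ∀ p n, ∃ q ≤ p, ∃ M, B q n M) :
    ∃ β0, ∀ β, β0 ≤ β → Dm B β := by
  have : Nonempty T := mk_ne_zero_iff.1 (aleph0_pos.trans hT).ne'
  have h1 : ∀ n, ∃ cd : ℕ → PP T, (∀ j, ∃ M, B (cd j) n M) ∧
      ∀ q, ∃ j r, r ≤ q ∧ r ≤ cd j := by
    intro n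
    obtain ⟨X', a1, a2, a3⟩ := pp_ccc {p : PP T | ∃ M, B p n M}
    obtain ⟨p0⟩ := pp_nonempty (T := T)
    obtain ⟨q0, -, h0⟩ := hd p0 n
    obtain ⟨p', hp', -⟩ := a3 q0 h0
    obtain ⟨f, rfl⟩ := a2.exists_eq_range ⟨p', hp'⟩
    refine ⟨f, fun j => a1 ⟨j, rfl⟩, fun q => ?_⟩
    obtain ⟨q1, b1, b2⟩ := hd q n
    obtain ⟨_, ⟨j, rfl⟩, r, b3, b4⟩ := a3 q1 b2
    exact ⟨j, r, b3.trans b1, b4⟩
  choose cd h2 h3 using h1
  choose vl hvl using h2
  choose b hb using fun a : ℕ × ℕ => (cd a.1 a.2).2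
  obtain ⟨β0, hβ0⟩ := exists_gt_of_countable hT (countable_range b)
  refine ⟨β0, fun β hβ q => ?_⟩
  have hc : ∀ i j, Good β (cd i j).1 := fun i j =>
    (hb (i, j)).mono ((hβ0 _ ⟨_, rfl⟩).le.trans hβ)
  let e : Ent T := (β, fun i j => (cd i j).1, vl)
  have he : GN (Good β) e := by
    refine ⟨hc, fun i q hq => ?_⟩
    obtain ⟨j, r, a1, a2⟩ := h3 i ⟨q, β, hq⟩
    obtain ⟨r', b1, b2, b3, b4⟩ := exists_res r.2.choose_spec β
    exact ⟨r', b1, res_le b2 b3 b4 hq a1, j, res_le b2 b3 b4 (hc i j) a2⟩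
  obtain ⟨β', hq⟩ := q.2
  obtain ⟨β'', hb''⟩ := exists_gt' hT.le (max β β')
  obtain ⟨q1, q2, q3⟩ := good_iff.1 (hq.mono ((le_max_right _ _).trans hb''.le))
  obtain ⟨m, e1, e2, e3⟩ := exists_pre q.1.len q.1.val (q.1.ents_finite.insert e)
  have hem : e ∈ m.ents := e3 ▸ mem_insert _ _
  refine ⟨⟨m, β'', good_iff.2 ⟨e1 ▸ q1, e1 ▸ q2, ?_⟩⟩,
    le_of_same (fun γ => ⟨(congrFun e1 γ).ge, fun i _ => congrFun (congrFun e2 γ) i⟩)
      (e3 ▸ subset_insert _ _) fun e' _ => (congrFun e1 e'.1).le, m.len β, fun n hn r' hr' l hl => ?_⟩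
  · rw [e3]
    rintro e' (rfl | he')
    · exact ⟨(le_max_left _ _).trans_lt hb'', he⟩
    · exact q3 e' he'
  · obtain ⟨j, a1, a2⟩ := ((le_iff.1 hr').2 e hem).2 n hn hl.1
    exact ⟨vl n j, hl.2 ▸ a2, hm _ _ _ _ a1 (hvl n j)⟩

end Pool.Agent.Work.MP_d02fb9_lc
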