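import Pool.Agent.Work.MP_d02fb9_lc.FNodes
import Pool.Agent.Work.MP_d02fb9_lc.FPoset

/-! Ground-level properties of the forcing. -/

namespace Pool.Agent.Work.MP_d02fb9_lc

open Cardinal Set Pool.Agent.Lib.ClubGuess

/-- The combinatorial properties of the poset used on the model side. -/
structure DSys (P T : Type) [Preorder P] [LinearOrder T] (hv : P → T → ℕ → ℕ → Prop)
    (lev : T → T) (S : T → ℕ → Set T) : Prop where
  neP : Nonempty P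
  neT : Nonempty T
  mono : ∀ p q β n l, q ≤ p → hv p β n l → hv q β n l
  func : ∀ p β n l l', hv p β n l → hv p β n l' → l = l'
  long : ∀ p β n, ∃ q ≤ p, ∃ l, hv q β n l
  fin : ∀ v l, (S v l).Finite
  irr : ∀ v l, v ∉ S v l
  big : ∀ (i : T) (B : T → P → ℕ → ℕ → Prop), (∀ γ p q n M, q ≤ p → B γ p n M → B γ q n M) →
    (∀ γ p n, ∃ q ≤ p, ∃ M, B γ q n M) → ∃ β, ∀ γ ≤ i, ∀ q, ∃ r ≤ q, ∃ n0, ∀ n, n0 ≤ n →
      ∀ r' ≤ r, ∀ l, hv r' β n l → ∃ M < l, B γ r' n M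
  col : ∀ R : P → T → ℕ → ℕ → Prop, (∀ p q v n k, q ≤ p → R p v n k → R q v n k) → ∀ p0,
    (∀ n, ∀ q ≤ p0, ∃ r ≤ q, ∃ K, ∀ v k, ∀ r' ≤ r, R r' v n k → k < K) →
    ∀ q ≤ p0, ∃ r ≤ q, ∃ v, ∀ n k, ∀ r' ≤ r, R r' v n k →
      ∃ r'' ≤ r', ∃ a, (∃ l, hv r'' (lev v) n l ∧ a ∈ S v l) ∧ R r'' a n k
  cov : ∀ R : P → T → ℕ → T → Prop, (∀ p q γ n a, q ≤ p → R p γ n a → R q γ n a) →
    ∃ (B : T → Set T) (s : ℕ → T), (∀ γ, ∃ n, s n ∉ B γ) ∧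
      ∀ p γ n a, R p γ n a → ∃ r ≤ p, ∃ a' ∈ B γ, R r γ n a'

variable {T : Type} [LinearOrder T] [WellFoundedLT T]

theorem pp_cover {ι : Type} (R : PP T → ι → Prop) (hm : ∀ p q a, q ≤ p → R p a → R q a) :
    ∃ B : Set ι, B.Countable ∧ (∀ a ∈ B, ∃ p, R p a) ∧
      ∀ p a, R p a → ∃ r ≤ p, ∃ a' ∈ B, R r a' := by
  obtain ⟨X, h1, h2, h3⟩ := pp_ccc {p : PP T | ∃ a, R p a}
  choose f hf using fun q : X => h1 q.2
  have := h2.to_subtype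
  refine ⟨range f, countable_range f, ?_, fun p a h => ?_⟩
  · rintro _ ⟨q, rfl⟩
    exact ⟨_, hf q⟩
  · obtain ⟨p', hp', r, h4, h5⟩ := h3 p ⟨a, h⟩
    exact ⟨r, h4, _, ⟨⟨p', hp'⟩, rfl⟩, hm _ _ _ h5 (hf ⟨p', hp'⟩)⟩

theorem exists_dsys [IsRegularCardinalOrder T] (hT : ℵ_ 3 < #T)
    (hc : ∀ B : T → Set T, (∀ γ, (B γ).Countable) → ∃ A : Set T, A.Countable ∧ ∀ γ, ¬ A ⊆ B γ) :
    ∃ lev S, DSys (PP T) T hv lev S := by
  have hT0 : ℵ₀ < #T := (aleph0_le_aleph 3).trans_lt hT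
  have hne : Nonempty T := mk_ne_zero_iff.1 (aleph0_pos.trans hT0).ne'
  have : NoMaxOrder T := ⟨exists_gt' hT0.le⟩
  obtain ⟨lev, S, ι, y, enc, h1, h2, h3⟩ := exists_nodes hT
  refine ⟨lev, S, pp_nonempty, hne, fun _ _ _ _ _ h h' => hv_mono h h',
    fun _ _ _ _ _ h h' => h.2.symm.trans h'.2, pp_long, h1, h2, fun i B hm hd => ?_,
    fun R hm p0 hb q hq => ?_, fun R hm => ?_⟩
  · choose b hb using fun γ => pp_dom hT0 (B γ) (hm γ) (hd γ)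
    obtain ⟨β, hβ⟩ := exists_gt_of_mk_lt (s := b '' Iic i)
      (mk_image_le.trans_lt (mk_Iic_lt hT0.le i))
    exact ⟨β, fun γ hγ => hb γ β (hβ _ ⟨γ, hγ, rfl⟩).le⟩
  · let B0 : ι → PP T → ℕ → ℕ → Prop := fun t p n M => ∀ k, ∀ w ∈ y t, ∀ r ≤ p, R r w n k →
      ∃ r' ≤ r, ∃ w' ∈ y t, enc t w' < M ∧ R r' w' n k
    have hB0 : ∀ t n, ∀ p ≤ p0, ∃ r ≤ p, ∃ M, B0 t r n M := by
      intro t n p hp
      obtain ⟨r, hr, K, hK⟩ := hb n p hp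
      have key : ∀ j, ∃ s ≤ r, ∃ M, ∀ k < j, ∀ w ∈ y t, ∀ r ≤ s, R r w n k →
          ∃ r' ≤ r, ∃ w' ∈ y t, enc t w' < M ∧ R r' w' n k := by
        intro j
        induction j with
        | zero => exact ⟨r, le_rfl, 0, fun k hk => absurd hk (by omega)⟩
        | succ j ih =>
          obtain ⟨s, hs, M, hM⟩ := ih
          by_cases h : ∃ s' ≤ s, ∃ w ∈ y t, R s' w n j
          · obtain ⟨s', a1, w0, a2, a3⟩ := h
            refine ⟨s', a1.trans hs, max M (enc t w0 + 1), fun k hk w hw u hu hR => ?_⟩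
            rcases Nat.lt_succ_iff_lt_or_eq.1 hk with h | rfl
            · obtain ⟨u', b1, w', b2, b3, b4⟩ := hM k h w hw u (hu.trans a1) hR
              exact ⟨u', b1, w', b2, by omega, b4⟩
            · exact ⟨u, le_rfl, w0, a2, by omega, hm _ _ _ _ _ hu a3⟩
          · refine ⟨s, hs, M, fun k hk w hw u hu hR => ?_⟩
            rcases Nat.lt_succ_iff_lt_or_eq.1 hk with h' | rfl
            · exact hM k h' w hw u hu hR
            · exact absurd ⟨u, hu, w, hw, hR⟩ h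
      obtain ⟨s, hs, M, hM⟩ := key K
      exact ⟨s, hs.trans hr, M, fun k w hw u hu hR =>
        hM k (hK w k u (hu.trans hs) hR) w hw u hu hR⟩
    have hB0m : ∀ t p q n M M', q ≤ p → M ≤ M' → B0 t p n M → B0 t q n M' := by
      intro t p q n M M' h h' hB k w hw r hr hR
      obtain ⟨r', a1, w', a2, a3, a4⟩ := hB k w hw r (hr.trans h) hR
      exact ⟨r', a1, w', a2, by omega, a4⟩
    choose H hH using fun t => pp_dom hT0
      (fun p n M => B0 t p n M ∨ ¬ ∃ r, r ≤ p ∧ r ≤ p0)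
      (fun p q n M h => Or.imp (hB0m t p q n M M h le_rfl)
        fun h' ⟨r, a1, a2⟩ => h' ⟨r, a1.trans h, a2⟩)
      (fun p n => by
        by_cases h : ∃ r, r ≤ p ∧ r ≤ p0
        · obtain ⟨r, a1, a2⟩ := h
          obtain ⟨s, b1, M, b2⟩ := hB0 t n r a2
          exact ⟨s, b1.trans a1, M, Or.inl b2⟩
        · exact ⟨p, le_rfl, 0, Or.inr h⟩)
    obtain ⟨K, hK1, hK2⟩ := h3 H
    choose Y hY1 hY2 hY3 using fun a : ℕ × ℕ => pp_cover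
      (fun p (t : ι) => t ∈ K ∧ ∃ w ∈ y t, R p w a.1 a.2)
      (fun p q t h ⟨a1, w, a2, a3⟩ => ⟨a1, w, a2, hm _ _ _ _ _ h a3⟩)
    obtain ⟨t, ht, hub⟩ := hK1 (⋃ a, Y a) (iUnion_subset fun a t ht => (hY2 a t ht).choose_spec.1)
      (countable_iUnion hY1)
    obtain ⟨t', ht', β, hβ, hv'⟩ := hK2 t ht
    obtain ⟨r, hr, n0, hn0⟩ := hH t β hβ q
    obtain ⟨s, hs, m, hsm⟩ : ∃ s ≤ r, ∃ m, ∀ n < n0, B0 t s n m := by
      clear hn0
      induction n0 with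
      | zero => exact ⟨r, le_rfl, 0, fun n hn => absurd hn (by omega)⟩
      | succ j ih =>
        obtain ⟨s, hs, m, hsm⟩ := ih
        obtain ⟨s', a1, M, a2⟩ := hB0 t j s (hs.trans (hr.trans hq))
        refine ⟨s', a1.trans hs, max m M, fun n hn => ?_⟩
        rcases Nat.lt_succ_iff_lt_or_eq.1 hn with h | rfl
        · exact hB0m _ _ _ _ _ _ a1 (le_max_left _ _) (hsm n h)
        · exact hB0m _ _ _ _ _ _ le_rfl (le_max_right _ _) a2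
    obtain ⟨v, a1, a2, a3⟩ := hv' m
    refine ⟨s, hs.trans hr, v, fun n k r' hr' hR => ?_⟩
    obtain ⟨r1, b1, t1, b2, -, w, b3, b4⟩ := hY3 (n, k) r' t' ⟨ht', v, a1, hR⟩
    obtain ⟨r2, c1, l, c2⟩ := pp_long r1 β n
    have c3 : r2 ≤ s := c1.trans (b1.trans hr')
    have hB : B0 t r2 n (l + m) := by
      rcases lt_or_ge n n0 with h | h
      · exact hB0m _ _ _ _ _ _ c3 (by omega) (hsm n h)
      · obtain ⟨M, d1, d2 | d2⟩ := hn0 n h r2 (c3.trans hs) l c2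
        · exact hB0m _ _ _ _ _ _ le_rfl (by omega) d2
        · exact absurd ⟨r2, le_rfl, c3.trans (hs.trans (hr.trans hq))⟩ d2
    obtain ⟨r3, e1, w', e2, e3, e4⟩ := hB k w (hub t1 (mem_iUnion.2 ⟨_, b2⟩) b3) r2 le_rfl
      (hm _ _ _ _ _ c1 b4)
    exact ⟨r3, e1.trans (c1.trans b1), w', ⟨l, a2 ▸ hv_mono e1 c2, a3 l w' e2 e3⟩, e4⟩
  · choose Y hY1 hY2 hY3 using fun (γ : T) (n : ℕ) => pp_cover (fun p a => R p γ n a)
      fun p q a h => hm p q γ n a h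
    obtain ⟨A, a1, a2⟩ := hc (fun γ => ⋃ n, Y γ n) fun γ => countable_iUnion (hY1 γ)
    obtain ⟨γ0⟩ := hne
    obtain ⟨s, rfl⟩ := a1.exists_eq_range (by
      obtain ⟨a, ha, -⟩ := not_subset.1 (a2 γ0)
      exact ⟨a, ha⟩)
    refine ⟨fun γ => ⋃ n, Y γ n, s, fun γ => ?_, fun p γ n a h => ?_⟩
    · obtain ⟨_, ⟨n, rfl⟩, h⟩ := not_subset.1 (a2 γ)
      exact ⟨n, h⟩
    · obtain ⟨r, b1, a', b2, b3⟩ := hY3 γ n p a h
      exact ⟨r, b1, a', mem_iUnion.2 ⟨n, b2⟩, b3⟩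

end Pool.Agent.Work.MP_d02fb9_lc
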