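import Pool.Agent.Work.MP_d02fb9_lc.FModel
import Pool.Agent.Work.MP_d02fb9_lc.FGround
import Pool.Agent.Lib.ZFModel.ZFC

/-! The generic extension carries the data `MD`. -/

namespace Pool.Agent.Work.MP_d02fb9_lc
open Pool.Agent.Lib.ZFModel Pool.Agent.Work.MP_63c7e0_lc Name

variable {P T : Type} [Preorder P] [LinearOrder T] [WellFoundedLT T]

omit [Preorder P] in
noncomputable def oN : T → Name P :=
  wellFounded_lt.fix fun i IH => rName (fun j : Set.Iio i => IH j.1 j.2) fun _ _ => True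

omit [Preorder P] in
theorem oN_eq (i : T) : (oN i : Name P) = rName (fun j : Set.Iio i => oN j.1) fun _ _ => True := by
  rw [oN, WellFounded.fix_eq]

theorem oN_lt {j : T} : ∀ i < j, ∀ p : P, ¬ EqF (oN i) (oN j) p := by
  induction j using WellFoundedLT.induction with
  | ind j ih =>
    intro i hi p h
    rw [oN_eq j] at h
    have h1 := (eqF_iff.1 h).2 ⟨(⟨i, hi⟩, p), trivial⟩ p le_rfl le_rfl
    have h3 : MemF (oN i) (rName (fun j : Set.Iio i => oN j.1) fun _ _ => True) p :=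
      oN_eq (P := P) i ▸ h1
    obtain ⟨r, -, k, -, h2⟩ := h3 p le_rfl
    exact ih i hi k.1.1.1 k.1.1.2 r h2.symm

theorem oN_inj {i j : T} {p : P} (h : EqF (oN i) (oN j) p) : i = j := by
  rcases lt_trichotomy i j with h1 | h1 | h1
  · exact absurd h (oN_lt i h1 p)
  · exact h1
  · exact absurd h.symm (oN_lt j h1 p)

omit [Preorder P] [LinearOrder T] [WellFoundedLT T] in
theorem upairN_inj [Nonempty P] {a b a' b' : Name P} (h : upairN a b = upairN a' b') :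
    a = a' ∧ b = b' := by
  obtain ⟨p⟩ := ‹Nonempty P›
  unfold upairN rName at h
  injection h with _ h2 _
  exact ⟨congrFun h2 ⟨(true, p), trivial⟩, congrFun h2 ⟨(false, p), trivial⟩⟩

variable (hv : P → T → ℕ → ℕ → Prop) (lev : T → T) (S : T → ℕ → Set T)

omit [Preorder P] in
noncomputable def thN : Name P := rName (oN (T := T)) fun _ _ => True
omit [Preorder P] [LinearOrder T] [WellFoundedLT T] in
def hN (β : T) : Name P :=
  rName (fun a : ℕ × ℕ => pairN (natN a.1) (natN a.2)) fun a p => hv p β a.1 a.2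
omit [Preorder P] in
noncomputable def fN : Name P := rName (fun β => pairN (oN β) (hN hv β)) fun _ _ => True
omit [Preorder P] [LinearOrder T] [WellFoundedLT T] in
def Am (p : P) (v : T) (n : ℕ) (a : T) : Prop := ∃ l, hv p (lev v) n l ∧ a ∈ S v l
omit [Preorder P] in
noncomputable def AN : Name P :=
  rName (fun x : T × ℕ × T => pairN (pairN (oN x.1) (natN x.2.1)) (oN x.2.2))
    fun x p => Am hv lev S p x.1 x.2.1 x.2.2

def F (φ : Fml) (v : ℕ → Name P) (p : P) (i : T) (n k : ℕ) : Prop :=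
  Forces Unit φ p (cons (oN i) (cons (natN n) (cons (natN k) v)))
def F' (φ : Fml) (v : ℕ → Name P) (p : P) (i : T) (n : ℕ) (a : T) : Prop :=
  Forces Unit φ p (cons (oN i) (cons (natN n) (cons (oN a) v)))
def BB (φ : Fml) (v : ℕ → Name P) (γ : T) (p : P) (n M : ℕ) : Prop :=
  F φ v p γ n M ∨ ∀ r ≤ p, ∀ k, ¬ F φ v r γ n k
def BD (φ : Fml) (v : ℕ → Name P) (p0 : P) : Prop :=
  ∀ n, ∀ q ≤ p0, ∃ r ≤ q, ∃ K, ∀ (i : T) k, ∀ r' ≤ r, F φ v r' i n k → k < K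

variable {hv lev S} (D : DSys P T hv lev S)

noncomputable def cB (φ : Fml) (v : ℕ → Name P) : T → Set T :=
  (D.cov (F' φ v) fun _ _ _ _ _ h h' => Forces.mono h' h).choose
noncomputable def cs (φ : Fml) (v : ℕ → Name P) : ℕ → T :=
  (D.cov (F' φ v) fun _ _ _ _ _ h h' => Forces.mono h' h).choose_spec.choose
theorem cs_spec (φ : Fml) (v : ℕ → Name P) : (∀ γ, ∃ n, cs D φ v n ∉ cB D φ v γ) ∧
    ∀ p γ n a, F' φ v p γ n a → ∃ r ≤ p, ∃ a' ∈ cB D φ v γ, F' φ v r γ n a' :=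
  (D.cov (F' φ v) fun _ _ _ _ _ h h' => Forces.mono h' h).choose_spec.choose_spec
noncomputable def sN (φ : Fml) (v : ℕ → Name P) : Name P :=
  rName (fun n => pairN (natN n) (oN (cs D φ v n))) fun _ _ => True

noncomputable def ix (x : Name P) : T := @Function.invFun _ _ D.neT oN x

theorem ix_oN (i : T) : ix D (oN i) = i := by
  obtain ⟨p⟩ := D.neP
  exact @Function.leftInverse_invFun _ _ D.neT oN
    (fun i j h => oN_inj (p := p) (h ▸ EqF.refl _ _)) i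

/-- Indices of the closure conditions and dense sets. -/
inductive Kd : Type
  | th | f | a | o | h | fst | snd | s (φ : Fml) | sn (φ : Fml) (n : ℕ) | long (n : ℕ)
  | big (φ : Fml) | big2 (φ : Fml) | bd (φ : Fml) | wit (φ : Fml) (n K : ℕ) | col (φ : Fml)
  | col2 (φ : Fml) (n k : ℕ) | kk (φ : Fml) (n : ℕ)
  deriving Countable

def RN : Fam P T Kd (Name P) := fun k v _ a y => match k with
  | .th => y = thN (T := T)
  | .f => y = fN hv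
  | .a => y = AN hv lev S
  | .o => y = oN (a 0)
  | .h => y = hN hv (ix D (v 0))
  | .fst => ∃ b, v 0 = upairN y b
  | .snd => ∃ b, v 0 = upairN b y
  | .s φ => y = sN D φ v
  | .sn φ n => y = oN (cs D φ v n)
  | _ => True

def WW : Fam P T Kd (P × T) := fun k v _ _ y => match k with
  | .long n => ∃ l, hv y.1 (ix D (v 0)) n l
  | .big φ => ∀ γ ≤ ix D (v 0), ∀ q, ∃ r ≤ q, ∃ n0, ∀ n, n0 ≤ n →
      ∀ r' ≤ r, ∀ l, hv r' y.2 n l → ∃ M < l, BB φ (fun i => v (i + 1)) γ r' n M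
  | .big2 φ => ∃ n0, ∀ n, n0 ≤ n → ∀ r' ≤ y.1, ∀ l, hv r' (ix D (v 1)) n l →
      ∃ M < l, BB φ (fun i => v (i + 2)) (ix D (v 0)) r' n M
  | .bd φ => BD (T := T) φ v y.1 ∨
      ∃ n, ∀ r ≤ y.1, ∀ K, ∃ r' ≤ r, ∃ (i : T), ∃ k, K ≤ k ∧ F φ v r' i n k
  | .wit φ n K => ∃ k, K ≤ k ∧ F φ v y.1 y.2 n k
  | .col φ => ∀ n k, ∀ r' ≤ y.1, F φ v r' y.2 n k →
      ∃ r'' ≤ r', ∃ a, Am hv lev S r'' y.2 n a ∧ F φ v r'' a n k
  | .col2 φ n k => Am hv lev S y.1 (ix D (v 0)) n y.2 ∧ F φ (fun i => v (i + 1)) y.1 y.2 n k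
  | .kk φ n => y.2 ∈ cB D φ (fun i => v (i + 1)) (ix D (v 0)) ∧
      F' φ (fun i => v (i + 1)) y.1 (ix D (v 0)) n y.2
  | _ => True

variable {D} {p0 : P} {a0 : T} (g : GenW p0 a0 (RN D) (WW D))

theorem th_mem : thN (T := T) ∈ g.N := by
  obtain ⟨y, hy, h⟩ := g.clN .th [] [] [] mem_list₀ mem_list₀ mem_list₀ ⟨_, rfl⟩
  exact h ▸ hy

theorem f_mem : fN hv ∈ g.N := by
  obtain ⟨y, hy, h⟩ := g.clN .f [] [] [] mem_list₀ mem_list₀ mem_list₀ ⟨_, rfl⟩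
  exact h ▸ hy

theorem A_mem : AN hv lev S ∈ g.N := by
  obtain ⟨y, hy, h⟩ := g.clN .a [] [] [] mem_list₀ mem_list₀ mem_list₀ ⟨_, rfl⟩
  exact h ▸ hy

theorem o_mem {i : T} (hi : i ∈ g.AN) : oN i ∈ g.N := by
  obtain ⟨y, hy, h⟩ := g.clN .o [] [] [i] mem_list₀ mem_list₀ (mem_list₁ hi) ⟨_, rfl⟩
  exact h ▸ hy

theorem h_mem {i : T} (hi : oN i ∈ g.N) : hN hv i ∈ g.N := by
  obtain ⟨y, hy, h⟩ := g.clN .h [oN i] [] [] (mem_list₁ hi) mem_list₀ mem_list₀ ⟨_, rfl⟩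
  have h' : y = hN hv (ix D (oN i)) := h
  rw [ix_oN] at h'
  exact h' ▸ hy

theorem pair_mem {a b : Name P} (ha : a ∈ g.N) (hb : b ∈ g.N) : pairN a b ∈ g.N :=
  g.upair_mem _ (g.upair_mem _ ha _ ha) _ (g.upair_mem _ ha _ hb)

theorem of_pair_mem {a b : Name P} (h : pairN a b ∈ g.N) : a ∈ g.N ∧ b ∈ g.N := by
  have := D.neP
  have key : ∀ {a b : Name P}, upairN a b ∈ g.N → a ∈ g.N ∧ b ∈ g.N := by
    intro a b h
    obtain ⟨y, hy, c, h1⟩ := g.clN .fst [upairN a b] [] [] (mem_list₁ h) mem_list₀ mem_list₀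
      ⟨a, b, rfl⟩
    obtain ⟨z, hz, d, h2⟩ := g.clN .snd [upairN a b] [] [] (mem_list₁ h) mem_list₀ mem_list₀
      ⟨b, a, rfl⟩
    exact ⟨(upairN_inj h1).1 ▸ hy, (upairN_inj h2).2 ▸ hz⟩
  exact key (key h).2

theorem isPair_pairN {a b : Name P} (ha : a ∈ g.N) (hb : b ∈ g.N) (h : pairN a b ∈ g.N) :
    IsPair g.toGen.E (g.toGen.cl ⟨_, h⟩) (g.toGen.cl ⟨_, ha⟩) (g.toGen.cl ⟨_, hb⟩) := by
  have zf := g.zfc.zf
  have h1 := g.toGen.mem_upair ha ha (g.upair_mem _ ha _ ha)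
  have h2 := g.toGen.mem_upair ha hb (g.upair_mem _ ha _ hb)
  intro z
  refine (g.toGen.mem_upair (g.upair_mem _ ha _ ha) (g.upair_mem _ ha _ hb) h z).trans ⟨?_, ?_⟩
  · rintro (rfl | rfl)
    · exact Or.inl fun x => (h1 x).trans or_self_iff
    · exact Or.inr h2
  · rintro (h3 | h3)
    · exact Or.inl (zf.extensionality _ _ fun x => (h3 x).trans ((h1 x).trans or_self_iff).symm)
    · exact Or.inr (zf.extensionality _ _ fun x => (h3 x).trans (h2 x).symm)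

theorem mem_pairs {ι : Type} {a b : ι → Name P} {R : ι → P → Prop}
    (h : rName (fun i => pairN (a i) (b i)) R ∈ g.N) (z : g.toGen.M) :
    g.toGen.E z (g.toGen.cl ⟨_, h⟩) ↔ ∃ i p, R i p ∧ g.G p ∧ ∃ (ha : a i ∈ g.N) (hb : b i ∈ g.N),
      IsPair g.toGen.E z (g.toGen.cl ⟨_, ha⟩) (g.toGen.cl ⟨_, hb⟩) := by
  refine (g.toGen.E_rName h z).trans ⟨?_, ?_⟩
  · rintro ⟨i, p, h1, h2, h3, rfl⟩
    obtain ⟨ha, hb⟩ := of_pair_mem g h3
    exact ⟨i, p, h1, h2, ha, hb, isPair_pairN g ha hb h3⟩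
  · rintro ⟨i, p, h1, h2, ha, hb, h3⟩
    exact ⟨i, p, h1, h2, pair_mem g ha hb,
      pair_unique g.zfc.zf h3 (isPair_pairN g ha hb (pair_mem g ha hb))⟩

def natM (n : ℕ) : g.toGen.M := g.toGen.cl ⟨_, g.nat_mem n⟩
abbrev JJ : Type := {i : T // oN i ∈ g.N}
noncomputable def oM (i : JJ g) : g.toGen.M := g.toGen.cl ⟨_, i.2⟩

theorem natM_inj {m n : ℕ} (h : natM g m = natM g n) : m = n := by
  rcases lt_trichotomy m n with h1 | h1 | h1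
  · exact absurd ((g.toGen.mem_nat g.nat_mem _ n).2 ⟨m, h1, h.symm⟩)
      (not_mem_self g.zfc.zf (natM g n))
  · exact h1
  · exact absurd ((g.toGen.mem_nat g.nat_mem _ m).2 ⟨n, h1, h⟩)
      (not_mem_self g.zfc.zf (natM g m))

theorem oM_inj {i j : JJ g} (h : oM g i = oM g j) : i = j := by
  obtain ⟨p, -, h1⟩ := g.toGen.cl_eq.1 h
  exact Subtype.ext (oN_inj h1)

theorem mem_oM (a : g.toGen.M) (j : JJ g) :
    g.toGen.E a (oM g j) ↔ ∃ i : JJ g, i.1 < j.1 ∧ a = oM g i := by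
  have h1 : rName (fun i : Set.Iio j.1 => oN i.1) (fun _ _ => True) ∈ g.N :=
    oN_eq (P := P) j.1 ▸ j.2
  have h2 : oM g j = g.toGen.cl ⟨_, h1⟩ := congrArg g.toGen.cl (Subtype.ext (oN_eq j.1))
  rw [h2, g.toGen.E_rName]
  exact ⟨fun ⟨i, _, _, _, hi, h⟩ => ⟨⟨i.1, hi⟩, i.2, h⟩,
    fun ⟨i, hi, h⟩ => ⟨⟨i.1, hi⟩, p0, trivial, g.G_p0, i.2, h⟩⟩

theorem mem_th (a : g.toGen.M) : g.toGen.E a (g.toGen.cl ⟨_, th_mem g⟩) ↔ ∃ j, a = oM g j :=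
  (g.toGen.E_rName (th_mem g) a).trans ⟨fun ⟨i, _, _, _, hi, h⟩ => ⟨⟨i, hi⟩, h⟩,
    fun ⟨i, h⟩ => ⟨i.1, p0, trivial, g.G_p0, i.2, h⟩⟩

theorem exists_val (j : JJ g) (n : ℕ) : ∃ l p, g.G p ∧ hv p j.1 n l := by
  obtain ⟨r, _, hr, _, _, l, hl⟩ := g.meet (.long n) [oN j.1] [] [] (mem_list₁ j.2) mem_list₀
    mem_list₀ p0 g.G_p0 fun q _ => by
      obtain ⟨r, hr, h⟩ := D.long q (ix D (oN j.1)) n
      exact ⟨r, hr, a0, h⟩
  have hl' : hv r (ix D (oN j.1)) n l := hl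
  rw [ix_oN] at hl'
  exact ⟨l, r, hr, hl'⟩

noncomputable def hh (j : JJ g) (n : ℕ) : ℕ := (exists_val g j n).choose

theorem val_eq {β n l l'} {p q : P} (hp : g.G p) (hq : g.G q) (h : hv p β n l)
    (h' : hv q β n l') : l = l' := by
  obtain ⟨r, -, h1, h2⟩ := g.dir _ _ hp hq
  exact D.func r β n l l' (D.mono _ _ _ _ _ h1 h) (D.mono _ _ _ _ _ h2 h')

theorem mem_hM (z : g.toGen.M) (j : JJ g) : g.toGen.E z (g.toGen.cl ⟨_, h_mem g j.2⟩) ↔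
    ∃ n, IsPair g.toGen.E z (natM g n) (natM g (hh g j n)) := by
  refine (mem_pairs g (h_mem g j.2) z).trans ⟨?_, ?_⟩
  · rintro ⟨⟨n, l⟩, p, h1, h2, _, _, h3⟩
    obtain ⟨q, h4, h5⟩ := (exists_val g j n).choose_spec
    obtain rfl : l = hh g j n := val_eq g h2 h4 h1 h5
    exact ⟨n, h3⟩
  · rintro ⟨n, h⟩
    obtain ⟨q, h4, h5⟩ := (exists_val g j n).choose_spec
    exact ⟨(n, hh g j n), q, h5, h4, _, _, h⟩

theorem mem_fM (z : g.toGen.M) : g.toGen.E z (g.toGen.cl ⟨_, f_mem g⟩) ↔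
    ∃ j : JJ g, IsPair g.toGen.E z (oM g j) (g.toGen.cl ⟨_, h_mem g j.2⟩) :=
  (mem_pairs g (f_mem g) z).trans ⟨fun ⟨i, _, _, _, hi, _, h⟩ => ⟨⟨i, hi⟩, h⟩,
    fun ⟨i, h⟩ => ⟨i.1, p0, trivial, g.G_p0, i.2, _, h⟩⟩

theorem tri_iff (v : JJ g) (n : ℕ) (a : g.toGen.M) :
    Tri g.toGen.E (g.toGen.cl ⟨_, A_mem g⟩) (oM g v) (natM g n) a ↔
      ∃ j : JJ g, a = oM g j ∧ ∃ p, g.G p ∧ Am hv lev S p v.1 n j.1 := by
  have zf := g.zfc.zf
  constructor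
  · rintro ⟨q, h1, z, hz, h2⟩
    obtain ⟨⟨v', n', a'⟩, p, h3, h4, ha, hb, h5⟩ := (mem_pairs g (A_mem g) z).1 hz
    obtain ⟨rfl, rfl⟩ := pair_inj zf h2 h5
    obtain ⟨hc, hd⟩ := of_pair_mem g ha
    obtain ⟨h6, h7⟩ := pair_inj zf h1 (isPair_pairN g hc hd ha)
    obtain rfl : v = ⟨v', hc⟩ := oM_inj g h6
    obtain rfl : n = n' := natM_inj g h7
    exact ⟨⟨a', hb⟩, rfl, p, h4, h3⟩
  · rintro ⟨j, rfl, p, h1, h2⟩
    have ha := pair_mem g v.2 (g.nat_mem n)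
    obtain ⟨z, hz⟩ := exists_pair zf (g.toGen.cl ⟨_, ha⟩) (oM g j)
    exact ⟨_, isPair_pairN g v.2 (g.nat_mem n) ha, z,
      (mem_pairs g (A_mem g) z).2 ⟨(v.1, n, j.1), p, h2, h1, ha, j.2, hz⟩, hz⟩

theorem ext_fin (v : JJ g) (n : ℕ) :
    {a | Tri g.toGen.E (g.toGen.cl ⟨_, A_mem g⟩) (oM g v) (natM g n) a}.Finite := by
  by_cases h : ∃ l p, g.G p ∧ hv p (lev v.1) n l
  · obtain ⟨l, p, h1, h2⟩ := h
    refine (((D.fin v.1 l).preimage Subtype.val_injective.injOn).image (oM g)).subset ?_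
    intro a ha
    obtain ⟨j, rfl, q, h3, l', h4, h5⟩ := (tri_iff g v n a).1 ha
    obtain rfl := val_eq g h1 h3 h2 h4
    exact ⟨j, h5, rfl⟩
  · refine Set.finite_empty.subset fun a ha => ?_
    obtain ⟨j, rfl, q, h3, l', h4, -⟩ := (tri_iff g v n a).1 ha
    exact h ⟨l', q, h3, h4⟩

theorem ext_big (R : g.toGen.M → g.toGen.M → g.toGen.M → Prop)
    (h : Dfn g.toGen.E (fun v => R (v 0) (v 1) (v 2)))
    (hf : ∀ γ n k k', R (oM g γ) (natM g n) (natM g k) → R (oM g γ) (natM g n) (natM g k') → k = k')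
    (i : JJ g) : ∃ β : JJ g, ∀ γ : JJ g, γ.1 < i.1 ∨ γ = i → ∃ n0, ∀ n, n0 ≤ n → ∀ k,
      R (oM g γ) (natM g n) (natM g k) → k < hh g β n := by
  obtain ⟨φ, l, hl, hF⟩ := g.toGen.truth3 R
  have hF' : ∀ (γ : JJ g) n k, R (oM g γ) (natM g n) (natM g k) ↔
      ∃ p, g.G p ∧ F φ (envOf emptyName l) p γ.1 n k := fun γ n k => hF _ _ _
  obtain ⟨β, hβ⟩ := D.big (ix D (oN i.1)) (BB φ (envOf emptyName l))
    (fun γ p q n M h => Or.imp (fun h' => Forces.mono h' h) fun h' r hr => h' r (hr.trans h))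
    fun γ p n => by
      by_cases h : ∃ r ≤ p, ∃ k, F φ (envOf emptyName l) r γ n k
      · obtain ⟨r, hr, k, hk⟩ := h
        exact ⟨r, hr, k, Or.inl hk⟩
      · exact ⟨p, le_rfl, 0, Or.inr fun r hr k hk => h ⟨r, hr, k, hk⟩⟩
  obtain ⟨_, _, _, β, hβ, h1⟩ := g.meet (.big φ) (oN i.1 :: l) [] [] (mem_listc i.2 hl) mem_list₀
    mem_list₀ p0 g.G_p0 fun q _ => ⟨q, le_rfl, β, hβ⟩
  refine ⟨⟨β, o_mem g hβ⟩, fun γ hγ => ?_⟩
  have h2 : γ.1 ≤ ix D (oN i.1) := by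
    rw [ix_oN]
    exact hγ.elim le_of_lt fun h => h ▸ le_rfl
  obtain ⟨r, _, hr, _, _, n0, h3⟩ := g.meet (.big2 φ) (oN γ.1 :: oN β :: l) [] []
    (mem_listc γ.2 (mem_listc (o_mem g hβ) hl)) mem_list₀ mem_list₀ p0 g.G_p0 fun q _ => by
      obtain ⟨r, hr, h4⟩ := h1 γ.1 h2 q
      refine ⟨r, hr, a0, ?_⟩
      change ∃ n0, ∀ n, n0 ≤ n → ∀ r' ≤ r, ∀ l', hv r' (ix D (oN β)) n l' →
        ∃ M < l', BB φ (envOf emptyName l) (ix D (oN γ.1)) r' n M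
      rw [ix_oN, ix_oN]
      exact h4
  change ∀ n, n0 ≤ n → ∀ r' ≤ r, ∀ l', hv r' (ix D (oN β)) n l' →
    ∃ M < l', BB φ (envOf emptyName l) (ix D (oN γ.1)) r' n M at h3
  rw [ix_oN, ix_oN] at h3
  refine ⟨n0, fun n hn k hR => ?_⟩
  obtain ⟨p, hp, h4⟩ := (hF' _ _ _).1 hR
  obtain ⟨q, hq, h5⟩ := (exists_val g ⟨β, o_mem g hβ⟩ n).choose_spec
  obtain ⟨s, hs, a1, a2⟩ := g.dir _ _ hp hq
  obtain ⟨u, hu, a3, a4⟩ := g.dir _ _ hs hr
  obtain ⟨M, h6, h7 | h7⟩ := h3 n hn u a4 _ (D.mono _ _ _ _ _ (a3.trans a2) h5)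
  · rwa [hf γ n k M hR ((hF' _ _ _).2 ⟨u, hu, h7⟩)]
  · exact absurd (Forces.mono h4 (a3.trans a1)) (h7 u le_rfl k)

theorem ext_col (R : g.toGen.M → g.toGen.M → g.toGen.M → Prop)
    (h : Dfn g.toGen.E (fun v => R (v 0) (v 1) (v 2)))
    (hb : ∀ n, ∃ K, ∀ v k, R (oM g v) (natM g n) (natM g k) → k < K) :
    ∃ v, ∀ n k, R (oM g v) (natM g n) (natM g k) → ∃ a,
      Tri g.toGen.E (g.toGen.cl ⟨_, A_mem g⟩) (oM g v) (natM g n) a ∧
        R a (natM g n) (natM g k) := by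
  obtain ⟨φ, l, hl, hF⟩ := g.toGen.truth3 R
  have hF' : ∀ (γ : JJ g) n k, R (oM g γ) (natM g n) (natM g k) ↔
      ∃ p, g.G p ∧ F φ (envOf emptyName l) p γ.1 n k := fun γ n k => hF _ _ _
  obtain ⟨p, _, hp, _, _, h1 | ⟨n, h1⟩⟩ := g.meet (.bd φ) l [] [] hl mem_list₀ mem_list₀
    p0 g.G_p0 fun q _ => by
      by_cases hq : BD (T := T) φ (envOf emptyName l) q
      · exact ⟨q, le_rfl, a0, Or.inl hq⟩
      · unfold BD at hq
        push Not at hq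
        obtain ⟨n, r, hr, h⟩ := hq
        refine ⟨r, hr, a0, Or.inr ⟨n, fun s hs K => ?_⟩⟩
        obtain ⟨i, k, r', a1, a2, a3⟩ := h s hs K
        exact ⟨r', a1, i, k, a3, a2⟩
  · obtain ⟨r, _, hr, v, hv', h2⟩ := g.meet (.col φ) l [] [] hl mem_list₀ mem_list₀ p hp
      (D.col (F φ (envOf emptyName l)) (fun _ _ _ _ _ h h' => Forces.mono h' h) p h1)
    refine ⟨⟨v, o_mem g hv'⟩, fun n k hR => ?_⟩
    obtain ⟨q, hq, h3⟩ := (hF' _ _ _).1 hR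
    obtain ⟨s, hs, a1, a2⟩ := g.dir _ _ hq hr
    obtain ⟨u, _, hu, a, ha, h4⟩ := g.meet (.col2 φ n k) (oN v :: l) [] []
      (mem_listc (o_mem g hv') hl) mem_list₀ mem_list₀ s hs fun s' hs' => by
        obtain ⟨r'', b1, a, b2⟩ := h2 n k s' (hs'.trans a2) (Forces.mono h3 (hs'.trans a1))
        refine ⟨r'', b1, a, ?_⟩
        change Am hv lev S r'' (ix D (oN v)) n a ∧ F φ (envOf emptyName l) r'' a n k
        rw [ix_oN]
        exact b2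
    change Am hv lev S u (ix D (oN v)) n a ∧ F φ (envOf emptyName l) u a n k at h4
    rw [ix_oN] at h4
    exact ⟨oM g ⟨a, o_mem g ha⟩, (tri_iff g _ _ _).2 ⟨_, rfl, u, hu, h4.1⟩,
      (hF' _ _ _).2 ⟨u, hu, h4.2⟩⟩
  · obtain ⟨K, hK⟩ := hb n
    obtain ⟨r, _, hr, v, hv', k, h2, h3⟩ := g.meet (.wit φ n K) l [] [] hl mem_list₀ mem_list₀ p hp
      fun q hq => h1 q hq K
    exact absurd (hK ⟨v, o_mem g hv'⟩ k ((hF' _ _ _).2 ⟨r, hr, h3⟩)) (by omega)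

theorem ext_cov (R : g.toGen.M → g.toGen.M → g.toGen.M → Prop)
    (h : Dfn g.toGen.E (fun v => R (v 0) (v 1) (v 2)))
    (hf : ∀ γ n a a', R (oM g γ) (natM g n) (oM g a) → R (oM g γ) (natM g n) (oM g a') →
      oM g a = oM g a') :
    ∃ (s : ℕ → JJ g) (c : g.toGen.M),
      (∀ p, g.toGen.E p c ↔ ∃ n, IsPair g.toGen.E p (natM g n) (oM g (s n))) ∧
      ∀ γ, ∃ m, ∀ n, ¬ R (oM g γ) (natM g n) (oM g (s m)) := by
  obtain ⟨φ, l, hl, hF⟩ := g.toGen.truth3 R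
  have hF' : ∀ (γ : JJ g) n (a : JJ g), R (oM g γ) (natM g n) (oM g a) ↔
      ∃ p, g.G p ∧ F' φ (envOf emptyName l) p γ.1 n a.1 := fun γ n k => hF _ _ _
  have h1 : ∀ n, oN (cs D φ (envOf emptyName l) n) ∈ g.N := fun n => by
    obtain ⟨y, hy, h⟩ := g.clN (.sn φ n) l [] [] hl mem_list₀ mem_list₀ ⟨_, rfl⟩
    exact h ▸ hy
  have h2 : sN D φ (envOf emptyName l) ∈ g.N := by
    obtain ⟨y, hy, h⟩ := g.clN (.s φ) l [] [] hl mem_list₀ mem_list₀ ⟨_, rfl⟩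
    exact h ▸ hy
  obtain ⟨c1, c2⟩ := cs_spec D φ (envOf emptyName l)
  refine ⟨fun n => ⟨_, h1 n⟩, g.toGen.cl ⟨_, h2⟩, fun z => (mem_pairs g h2 z).trans
    ⟨fun ⟨n, _, _, _, _, _, h⟩ => ⟨n, h⟩, fun ⟨n, h⟩ => ⟨n, p0, trivial, g.G_p0, _, _, h⟩⟩,
    fun γ => ?_⟩
  obtain ⟨m, hm⟩ := c1 γ.1
  refine ⟨m, fun n hR => ?_⟩
  obtain ⟨p, hp, h3⟩ := (hF' _ _ _).1 hR
  obtain ⟨u, _, hu, a, ha, h4⟩ := g.meet (.kk φ n) (oN γ.1 :: l) [] []
    (mem_listc γ.2 hl) mem_list₀ mem_list₀ p hp fun q hq => by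
      obtain ⟨r, b1, a, b2⟩ := c2 q γ.1 n _ (Forces.mono h3 hq)
      refine ⟨r, b1, a, ?_⟩
      change a ∈ cB D φ (envOf emptyName l) (ix D (oN γ.1)) ∧
        F' φ (envOf emptyName l) r (ix D (oN γ.1)) n a
      rw [ix_oN]
      exact b2
  change a ∈ cB D φ (envOf emptyName l) (ix D (oN γ.1)) ∧
    F' φ (envOf emptyName l) u (ix D (oN γ.1)) n a at h4
  rw [ix_oN] at h4
  have h5 := oM_inj g (hf γ n _ ⟨a, o_mem g ha⟩ hR ((hF' _ _ _).2 ⟨u, hu, h4.2⟩))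
  have h6 : cs D φ (envOf emptyName l) m = a := congrArg Subtype.val h5
  exact hm (h6 ▸ h4.1)

theorem DSys.model (D : DSys P T hv lev S) : ∃ (M : Type 1) (E : M → M → Prop), IsZFC E ∧
    ∃ θ, IsOrd E θ ∧ DomLe E θ ∧ (∀ ν, E ν θ → ¬ DomLe E ν) ∧ ¬ CofLe E θ ∧ LamLe E θ := by
  obtain ⟨p0⟩ := D.neP
  obtain ⟨a0⟩ := D.neT
  obtain ⟨g⟩ := exists_genW p0 a0 (RN D) (WW D)
  let md : MD g.toGen.E := ⟨natM g, g.toGen.cl ⟨_, g.omega_mem⟩, g.toGen.mem_nat g.nat_mem,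
    g.toGen.mem_omega g.nat_mem g.omega_mem, JJ g, fun i j => i.1 < j.1,
    fun i j => (lt_trichotomy i.1 j.1).imp_right (Or.imp_left Subtype.ext),
    ⟨⟨a0, o_mem g g.a0_mem⟩⟩, oM g, mem_oM g, _, mem_th g, hh g, _, mem_hM g, _, mem_fM g, _,
    ext_fin g, fun v n a h => by
      obtain ⟨j, h1, p, -, l, -, h2⟩ := (tri_iff g v n a).1 h
      exact ⟨j, fun e => D.irr v.1 l (e ▸ h2), h1⟩, ext_big g, ext_col g, ext_cov g⟩
  exact ⟨_, g.toGen.E, g.zfc, md.θ, isOrd_θ md, domLe_θ g.zfc.zf md,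
    fun ν hν => not_domLe g.zfc.zf md hν, not_cofLe g.zfc md, lamLe_θ g.zfc md⟩

end Pool.Agent.Work.MP_d02fb9_lc
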