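import Pool.Agent.Work.MP_d02fb9_lc.FLow
import Pool.Agent.Work.MP_d02fb9_lc.FExt

/-! A model of `λ ≤ 𝔡 < cof([𝔡]^ℵ₀)` from a cardinal with `cof([κ]^ℵ₀) > κ⁺`. -/

namespace Pool.Agent.Work.MP_d02fb9_lc

open Cardinal Set Order Pool.Agent.Lib.ClubGuess Pool.Agent.Lib.ZFModel

theorem exists_model {κ : Cardinal.{0}} (h0 : ℵ₀ ≤ κ) (h : succ κ < cofCtble κ) :
    ∃ (M : Type 1) (E : M → M → Prop), IsZFC E ∧
      ∃ θ, IsOrd E θ ∧ DomLe E θ ∧ (∀ ν, E ν θ → ¬ DomLe E ν) ∧ ¬ CofLe E θ ∧ LamLe E θ := by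
  let T := (succ κ).ord.ToType
  have : IsRegularCardinalOrder T := isRegularCardinalOrder_toType (isRegular_succ h0)
  have hT : #T = succ κ := mk_ord_toType _
  have h1 : ¬ CovT T (succ κ) := fun hc =>
    (covT_iff.1 (hc.of_inj (by rw [mk_out, hT]; exact le_succ κ))).not_gt h
  have h3 : ℵ_ 3 < #T := by
    rw [hT]
    by_contra! hle
    exact h1 ((covT_of_cov' (cov'_of_le_aleph_three (h0.trans (le_succ κ)) hle)).of_inj
      (by rw [mk_out, hT]))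
  obtain ⟨lev, S, D⟩ := exists_dsys h3 fun B hB => by
    by_contra! hc
    refine h1 ⟨range B, mk_range_le.trans hT.le, ?_, fun A hA => ?_⟩
    · rintro _ ⟨γ, rfl⟩
      exact hB γ
    · obtain ⟨γ, hγ⟩ := hc A hA
      exact ⟨_, ⟨γ, rfl⟩, hγ⟩
  exact D.model

open Pool.Agent.Work.MP_63c7e0_lc in
theorem ord_trichotomy {M : Type 1} {E : M → M → Prop} (zf : IsZF E) {a b : M} (ha : IsOrd E a)
    (hb : IsOrd E b) : E a b ∨ a = b ∨ E b a := by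
  have := zf.nonempty
  have key : ∀ {a b : M}, IsOrd E a → IsOrd E b → (∃ x, E x a ∧ ¬ E x b) →
      ∃ x, E x a ∧ ∀ y, E y x ↔ E y a ∧ E y b := by
    rintro a b ha hb ⟨x0, h1, h2⟩
    obtain ⟨c, hc⟩ := zf.sep a fun x => ¬ E x b
    obtain ⟨x, hx, hmin⟩ := zf.foundation c ⟨x0, (hc x0).2 ⟨h1, h2⟩⟩
    obtain ⟨h3, h4⟩ := (hc x).1 hx
    refine ⟨x, h3, fun y => ⟨fun hy => ⟨ha.1 x h3 y hy, by_contra fun h =>
      hmin y hy ((hc y).2 ⟨ha.1 x h3 y hy, h⟩)⟩, fun ⟨h5, h6⟩ => ?_⟩⟩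
    rcases ha.2 y x h5 h3 with h | rfl | h
    · exact h
    · exact absurd h6 h4
    · exact absurd (hb.1 y h6 x h) h4
  by_cases h1 : ∃ x, E x a ∧ ¬ E x b <;> by_cases h2 : ∃ x, E x b ∧ ¬ E x a
  · obtain ⟨x, h3, h4⟩ := key ha hb h1
    obtain ⟨y, h5, h6⟩ := key hb ha h2
    obtain rfl : x = y := zf.extensionality _ _ fun z => by rw [h4, h6, and_comm]
    exact absurd ((h4 x).2 ⟨h3, h5⟩) (not_mem_self zf x)
  · obtain ⟨x, h3, h4⟩ := key ha hb h1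
    obtain rfl : x = b := zf.extensionality _ _ fun z => (h4 z).trans
      ⟨fun h => h.2, fun h => ⟨by_contra fun h' => h2 ⟨z, h, h'⟩, h⟩⟩
    exact Or.inr (Or.inr h3)
  · obtain ⟨x, h3, h4⟩ := key hb ha h2
    obtain rfl : x = a := zf.extensionality _ _ fun z => (h4 z).trans
      ⟨fun h => h.2, fun h => ⟨by_contra fun h' => h1 ⟨z, h, h'⟩, h⟩⟩
    exact Or.inl h3
  · exact Or.inr (Or.inl (zf.extensionality _ _ fun z =>
      ⟨fun h => by_contra fun h' => h1 ⟨z, h, h'⟩, fun h => by_contra fun h' => h2 ⟨z, h, h'⟩⟩))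

end Pool.Agent.Work.MP_d02fb9_lc
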