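import Pool.Agent.Lib.ClubGuess.Basic
import Mathlib.Algebra.Notation.Indicator

namespace Pool.Agent.Work.MP_d02fb9_lc

open Cardinal Set Order Pool.Agent.Lib.ClubGuess

/-- The well order `ω₃`. -/
abbrev S3 : Type := (ℵ_ 3 : Cardinal.{0}).ord.ToType

lemma isRegular_aleph_three : (ℵ_ 3 : Cardinal.{0}).IsRegular := by
  have := isRegular_aleph_add_one (2 : Ordinal.{0})
  rwa [two_add_one_eq_three] at this

instance : IsRegularCardinalOrder S3 := isRegularCardinalOrder_toType isRegular_aleph_three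

lemma mk_S3 : #S3 = ℵ_ 3 := mk_ord_toType _

lemma exists_bound {θ : Cardinal.{0}} (hθ : θ.IsRegular) {s : Set Ordinal.{0}}
    (hs : #s < Cardinal.lift.{1} θ) (h : ∀ a ∈ s, a < θ.ord) : ∃ β < θ.ord, ∀ a ∈ s, a < β := by
  have h1 : ⨆ a : s, a.1 + 1 < θ.ord := by
    refine Ordinal.lift_iSup_add_one_lt_of_lt_cof ?_ (fun a : s => h a.1 a.2)
    rwa [← Ordinal.lift_cof, hθ.cof_ord, Cardinal.lift_id'.{0, 1}]
  refine ⟨_, h1, fun a ha => (Order.lt_add_one_iff.2 le_rfl).trans_le ?_⟩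
  refine le_ciSup (f := fun a : s => a.1 + 1) ⟨θ.ord, ?_⟩ ⟨a, ha⟩
  rintro _ ⟨b, rfl⟩
  exact Order.add_one_le_iff.2 (h b.1 b.2)

/-- Union of the earlier stages. -/
def Nf (f : S3 → Set Ordinal.{0}) (i : S3) : Set Ordinal.{0} := {a | ∃ k < i, a ∈ f k}

/-- Least strict upper bound of the part of the union below `θ`. -/
noncomputable def df (f : S3 → Set Ordinal.{0}) (θ : Cardinal.{0}) (i : S3) : Ordinal.{0} :=
  sInf {β | ∀ a ∈ Nf f i, a < θ.ord → a < β}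

lemma lt_df {f : S3 → Set Ordinal.{0}} {θ : Cardinal.{0}} {i : S3} {a : Ordinal.{0}}
    (ha : a ∈ Nf f i) (h : a < θ.ord) : a < df f θ i :=
  csInf_mem (s := {β | ∀ a ∈ Nf f i, a < θ.ord → a < β}) ⟨θ.ord, fun _ _ h => h⟩ a ha h

lemma df_le {f : S3 → Set Ordinal.{0}} {θ : Cardinal.{0}} {i : S3} {β : Ordinal.{0}}
    (h : ∀ a ∈ Nf f i, a < θ.ord → a < β) : df f θ i ≤ β :=
  csInf_le' h

lemma Nf_mono (f : S3 → Set Ordinal.{0}) {i j : S3} (h : i ≤ j) : Nf f i ⊆ Nf f j :=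
  fun _ ⟨k, hk, ha⟩ => ⟨k, hk.trans_le h, ha⟩

theorem guess {ρ κ : Cardinal.{0}} (hρ : ℵ_ 3 ≤ ρ) {Θ : Set Cardinal.{0}} (hΘc : Θ.Countable)
    (hΘ : ∀ θ ∈ Θ, θ.IsRegular ∧ ρ < θ ∧ θ ≤ κ) :
    ∃ (Q : Set (Set S3)) (e : Ordinal.{0} → S3 → Ordinal.{0}), #Q ≤ ℵ_ 3 ∧
      (∀ q ∈ Q, q.Countable) ∧
      ∀ (Φ : Set Ordinal.{0} → Set Ordinal.{0}),
        (∀ X : Set Ordinal.{0}, #X ≤ Cardinal.lift.{1} ρ → #(Φ X) ≤ Cardinal.lift.{1} ρ) →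
        ∀ Hx : Set S3 × List (S3 → Ordinal.{0}) × Ordinal.{0} → Ordinal.{0},
        ∃ (C : Set S3) (δ : Cardinal.{0} → S3 → Ordinal.{0}) (N : Set Ordinal.{0}),
          (∀ s ⊆ C, s.Countable → ∃ i ∈ C, ∀ k ∈ s, k < i) ∧
          (∀ i ∈ C, C ∩ Iio i ∈ Q) ∧
          (∀ θ ∈ Θ, ∃ ε < κ.ord, ∀ i ∈ C, δ θ i = e ε i) ∧
          (∀ θ ∈ Θ, ∀ i ∈ C, δ θ i ∈ N ∧ δ θ i < θ.ord) ∧
          (∀ θ ∈ Θ, ∀ a ∈ N, a < θ.ord → ∃ i ∈ C, a < δ θ i) ∧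
          (∀ s ⊆ N, s.Countable → ∃ X : Set Ordinal.{0}, s ⊆ X ∧ #X ≤ Cardinal.lift.{1} ρ ∧
            Φ X ⊆ N) ∧
          (∀ i ∈ C, ∀ L : List Cardinal.{0}, (∀ θ ∈ L, θ ∈ Θ) → ∀ γ < ρ.ord,
            Hx (C ∩ Iio i, L.map (fun θ => indicator (C ∩ Iio i) (δ θ)), γ) ∈ N) := by
  classical
  have h23 : (ℵ_ 2 : Cardinal.{0}) < #S3 := by
    rw [mk_S3, aleph_lt_aleph, ← two_add_one_eq_three]
    exact Order.lt_add_one_iff.2 le_rfl
  have hS0 : ℵ₀ < #S3 := (aleph0_le_aleph 2).trans_lt h23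
  have hρ0 : ℵ₀ ≤ ρ := (aleph0_le_aleph 3).trans hρ
  have hρ' : ℵ₀ ≤ Cardinal.lift.{1} ρ := by simpa using hρ0
  obtain ⟨Q, hQ1, hQ2, hQ3⟩ := club_guessing h23
  rw [mk_S3] at hQ1
  choose! e he1 he2 using fun (ε : Ordinal.{0})
    (h : ∃ f : S3 → Ordinal.{0}, IsNormal f ∧ IsLUB (range f) ε) => h
  refine ⟨Q, e, hQ1, hQ2, fun Φ hΦ Hx => ?_⟩
  let step : S3 → (S3 → Set Ordinal.{0}) → Set Ordinal.{0} := fun k f =>
    Φ (Nf f k) ∪ (fun θ => df f θ k) '' Θ ∪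
      {a | ∃ q ∈ Q, q ⊆ Iic k ∧ ∃ L : List Cardinal.{0}, (∀ θ ∈ L, θ ∈ Θ) ∧ ∃ γ < ρ.ord,
        a = Hx (q, L.map (fun θ => indicator q (df f θ)), γ)}
  obtain ⟨M, hM⟩ := exists_rec step (by
    intro k f g h
    have h1 : ∀ j ≤ k, Nf f j = Nf g j := by
      intro j hj
      ext a
      constructor
      · rintro ⟨l, hl, ha⟩
        exact ⟨l, hl, h l (hl.trans_le hj) ▸ ha⟩
      · rintro ⟨l, hl, ha⟩
        exact ⟨l, hl, (h l (hl.trans_le hj)).symm ▸ ha⟩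
    have h2 : ∀ θ, ∀ j ≤ k, df f θ j = df g θ j := by
      intro θ j hj
      unfold df
      rw [h1 j hj]
    have h3 : ∀ q ⊆ Iic k, (fun θ => indicator q (df f θ)) = fun θ => indicator q (df g θ) := by
      intro q hq
      funext θ
      exact indicator_congr fun j hj => h2 θ j (hq hj)
    simp only [step]
    congr 1
    · rw [h1 k le_rfl]
      congr 1
      exact image_congr fun θ _ => h2 θ k le_rfl
    · ext a
      refine exists_congr fun q => and_congr_right fun _ => and_congr_right fun hq => ?_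
      rw [h3 q hq])
  have hNc : ∀ k, (∀ j < k, #(M j) ≤ Cardinal.lift.{1} ρ) → #(Nf M k) ≤ Cardinal.lift.{1} ρ := by
    intro k h
    have : Nf M k = ⋃ j : Iio k, M j.1 := by
      ext a
      simp [Nf]
    rw [this]
    have h1 := mk_iUnion_le_lift (fun j : Iio k => M j.1)
    rw [lift_uzero] at h1
    refine h1.trans ((mul_le_mul' (b := Cardinal.lift.{1} ρ) (d := Cardinal.lift.{1} ρ) ?_
      (ciSup_le' fun j => ?_)).trans (mul_eq_self hρ').le)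
    · exact lift_le.2 ((mk_set_le _).trans (mk_S3.le.trans hρ))
    · rw [lift_uzero]
      exact h j.1 j.2
  have hMc : ∀ k, #(M k) ≤ Cardinal.lift.{1} ρ := by
    intro k
    induction k using WellFoundedLT.induction with
    | ind k IH =>
    rw [hM k]
    refine (mk_union_le _ _).trans (add_le_of_le hρ' ((mk_union_le _ _).trans
      (add_le_of_le hρ' (hΦ _ (hNc k IH)) ?_)) ?_)
    · exact (le_aleph0_iff_set_countable.2 (hΘc.image _)).trans hρ'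
    · have hsub : {a | ∃ q ∈ Q, q ⊆ Iic k ∧ ∃ L : List Cardinal.{0}, (∀ θ ∈ L, θ ∈ Θ) ∧
          ∃ γ < ρ.ord, a = Hx (q, L.map (fun θ => indicator q (df M θ)), γ)} ⊆
          range fun p : Q × {L : List Cardinal.{0} | ∀ θ ∈ L, θ ∈ Θ} × Iio ρ.ord =>
            Hx (p.1.1, p.2.1.1.map (fun θ => indicator p.1.1 (df M θ)), p.2.2.1) := by
        rintro a ⟨q, hq, -, L, hL, γ, hγ, rfl⟩
        exact ⟨(⟨q, hq⟩, ⟨L, hL⟩, ⟨γ, hγ⟩), rfl⟩
      refine (mk_le_mk_of_subset hsub).trans (mk_range_le.trans ?_)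
      have hL : #{L : List Cardinal.{0} | ∀ θ ∈ L, θ ∈ Θ} ≤ Cardinal.lift.{1} ρ := by
        refine le_trans (le_aleph0_iff_set_countable.2 ?_) hρ'
        have := hΘc.to_subtype
        refine (countable_range fun L : List Θ => L.map Subtype.val).mono fun L hL => ?_
        exact ⟨L.attachWith _ hL, by simp⟩
      simp only [mk_prod, lift_id, lift_uzero, mk_Iio_ordinal, card_ord]
      calc _ ≤ Cardinal.lift.{1} ρ * (Cardinal.lift.{1} ρ * Cardinal.lift.{1} ρ) :=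
            mul_le_mul' (lift_le.2 (hQ1.trans hρ)) (mul_le_mul' hL le_rfl)
        _ = _ := by rw [mul_eq_self hρ', mul_eq_self hρ']
  have hN : ∀ k, #(Nf M k) ≤ Cardinal.lift.{1} ρ := fun k => hNc k fun j _ => hMc j
  have hdlt : ∀ θ ∈ Θ, ∀ i, df M θ i < θ.ord := by
    intro θ hθ i
    obtain ⟨β, hβ, h⟩ := exists_bound (hΘ θ hθ).1 (s := Nf M i ∩ Iio θ.ord)
      (((mk_le_mk_of_subset inter_subset_left).trans (hN i)).trans_lt (lift_lt.2 (hΘ θ hθ).2.1))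
      (fun a ha => ha.2)
    exact (df_le fun a ha ha' => h a ⟨ha, ha'⟩).trans_lt hβ
  have hdM : ∀ θ ∈ Θ, ∀ i, df M θ i ∈ M i := by
    intro θ hθ i
    rw [hM i]
    exact Or.inl (Or.inr ⟨θ, hθ, rfl⟩)
  have hnorm : ∀ θ ∈ Θ, IsNormal (df M θ) := by
    intro θ hθ
    rw [isNormal_iff]
    refine ⟨fun k i hki => lt_df ⟨k, hki, hdM θ hθ k⟩ (hdlt θ hθ k), fun i hi a ha => ?_⟩
    refine df_le ?_
    rintro b ⟨k, hk, hb⟩ hb'
    obtain ⟨k', hk1, hk2⟩ := hi.isSuccPrelimit.lt_iff_exists_lt.1 hk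
    exact (lt_df ⟨k, hk2, hb⟩ hb').trans_le (ha k' hk1)
  have hclub : ∀ θ : Θ, ∃ ε < κ.ord, ∃ D : Set S3, IsClub D ∧ ∀ i ∈ D, df M θ.1 i = e ε i := by
    rintro ⟨θ, hθ⟩
    obtain ⟨β, hβ, h⟩ := exists_bound (hΘ θ hθ).1 (s := range (df M θ)) (by
        have h1 := mk_range_le_lift (f := df M θ)
        rw [lift_uzero, mk_S3] at h1
        exact h1.trans_lt (lift_lt.2 (hρ.trans_lt (hΘ θ hθ).2.1)))
      (by rintro _ ⟨i, rfl⟩; exact hdlt θ hθ i)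
    obtain ⟨ε, hε⟩ := exists_isLUB (s := range (df M θ)) ⟨β, fun a ha => (h a ha).le⟩
    have hex : ∃ f : S3 → Ordinal.{0}, IsNormal f ∧ IsLUB (range f) ε := ⟨_, hnorm θ hθ, hε⟩
    refine ⟨ε, ((hε.2 fun a ha => (h a ha).le).trans_lt hβ).trans_le
      (ord_le_ord.2 (hΘ θ hθ).2.2), ?_⟩
    exact exists_club_eq hS0 (hnorm θ hθ) (he1 ε hex) hε (he2 ε hex)
  choose ε hε D hD1 hD2 using hclub
  have := hΘc.to_subtype
  obtain ⟨C, hC1, hC2, hC3⟩ := hQ3 (⋂ θ, D θ) (IsClub.iInter_of_countable (cof_ne_aleph0 hS0) hD1)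
  have hnext : ∀ i ∈ C, ∃ j ∈ C, i < j := by
    intro i hi
    obtain ⟨j, hj, h⟩ := hC2 {i} (singleton_subset_iff.2 hi) (countable_singleton _)
    exact ⟨j, hj, h i rfl⟩
  have hMN : ∀ i ∈ C, M i ⊆ {a | ∃ i ∈ C, a ∈ Nf M i} := by
    intro i hi a ha
    obtain ⟨j, hj, hij⟩ := hnext i hi
    exact ⟨j, hj, i, hij, ha⟩
  refine ⟨C, df M, {a | ∃ i ∈ C, a ∈ Nf M i}, hC2, hC3, fun θ hθ => ⟨ε ⟨θ, hθ⟩, hε _, fun i hi => ?_⟩,
    fun θ hθ i hi => ⟨hMN i hi (hdM θ hθ i), hdlt θ hθ i⟩, ?_, fun s hs hsc => ?_, ?_⟩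
  · exact hD2 ⟨θ, hθ⟩ i (mem_iInter.1 (hC1 hi) _)
  · rintro θ - a ⟨i, hi, ha⟩ ha'
    exact ⟨i, hi, lt_df ha ha'⟩
  · have := hsc.to_subtype
    choose g hg1 hg2 using fun a : s => hs a.2
    obtain ⟨i, hi, h⟩ := hC2 (range g) (by rintro _ ⟨a, rfl⟩; exact hg1 a) (countable_range g)
    refine ⟨Nf M i, fun a ha => Nf_mono M (h _ ⟨⟨a, ha⟩, rfl⟩).le (hg2 ⟨a, ha⟩), hN i, ?_⟩
    refine subset_trans ?_ (hMN i hi)
    rw [hM i]
    exact fun a ha => Or.inl (Or.inl ha)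
  · intro i hi L hL γ hγ
    refine hMN i hi ?_
    rw [hM i]
    exact Or.inr ⟨_, hC3 i hi, fun k hk => mem_Iic.2 (mem_Iio.1 hk.2).le, L, hL, γ, hγ, rfl⟩

end Pool.Agent.Work.MP_d02fb9_lc
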