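import Pool.Agent.Work.MP_d02fb9_lc.Topo
import Pool.Agent.Work.MP_d02fb9_lc.Guess
import Mathlib.Data.List.Forall2

namespace Pool.Agent.Work.MP_d02fb9_lc

open Cardinal Set Order Pool.Agent.Lib.ClubGuess

/-- There is a cofinal family of at most `ρ` countable subsets of `ρ`. -/
def Cov (ρ : Cardinal.{0}) : Prop :=
  ∃ U : Ordinal.{0} → Set Ordinal.{0}, (∀ γ, (U γ).Countable) ∧ (∀ γ, U γ ⊆ Iio ρ.ord) ∧
    ∀ s ⊆ Iio ρ.ord, s.Countable → ∃ γ < ρ.ord, s ⊆ U γ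

lemma countable_lists {α : Type*} {Z : Set α} (hZ : Z.Countable) :
    {b : List α | ∀ a ∈ b, a ∈ Z}.Countable := by
  have := hZ.to_subtype
  refine (countable_range fun L : List Z => L.map Subtype.val).mono fun L hL => ?_
  exact ⟨L.attachWith _ hL, by simp⟩

lemma forall₂_mem_left {α β : Type*} {R : α → β → Prop} {b : List α} {s : List β}
    (h : List.Forall₂ R b s) : ∀ a ∈ b, ∃ f ∈ s, R a f := by
  induction h with
  | nil => simp
  | cons h1 _ ih =>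
    intro a ha
    rcases List.mem_cons.1 ha with rfl | ha
    · exact ⟨_, List.mem_cons_self, h1⟩
    · obtain ⟨f, hf, h⟩ := ih a ha
      exact ⟨f, List.mem_cons_of_mem _ hf, h⟩

theorem mk_lt_of_descent {ρ κ : Cardinal.{0}} (hρ : ℵ_ 3 ≤ ρ) (hρκ : ρ ≤ κ) (hcov : Cov ρ)
    {Θ : Set Cardinal.{0}} (hΘc : Θ.Countable) (hΘ : ∀ θ ∈ Θ, θ.IsRegular ∧ ρ < θ ∧ θ ≤ κ)
    (hh : Ordinal.{0} → ℕ → ℕ) (hdom : ∀ g, ∃ a < κ.ord, Dom g (hh a))
    (E : Ordinal.{0} → Ordinal.{0} → Ordinal.{0}) (Φ : Set Ordinal.{0} → Set Ordinal.{0})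
    (hΦ : ∀ X : Set Ordinal.{0}, #X ≤ Cardinal.lift.{1} ρ → #(Φ X) ≤ Cardinal.lift.{1} ρ)
    (hdesc : ∀ (C : Set S3) (δ : Cardinal.{0} → S3 → Ordinal.{0}) (N : Set Ordinal.{0}),
      (∀ θ ∈ Θ, ∀ i ∈ C, δ θ i ∈ N ∧ δ θ i < θ.ord) →
      (∀ θ ∈ Θ, ∀ a ∈ N, a < θ.ord → ∃ i ∈ C, a < δ θ i) →
      (∀ s ⊆ N, s.Countable → ∃ X : Set Ordinal.{0}, s ⊆ X ∧ #X ≤ Cardinal.lift.{1} ρ ∧
        Φ X ⊆ N) →
      ∃ L : List Cardinal.{0}, (∀ θ ∈ L, θ ∈ Θ) ∧ ∀ a ∈ N, a < κ.ord →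
        ∃ (b : List Ordinal.{0}) (g : Ordinal.{0}),
          List.Forall₂ (fun β θ => ∃ i ∈ C, β = δ θ i) b L ∧ g < ρ.ord ∧
            Dom (hh a) (hh (b.foldr E g)))
    {X : Type} [TopologicalSpace X] [T3Space X] (hX : StronglyStarMenger X) {D : Set X}
    (hD : IsClosed D) [DiscreteTopology D] : #D < κ := by
  classical
  have hρ0 : ℵ₀ ≤ ρ := (aleph0_le_aleph 3).trans hρ
  have hκ0 : ℵ₀ ≤ κ := hρ0.trans hρκ
  have hκ' : ℵ₀ ≤ Cardinal.lift.{1} κ := by simpa using hκ0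
  obtain ⟨U, hU1, hU2, hU3⟩ := hcov
  obtain ⟨Q, e, hQ1, hQ2, hguess⟩ := guess hρ hΘc hΘ
  let I : Set (Set S3 × List (S3 → Ordinal.{0}) × Ordinal.{0}) :=
    {t | t.1 ∈ Q ∧ t.2.2 < ρ.ord ∧ ∀ f ∈ t.2.1, ∃ ε < κ.ord, f = indicator t.1 (e ε)}
  let x : I → Set (ℕ → ℕ) := fun t => hh '' {a | ∃ (b : List Ordinal.{0}) (g : Ordinal.{0}),
    List.Forall₂ (fun β f => ∃ i ∈ t.1.1, β = f i) b t.1.2.1 ∧ g ∈ U t.1.2.2 ∧ a = b.foldr E g}
  let pred : I → Set I := fun t => {t' | ∃ i ∈ t.1.1, t'.1.1 = t.1.1 ∩ Iio i ∧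
    t'.1.2.1 = t.1.2.1.map (indicator (t.1.1 ∩ Iio i)) ∧ t'.1.2.2 ∈ U t.1.2.2}
  refine mk_lt_of_core hκ0 (ι := I) ?_ x pred ?_ ?_ ?_ ?_ hX hD
  · have hsub : I ⊆ range fun p : Q × List (Iio κ.ord) × Iio ρ.ord =>
        (p.1.1, p.2.1.map (fun ε => indicator p.1.1 (e ε.1)), p.2.2.1) := by
      rintro ⟨q, s, γ⟩ ⟨h1, h2, h3⟩
      have : ∃ l : List (Iio κ.ord), l.map (fun ε => indicator q (e ε.1)) = s := by
        simp only at h3
        clear h1 h2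
        induction s with
        | nil => exact ⟨[], rfl⟩
        | cons f s ih =>
          obtain ⟨l, hl⟩ := ih (fun f hf => h3 f (List.mem_cons_of_mem _ hf))
          obtain ⟨ε, hε, rfl⟩ := h3 f List.mem_cons_self
          exact ⟨⟨ε, hε⟩ :: l, by simp [hl]⟩
      obtain ⟨l, rfl⟩ := this
      exact ⟨(⟨q, h1⟩, l, ⟨γ, h2⟩), rfl⟩
    refine (mk_le_mk_of_subset hsub).trans (mk_range_le.trans ?_)
    have hL : #(List (Iio κ.ord)) ≤ Cardinal.lift.{1} κ := by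
      refine (mk_list_le_max _).trans (max_le hκ' ?_)
      rw [mk_Iio_ordinal, card_ord]
    simp only [mk_prod, lift_id, lift_uzero, mk_Iio_ordinal, card_ord]
    calc _ ≤ Cardinal.lift.{1} κ * (Cardinal.lift.{1} κ * Cardinal.lift.{1} κ) :=
          mul_le_mul' (lift_le.2 (hQ1.trans (hρ.trans hρκ))) (mul_le_mul' hL (lift_le.2 hρκ))
      _ = _ := by rw [mul_eq_self hκ', mul_eq_self hκ']
  · rintro ⟨⟨q, s, γ⟩, h1, h2, h3⟩
    refine Countable.image ?_ _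
    have hZ : (⋃ f ∈ {f | f ∈ s}, f '' q).Countable :=
      (List.finite_toSet s).countable.biUnion fun f _ => (hQ2 q h1).image f
    refine (((countable_lists hZ).prod (hU1 γ)).image fun p => p.1.foldr E p.2).mono ?_
    rintro _ ⟨b, g, hb, hg, rfl⟩
    refine ⟨(b, g), ⟨fun a ha => ?_, hg⟩, rfl⟩
    obtain ⟨f, hf, i, hi, rfl⟩ := forall₂_mem_left hb a ha
    exact mem_biUnion (t := fun f => f '' q) hf ⟨i, hi, rfl⟩
  · rintro ⟨⟨q, s, γ⟩, h1, h2, h3⟩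
    have hc : ((fun p : S3 × Ordinal.{0} =>
        (q ∩ Iio p.1, s.map (indicator (q ∩ Iio p.1)), p.2)) '' (q ×ˢ U γ)).Countable :=
      ((hQ2 q h1).prod (hU1 γ)).image _
    refine (hc.preimage Subtype.val_injective).mono ?_
    rintro ⟨⟨q', s', γ'⟩, h'⟩ ⟨i, hi, e1, e2, e3⟩
    simp only at e1 e2 e3
    subst e1 e2
    exact ⟨(i, γ'), ⟨hi, e3⟩, rfl⟩
  · rintro t ⟨i, hi, e1, -⟩
    rw [e1] at hi
    exact lt_irrefl _ (mem_Iio.1 hi.2)
  · intro H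
    choose idx hidx1 hidx2 using hdom
    obtain ⟨C, δ, N, hC1, hC2, hC3, hN1, hN2, hN3, hN4⟩ := hguess Φ hΦ
      (fun t => if h : t ∈ I then idx (H ⟨t, h⟩) else 0)
    obtain ⟨L, hL, hdL⟩ := hdesc C δ N hN1 hN2 hN3
    let node : S3 → Ordinal.{0} → Set S3 × List (S3 → Ordinal.{0}) × Ordinal.{0} :=
      fun i γ => (C ∩ Iio i, L.map (fun θ => indicator (C ∩ Iio i) (δ θ)), γ)
    have hnode : ∀ i ∈ C, ∀ γ < ρ.ord, node i γ ∈ I := by
      intro i hi γ hγ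
      refine ⟨hC2 i hi, hγ, fun f hf => ?_⟩
      obtain ⟨θ, hθ, rfl⟩ := List.mem_map.1 hf
      obtain ⟨ε, hε, h⟩ := hC3 θ (hL θ hθ)
      exact ⟨ε, hε, indicator_congr fun j hj => h j hj.1⟩
    have hint : ∀ i j : S3, j < i → (C ∩ Iio i) ∩ Iio j = C ∩ Iio j := by
      intro i j hj
      ext k
      exact ⟨fun h => ⟨h.1.1, h.2⟩, fun h => ⟨⟨h.1, (mem_Iio.1 h.2).trans hj⟩, h.2⟩⟩
    have hmap : ∀ i j : S3, j < i →
        (L.map (fun θ => indicator (C ∩ Iio i) (δ θ))).map (indicator (C ∩ Iio j)) =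
          L.map (fun θ => indicator (C ∩ Iio j) (δ θ)) := by
      intro i j hj
      rw [List.map_map]
      refine List.map_congr_left fun θ _ => ?_
      simp only [Function.comp]
      rw [indicator_indicator, inter_comm, ← inter_assoc, inter_right_comm (C ∩ Iio i), hint i j hj,
        inter_right_comm, inter_self]
    have hpred : ∀ (t t' : I) i γ, t.1 = node i γ →
        (t' ∈ pred t ↔ ∃ j ∈ C, j < i ∧ ∃ γ' ∈ U γ, t'.1 = node j γ') := by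
      rintro ⟨t, ht⟩ ⟨⟨q', s', γ'⟩, ht'⟩ i γ rfl
      constructor
      · rintro ⟨j, hj, e1, e2, e3⟩
        simp only [node] at e1 e2 e3 hj
        rw [hint i j hj.2] at e1 e2
        rw [hmap i j hj.2] at e2
        subst e1 e2
        exact ⟨j, hj.1, hj.2, γ', e3, rfl⟩
      · rintro ⟨j, hj, hji, γ'', hγ, e⟩
        simp only [node, Prod.mk.injEq] at e
        obtain ⟨rfl, rfl, rfl⟩ := e
        refine ⟨j, ⟨hj, hji⟩, (hint i j hji).symm, ?_, hγ⟩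
        simp only [node]
        rw [hint i j hji, hmap i j hji]
    have hxx : ∀ (t : I) i γ, t.1 = node i γ → ∀ h, (h ∈ x t ↔ ∃ b g,
        List.Forall₂ (fun β θ => ∃ j ∈ C, j < i ∧ β = δ θ j) b L ∧ g ∈ U γ ∧
          h = hh (b.foldr E g)) := by
      rintro ⟨t, ht⟩ i γ rfl h
      have key : ∀ b : List Ordinal.{0},
          List.Forall₂ (fun β f => ∃ j ∈ C ∩ Iio i, β = f j) b
            (L.map (fun θ => indicator (C ∩ Iio i) (δ θ))) ↔
          List.Forall₂ (fun β θ => ∃ j ∈ C, j < i ∧ β = δ θ j) b L := by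
        intro b
        rw [List.forall₂_map_right_iff]
        constructor
        · refine List.Forall₂.imp ?_
          rintro β θ ⟨j, hj, rfl⟩
          exact ⟨j, hj.1, hj.2, indicator_of_mem hj _⟩
        · refine List.Forall₂.imp ?_
          rintro β θ ⟨j, hj, hji, rfl⟩
          exact ⟨j, ⟨hj, hji⟩, (indicator_of_mem (s := C ∩ Iio i) ⟨hj, hji⟩ _).symm⟩
      constructor
      · rintro ⟨_, ⟨b, g, hb, hg, rfl⟩, rfl⟩
        exact ⟨b, g, (key b).1 hb, hg, rfl⟩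
      · rintro ⟨b, g, hb, hg, rfl⟩
        exact ⟨_, ⟨b, g, (key b).2 hb, hg, rfl⟩, rfl⟩
    have hmono : ∀ (t t' : I) i γ i' γ', t.1 = node i γ → t'.1 = node i' γ' → i ≤ i' →
        U γ ⊆ U γ' → pred t ⊆ pred t' ∧ x t ⊆ x t' := by
      intro t t' i γ i' γ' ht ht' hi hγ
      constructor
      · intro t'' h
        obtain ⟨j, hj, hji, γ'', hγ'', e⟩ := (hpred t t'' i γ ht).1 h
        exact (hpred t' t'' i' γ' ht').2 ⟨j, hj, hji.trans_le hi, γ'', hγ hγ'', e⟩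
      · intro h hmem
        obtain ⟨b, g, hb, hg, e⟩ := (hxx t i γ ht h).1 hmem
        refine (hxx t' i' γ' ht' h).2 ⟨b, g, hb.imp ?_, hγ hg, e⟩
        rintro β θ ⟨j, hj, hji, e⟩
        exact ⟨j, hj, hji.trans_le hi, e⟩
    refine ⟨{t | ∃ i ∈ C, ∃ γ < ρ.ord, t.1 = node i γ}, fun s hs hsc => ?_, ?_⟩
    · have := hsc.to_subtype
      choose i hi γ hγ ht using fun t : s => hs t.2
      obtain ⟨i', hi', h1⟩ := hC1 (range i) (by rintro _ ⟨t, rfl⟩; exact hi t) (countable_range i)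
      obtain ⟨γ', hγ', h2⟩ := hU3 (⋃ t, U (γ t)) (iUnion_subset fun t => hU2 _)
        (countable_iUnion fun t => hU1 _)
      refine ⟨⟨_, hnode i' hi' γ' hγ'⟩, ⟨i', hi', γ', hγ', rfl⟩, fun t ht' => ?_⟩
      exact hmono t _ _ _ i' γ' (ht ⟨t, ht'⟩) rfl (h1 _ ⟨_, rfl⟩).le
        ((subset_iUnion (fun t => U (γ t)) _).trans h2)
    · rintro t ⟨i, hi, γ, hγ, ht⟩
      have h1 := hN4 i hi L hL γ hγ
      have h2 : (fun t => if h : t ∈ I then idx (H ⟨t, h⟩) else 0) (node i γ) = idx (H t) := by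
        simp only [← ht]
        rw [dif_pos t.2]
      have h3 : idx (H t) ∈ N := h2 ▸ h1
      obtain ⟨b, g, hb, hg, hd⟩ := hdL _ h3 (hidx1 _)
      have h4 : ∃ i' ∈ C, i < i' ∧
          List.Forall₂ (fun β θ => ∃ j ∈ C, j < i' ∧ β = δ θ j) b L := by
        clear hd
        generalize L = L' at hb
        induction hb with
        | nil =>
          obtain ⟨j, hj, h⟩ := hC1 {i} (singleton_subset_iff.2 hi) (countable_singleton _)
          exact ⟨j, hj, h i rfl, List.Forall₂.nil⟩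
        | cons hhead _ ih =>
          obtain ⟨i', hi', hii', h⟩ := ih
          obtain ⟨j, hj, e⟩ := hhead
          obtain ⟨k, hk, h'⟩ := hC1 {i', j} (pair_subset hi' hj) (to_countable _)
          refine ⟨k, hk, hii'.trans (h' i' (by simp)),
            List.Forall₂.cons ⟨j, hj, h' j (by simp), e⟩ (h.imp ?_)⟩
          rintro β θ ⟨l, hl, hli, e⟩
          exact ⟨l, hl, hli.trans (h' i' (by simp)), e⟩
      obtain ⟨i', hi', hii', hb'⟩ := h4
      obtain ⟨γ', hγ', h5⟩ := hU3 (U γ ∪ {γ, g}) (union_subset (hU2 γ) (pair_subset hγ hg))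
        ((hU1 γ).union (to_countable _))
      have hm := hmono t ⟨_, hnode i' hi' γ' hγ'⟩ i γ i' γ' ht rfl hii'.le
        (subset_union_left.trans h5)
      refine ⟨⟨_, hnode i' hi' γ' hγ'⟩, ⟨i', hi', γ', hγ', rfl⟩, hm.1, hm.2, ?_,
        hh (b.foldr E g), ?_, (hidx2 _).trans hd⟩
      · exact (hpred _ t i' γ' rfl).2 ⟨i, hi, hii', γ, h5 (by simp), ht⟩
      · exact (hxx _ i' γ' rfl _).2 ⟨b, g, hb', h5 (by simp), rfl⟩

/-- The bound at an uncountable fixed point. -/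
theorem mk_lt_of_cov {κ : Cardinal.{0}} (hκ : ℵ₀ < κ) (hcov : Cov κ)
    (hh : Ordinal.{0} → ℕ → ℕ) (hdom : ∀ g, ∃ a < κ.ord, Dom g (hh a))
    {X : Type} [TopologicalSpace X] [T3Space X] (hX : StronglyStarMenger X) {D : Set X}
    (hD : IsClosed D) [DiscreteTopology D] : #D < κ := by
  obtain ⟨U, hU1, hU2, hU3⟩ := hcov
  let T := (ℵ_ 1 : Cardinal.{0}).ord.ToType
  have : IsRegularCardinalOrder T := isRegularCardinalOrder_toType isRegular_aleph_one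
  have hT : #T = ℵ_ 1 := mk_ord_toType _
  have hT0 : ℵ₀ < #T := hT ▸ aleph0_lt_aleph_one
  have hκ' : ℵ₀ ≤ Cardinal.lift.{1} κ := by simpa using hκ.le
  refine mk_lt_of_core hκ.le (ι := Iio κ.ord × T) ?_ (fun t => hh '' U t.1.1)
    (fun t => {t' | t'.1.1 ∈ U t.1.1 ∧ t'.2 < t.2}) (fun t => (hU1 _).image _) ?_
    (fun t h => lt_irrefl _ h.2) ?_ hX hD
  · simp only [mk_prod, lift_uzero, mk_Iio_ordinal, card_ord, hT]
    refine (mul_le_mul' le_rfl (lift_le.2 ?_)).trans (mul_eq_self hκ').le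
    rw [← succ_aleph0]
    exact succ_le_of_lt hκ
  · intro t
    have hc : (Iio t.2).Countable := by
      rw [← le_aleph0_iff_set_countable, ← lt_succ_iff, succ_aleph0]
      exact (mk_Iio_lt' t.2).trans_eq hT
    exact (((hU1 t.1.1).preimage Subtype.val_injective).prod hc).mono fun t' h => h
  · intro H
    refine ⟨univ, fun s _ hsc => ?_, fun t _ => ?_⟩
    · obtain ⟨γ, hγ, h1⟩ := hU3 (⋃ t ∈ s, U t.1.1) (iUnion₂_subset fun t _ => hU2 _)
        (hsc.biUnion fun t _ => hU1 _)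
      obtain ⟨i, hi⟩ := exists_gt_of_countable hT0 (hsc.image Prod.snd)
      refine ⟨(⟨γ, hγ⟩, i), trivial, fun t ht => ?_⟩
      have h2 : U t.1.1 ⊆ U γ := (subset_biUnion_of_mem (u := fun t : Iio κ.ord × T => U t.1.1) ht).trans h1
      exact ⟨fun t' h => ⟨h2 h.1, h.2.trans (hi _ ⟨t, ht, rfl⟩)⟩, image_mono h2⟩
    · obtain ⟨a, ha, hd⟩ := hdom (H t)
      obtain ⟨γ, hγ, h1⟩ := hU3 (U t.1.1 ∪ {t.1.1, a}) (union_subset (hU2 _) (pair_subset t.1.2 ha))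
        ((hU1 _).union (to_countable _))
      obtain ⟨i, hi⟩ := exists_gt' hT0.le t.2
      have h2 : U t.1.1 ⊆ U γ := subset_union_left.trans h1
      exact ⟨(⟨γ, hγ⟩, i), trivial, fun t' h => ⟨h2 h.1, h.2.trans hi⟩, image_mono h2,
        ⟨h1 (by simp), hi⟩, hh a, ⟨a, h1 (by simp), rfl⟩, hd⟩

end Pool.Agent.Work.MP_d02fb9_lc
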