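import Mathlib.SetTheory.Cardinal.Regular
import Mathlib.Topology.Separation.Regular
import Mathlib.Order.Filter.AtTopBot.Basic

/-!
Strongly star-Menger spaces and the cardinals `𝔟`, `𝔡`, `cof([κ]^ℵ₀)`.
-/

namespace Pool.Agent.Work.MP_d02fb9_lc

open Cardinal Filter

/-- For every sequence of open covers there are finite sets `F n` whose stars cover the space. -/
def StronglyStarMenger (X : Type) [TopologicalSpace X] : Prop :=
  ∀ U : ℕ → Set (Set X), (∀ n, ∀ u ∈ U n, IsOpen u) → (∀ n, ⋃₀ U n = Set.univ) →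
    ∃ F : ℕ → Set X, (∀ n, (F n).Finite) ∧
      ∀ x : X, ∃ n, ∃ u ∈ U n, x ∈ u ∧ (u ∩ F n).Nonempty

/-- The dominating number `𝔡`. -/
noncomputable def domNum : Cardinal.{0} :=
  sInf {c | ∃ F : Set (ℕ → ℕ), (∀ g : ℕ → ℕ, ∃ f ∈ F, ∀ᶠ n in atTop, g n ≤ f n) ∧ #F = c}

/-- The bounding number `𝔟`. -/
noncomputable def bddNum : Cardinal.{0} :=
  sInf {c | ∃ F : Set (ℕ → ℕ), (¬ ∃ g : ℕ → ℕ, ∀ f ∈ F, ∀ᶠ n in atTop, f n ≤ g n) ∧ #F = c}

/-- `cof([κ]^ℵ₀)`: the least size of a family of countable subsets of `κ` such that every countable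
subset of `κ` is contained in a member. -/
noncomputable def cofCtble (κ : Cardinal.{0}) : Cardinal.{0} :=
  sInf {c | ∃ G : Set (Set κ.out), (∀ C ∈ G, C.Countable) ∧
    (∀ A : Set κ.out, A.Countable → ∃ C ∈ G, A ⊆ C) ∧ #G = c}

end Pool.Agent.Work.MP_d02fb9_lc
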