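import Pool.Agent.Work.MP_3181e1_lc.Defs
import Pool.Agent.Work.MP_d02fb9_lc.Defs
import Mathlib.SetTheory.Cardinal.Continuum

/-! The cardinals of the problem, and its notions interpreted inside a structure `(M, E)` for the
language of set theory.  Every quantifier of the latter ranges over `M` and the only primitive
relations are `E` and `=`. -/

namespace Pool.Agent.Work.MP_d02fb9_lc
open Pool.Agent.Work.MP_63c7e0_lc Pool.Agent.Work.MP_3181e1_lc

/-- The least cardinal above the sizes of all closed discrete subspaces of regular strongly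
star-Menger spaces. -/
noncomputable def lamNum : Cardinal.{0} :=
  sInf {l | ∀ (X : Type) [TopologicalSpace X] [T3Space X], StronglyStarMenger X →
    ∀ D : Set X, IsClosed D → DiscreteTopology D → Cardinal.mk D < l}

/-- The least fixed point of `κ ↦ cof([κ]^ℵ₀)` in the interval `[𝔡, 𝔠]`. -/
noncomputable def muNum : Cardinal.{0} :=
  sInf {κ | domNum ≤ κ ∧ κ ≤ Cardinal.continuum ∧ cofCtble κ = κ}

universe u
variable {M : Type u} (E : M → M → Prop)

/-- `a` is a von Neumann ordinal: transitive and linearly ordered by membership. -/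
def IsOrd (a : M) : Prop :=
  (∀ x, E x a → Sub E x a) ∧ ∀ x y, E x a → E y a → E x y ∨ x = y ∨ E y x

/-- `𝔡 ≤ |ν|`: some family `(f γ)`, `γ ∈ ν`, of functions from `ω` to `ω` eventually dominates
every function from `ω` to `ω` (on `ω` the order `≤` is inclusion). -/
def DomLe (ν : M) : Prop :=
  ∃ w F f, IsOmega E w ∧ IsFun E f ν F ∧ (∀ h, E h F → IsFun E h w w) ∧
    ∀ g, IsFun E g w w → ∃ γ h, App E f γ h ∧ ∃ k, E k w ∧
      ∀ n a b, Sub E k n → App E g n a → App E h n b → Sub E a b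

/-- `cof([ν]^ℵ₀) ≤ |ν|`: some family `(f γ)`, `γ ∈ ν`, of countable subsets of `ν` has a member
above each countable subset of `ν`. -/
def CofLe (ν : M) : Prop :=
  ∃ F f, IsFun E f ν F ∧ (∀ C, E C F → Sub E C ν ∧ IsCountable E C) ∧
    ∀ A, Sub E A ν → IsCountable E A → ∃ γ C, App E f γ C ∧ Sub E A C

/-- `(X, τ)` is regular and `T₁`. -/
def IsT3 (X τ : M) : Prop :=
  IsT1 E X τ ∧ ∀ x C, E x X → IsClosedIn E X τ C → ¬ E x C →
    ∃ U V, E U τ ∧ E V τ ∧ E x U ∧ Sub E C V ∧ ∀ z, E z U → ¬ E z V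

/-- `c` is an open cover of `(X, τ)`. -/
def IsOpenCover (X τ c : M) : Prop := Sub E c τ ∧ ∀ x, E x X → ∃ U, E U c ∧ E x U

/-- `(X, τ)` is strongly star-Menger. -/
def IsSSM (X τ : M) : Prop :=
  ∀ w R u, IsOmega E w → IsFun E u w R → (∀ n c, App E u n c → IsOpenCover E X τ c) →
    ∃ R' F, IsFun E F w R' ∧ (∀ n a, App E F n a → Sub E a X ∧ IsFin E a) ∧
      ∀ x, E x X → ∃ n c a U z, App E u n c ∧ App E F n a ∧ E U c ∧ E x U ∧ E z U ∧ E z a

/-- `D` is a closed discrete subspace of `(X, τ)`. -/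
def IsClosedDiscrete (X τ D : M) : Prop :=
  IsClosedIn E X τ D ∧ ∀ x, E x D → ∃ U, E U τ ∧ ∀ z, (E z U ∧ E z D) ↔ z = x

/-- `λ ≤ |θ|`: the set `θ` injects into no closed discrete subspace of a regular strongly
star-Menger space. -/
def LamLe (θ : M) : Prop :=
  ∀ X τ D, IsTop E X τ → IsT3 E X τ → IsSSM E X τ → IsClosedDiscrete E X τ D →
    ¬ ∃ f, IsInj E f θ D

end Pool.Agent.Work.MP_d02fb9_lc
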