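import Pool.Agent.Work.MP_d02fb9_lc.Core

namespace Pool.Agent.Work.MP_d02fb9_lc

open Cardinal Set Order Filter Pool.Agent.Lib.ClubGuess

universe u

lemma exists_enum {α : Type u} [Nonempty α] {κ : Cardinal.{0}} (F : Set α)
    (hF : Cardinal.lift.{1} #F ≤ Cardinal.lift.{max u 1} κ) :
    ∃ f : Ordinal.{0} → α, ∀ a ∈ F, ∃ γ < κ.ord, f γ = a := by
  have h : Cardinal.lift.{1} #F ≤ Cardinal.lift.{u} #(Iio κ.ord) := by
    rwa [mk_Iio_ordinal, card_ord, lift_lift]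
  obtain ⟨e⟩ := lift_mk_le'.1 h
  have hi : Function.Injective fun a : F => (e a).1 := Subtype.val_injective.comp e.injective
  refine ⟨Function.extend (fun a : F => (e a).1) Subtype.val (fun _ => Classical.arbitrary α),
    fun a ha => ⟨(e ⟨a, ha⟩).1, (e ⟨a, ha⟩).2, hi.extend_apply _ _ ⟨a, ha⟩⟩⟩

lemma exists_enum_ord : ∃ E G : Ordinal.{0} → Ordinal.{0} → Ordinal.{0},
    ∀ β, ∀ a < β, G β a < β.card.ord ∧ E β (G β a) = a := by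
  have h : ∀ β : Ordinal.{0}, ∃ f : Ordinal.{0} → Ordinal.{0}, ∀ a ∈ Iio β,
      ∃ γ < β.card.ord, f γ = a := fun β =>
    exists_enum (Iio β) (by rw [mk_Iio_ordinal, lift_lift])
  choose E hE using h
  choose! G hG1 hG2 using hE
  exact ⟨E, G, fun β a ha => ⟨hG1 β a ha, hG2 β a ha⟩⟩

/-- Variant of `Cov` with a set of sets. -/
def Cov' (ρ : Cardinal.{0}) : Prop :=
  ∃ G : Set (Set Ordinal.{0}), #G ≤ Cardinal.lift.{1} ρ ∧ (∀ u ∈ G, u.Countable) ∧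
    ∀ s ⊆ Iio ρ.ord, s.Countable → ∃ u ∈ G, s ⊆ u

lemma Cov'.cov {ρ : Cardinal.{0}} (h : Cov' ρ) : Cov ρ := by
  obtain ⟨G, h1, h2, h3⟩ := h
  obtain ⟨f, hf⟩ := exists_enum (κ := ρ) G (by simpa using h1)
  refine ⟨fun γ => {β | f γ ∈ G ∧ β ∈ f γ ∧ β < ρ.ord}, fun γ => ?_, fun γ β h => h.2.2,
    fun s hs hsc => ?_⟩
  · by_cases h : f γ ∈ G
    · exact (h2 _ h).mono fun β hβ => hβ.2.1
    · exact countable_empty.mono fun β hβ => h hβ.1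
  · obtain ⟨u, hu, hsu⟩ := h3 s hs hsc
    obtain ⟨γ, hγ, rfl⟩ := hf u hu
    exact ⟨γ, hγ, fun β hβ => ⟨hu, hsu hβ, hs hβ⟩⟩

lemma cov'_of_cofCtble {ρ : Cardinal.{0}} (h : cofCtble ρ ≤ ρ) : Cov' ρ := by
  obtain ⟨G, h1, h2, h3⟩ := csInf_mem (s := {c | ∃ G : Set (Set ρ.out), (∀ C ∈ G, C.Countable) ∧
    (∀ A : Set ρ.out, A.Countable → ∃ C ∈ G, A ⊆ C) ∧ #G = c})
    ⟨_, {C | C.Countable}, fun _ h => h, fun A hA => ⟨A, hA, subset_rfl⟩, rfl⟩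
  have hG : #G ≤ ρ := h3.le.trans h
  obtain ⟨j⟩ : Nonempty (ρ.out ≃ Iio ρ.ord) := by
    rw [← lift_mk_eq', mk_out, mk_Iio_ordinal, card_ord, lift_lift]
  refine ⟨(fun C => (fun a => (j a).1) '' C) '' G, ?_, ?_, fun s hs hsc => ?_⟩
  · have := mk_image_le_lift (f := fun C : Set ρ.out => (fun a => (j a).1) '' C) (s := G)
    rw [lift_uzero] at this
    exact this.trans (lift_le.2 hG)
  · rintro _ ⟨C, hC, rfl⟩
    exact (h1 C hC).image _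
  · obtain ⟨C, hC, hsub⟩ := h2 ((fun a => (j a).1) ⁻¹' s)
      (hsc.preimage (Subtype.val_injective.comp j.injective))
    refine ⟨_, ⟨C, hC, rfl⟩, fun β hβ => ⟨j.symm ⟨β, hs hβ⟩, hsub ?_, by simp⟩⟩
    simpa using hβ

lemma cov'_aleph0 : Cov' ℵ₀ := by
  refine ⟨{Iio (ℵ₀ : Cardinal.{0}).ord}, by simp, ?_, fun s hs _ => ⟨_, rfl, hs⟩⟩
  rintro _ rfl
  rw [← le_aleph0_iff_set_countable, mk_Iio_ordinal, card_ord, lift_aleph0]

lemma Cov'.of_succ {ν : Cardinal.{0}} (hν : ℵ₀ ≤ ν) (h : Cov' ν) : Cov' (succ ν) := by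
  obtain ⟨G, h1, h2, h3⟩ := h
  obtain ⟨E, Gi, hE⟩ := exists_enum_ord
  have hν' : ℵ₀ ≤ Cardinal.lift.{1} (succ ν) := aleph0_le_lift.2 (hν.trans (le_succ ν))
  refine ⟨range fun p : Iio (succ ν).ord × G => E p.1.1 '' p.2.1, mk_range_le.trans ?_, ?_,
    fun s hs hsc => ?_⟩
  · simp only [mk_prod, lift_id, mk_Iio_ordinal, card_ord]
    exact (mul_le_mul' le_rfl (h1.trans (lift_le.2 (le_succ ν)))).trans (mul_eq_self hν').le
  · rintro _ ⟨p, rfl⟩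
    exact (h2 _ p.2.2).image _
  · obtain ⟨β, hβ, hb⟩ := exists_bound (isRegular_succ hν) (s := s)
      ((le_aleph0_iff_set_countable.2 hsc).trans_lt (by simpa using hν.trans_lt (lt_succ ν))) hs
    have hc : β.card ≤ ν := lt_succ_iff.1 (lt_ord.1 hβ)
    obtain ⟨u, hu, hsu⟩ := h3 (Gi β '' s) (by
      rintro _ ⟨a, ha, rfl⟩
      exact (hE β a (hb a ha)).1.trans_le (ord_le_ord.2 hc)) (hsc.image _)
    exact ⟨_, ⟨(⟨β, hβ⟩, ⟨u, hu⟩), rfl⟩, fun a ha => ⟨Gi β a, hsu ⟨a, ha, rfl⟩, (hE β a (hb a ha)).2⟩⟩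

lemma cov'_of_le_aleph_three {c : Cardinal.{0}} (h0 : ℵ₀ ≤ c) (h3 : c ≤ ℵ_ 3) : Cov' c := by
  have e1 : (ℵ_ 1 : Cardinal.{0}) = succ ℵ₀ := succ_aleph0.symm
  have e2 : (ℵ_ 2 : Cardinal.{0}) = succ (ℵ_ 1) := by
    rw [succ_aleph, one_add_one_eq_two]
  have e3 : (ℵ_ 3 : Cardinal.{0}) = succ (ℵ_ 2) := by
    rw [succ_aleph, two_add_one_eq_three]
  have c1 : Cov' (ℵ_ 1) := e1 ▸ cov'_aleph0.of_succ le_rfl
  have c2 : Cov' (ℵ_ 2) := e2 ▸ c1.of_succ (aleph0_le_aleph 1)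
  have c3 : Cov' (ℵ_ 3) := e3 ▸ c2.of_succ (aleph0_le_aleph 2)
  rw [e3, le_succ_iff_eq_or_le, ← e3] at h3
  rcases h3 with rfl | h3
  · exact c3
  rw [e2, le_succ_iff_eq_or_le, ← e2] at h3
  rcases h3 with rfl | h3
  · exact c2
  rw [e1, le_succ_iff_eq_or_le, ← e1] at h3
  rcases h3 with rfl | h3
  · exact c1
  rw [h3.antisymm h0]
  exact cov'_aleph0

lemma exists_dominating : ∃ F : Set (ℕ → ℕ), (∀ g, ∃ f ∈ F, Dom g f) ∧ #F = domNum :=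
  csInf_mem (s := {c | ∃ F : Set (ℕ → ℕ), (∀ g : ℕ → ℕ, ∃ f ∈ F, ∀ᶠ n in atTop, g n ≤ f n) ∧
    #F = c}) ⟨_, univ, fun g => ⟨g, trivial, Dom.refl g⟩, rfl⟩

lemma domNum_le {F : Set (ℕ → ℕ)} (h : ∀ g, ∃ f ∈ F, Dom g f) : domNum ≤ #F :=
  csInf_le' ⟨F, h, rfl⟩

lemma aleph0_lt_domNum : ℵ₀ < domNum := by
  obtain ⟨F, hF, hc⟩ := exists_dominating
  by_contra! h
  obtain ⟨g, hg⟩ := exists_dom_of_countable (le_aleph0_iff_set_countable.1 (hc.le.trans h))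
  obtain ⟨f, hf, h1⟩ := hF fun n => g n + 1
  obtain ⟨n, hn⟩ := (h1.trans (hg f hf)).exists
  exact absurd hn (by simp)

lemma exists_hh {κ : Cardinal.{0}} (h : domNum ≤ κ) :
    ∃ hh : Ordinal.{0} → ℕ → ℕ, ∀ g, ∃ a < κ.ord, Dom g (hh a) := by
  obtain ⟨F, hF, hc⟩ := exists_dominating
  obtain ⟨f, hf⟩ := exists_enum (κ := κ) F (lift_le.2 (hc.le.trans h))
  refine ⟨f, fun g => ?_⟩
  obtain ⟨f', hf', hd⟩ := hF g
  obtain ⟨γ, hγ, rfl⟩ := hf f' hf'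
  exact ⟨γ, hγ, hd⟩

lemma exists_bounds {ρ κ : Cardinal.{0}} (hcov : Cov' ρ) (hh : Ordinal.{0} → ℕ → ℕ)
    (hdom : ∀ g, ∃ a < κ.ord, Dom g (hh a)) (X : Set Ordinal.{0})
    (hX : #X ≤ Cardinal.lift.{1} ρ) : ∃ Y : Set Ordinal.{0}, #Y ≤ Cardinal.lift.{1} ρ ∧
      ∀ s ⊆ X, s.Countable → ∃ a ∈ Y, a < κ.ord ∧ ∀ b ∈ s, Dom (hh b) (hh a) := by
  obtain ⟨G, h1, h2, h3⟩ := hcov
  obtain ⟨f, hf⟩ := exists_enum (κ := ρ) X (by simpa using hX)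
  have h4 : ∀ u : G, ∃ a < κ.ord, ∀ γ ∈ u.1, Dom (hh (f γ)) (hh a) := by
    intro u
    obtain ⟨g, hg⟩ := exists_dom_of_countable ((h2 u.1 u.2).image fun γ => hh (f γ))
    obtain ⟨a, ha, hd⟩ := hdom g
    exact ⟨a, ha, fun γ hγ => (hg _ ⟨γ, hγ, rfl⟩).trans hd⟩
  choose a ha1 ha2 using h4
  refine ⟨range a, mk_range_le.trans h1, fun s hs hsc => ?_⟩
  have := hsc.to_subtype
  choose γ hγ1 hγ2 using fun b : s => hf b.1 (hs b.2)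
  obtain ⟨u, hu, hsub⟩ := h3 (range γ) (by rintro _ ⟨b, rfl⟩; exact hγ1 b) (countable_range γ)
  refine ⟨a ⟨u, hu⟩, ⟨_, rfl⟩, ha1 _, fun b hb => ?_⟩
  have := ha2 ⟨u, hu⟩ _ (hsub ⟨⟨b, hb⟩, rfl⟩)
  rwa [hγ2] at this

theorem mk_lt_of_countable_Icc {ρ₀ κ : Cardinal.{0}} (hfix : cofCtble ρ₀ ≤ ρ₀) (hρκ : ρ₀ ≤ κ)
    (hd : domNum ≤ κ) (hc : (Icc ρ₀ κ).Countable)
    {X : Type} [TopologicalSpace X] [T3Space X] (hX : StronglyStarMenger X) {D : Set X}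
    (hD : IsClosed D) [DiscreteTopology D] : #D < κ := by
  classical
  obtain ⟨hh, hdom⟩ := exists_hh hd
  have hκ0 : ℵ₀ < κ := aleph0_lt_domNum.trans_le hd
  rcases le_or_gt κ (ℵ_ 3) with h3 | h3
  · exact mk_lt_of_cov hκ0 (cov'_of_le_aleph_three hκ0.le h3).cov hh hdom hX hD
  obtain ⟨ρ, hρ, hρκ, hcov, hc⟩ : ∃ ρ : Cardinal.{0}, ℵ_ 3 ≤ ρ ∧ ρ ≤ κ ∧ Cov' ρ ∧
      (Icc ρ κ).Countable := by
    rcases le_total ρ₀ (ℵ_ 3) with h | h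
    · exact ⟨ℵ_ 3, le_rfl, h3.le, cov'_of_le_aleph_three (aleph0_le_aleph 3) le_rfl,
        hc.mono (Icc_subset_Icc_left h)⟩
    · exact ⟨ρ₀, h, hρκ, cov'_of_cofCtble hfix, hc⟩
  have hρ0 : ℵ₀ ≤ ρ := (aleph0_le_aleph 3).trans hρ
  have hρ' : ℵ₀ ≤ Cardinal.lift.{1} ρ := by simpa using hρ0
  obtain ⟨E, G, hE⟩ := exists_enum_ord
  choose! Y hY1 hY2 using exists_bounds hcov hh hdom
  refine mk_lt_of_descent hρ hρκ hcov.cov (Θ := {θ | ∃ ν, θ = succ ν ∧ ρ ≤ ν ∧ θ ≤ κ}) ?_ ?_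
    hh hdom E (fun X => image2 G X X ∪ Y X) ?_ ?_ hX hD
  · refine hc.mono ?_
    rintro _ ⟨ν, rfl, h1, h2⟩
    exact ⟨h1.trans (le_succ ν), h2⟩
  · rintro _ ⟨ν, rfl, h1, h2⟩
    exact ⟨isRegular_succ (hρ0.trans h1), h1.trans_lt (lt_succ ν), h2⟩
  · intro X hX
    refine (mk_union_le _ _).trans (add_le_of_le hρ' ?_ (hY1 X hX))
    exact mk_image2_le.trans ((mul_le_mul' hX hX).trans (mul_eq_self hρ').le)
  intro C δ N hN1 hN2 hN3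
  let P : List Cardinal.{0} → Cardinal.{0} → Ordinal.{0} → Prop := fun L ν a =>
    ∃ (b : List Ordinal.{0}) (g : Ordinal.{0}),
      List.Forall₂ (fun β θ => ∃ i ∈ C, β = δ θ i) b L ∧ g ∈ N ∧ g < ν.ord ∧
        Dom (hh a) (hh (b.foldr E g))
  have key : ∀ ν : Cardinal.{0}, ρ ≤ ν → ν ≤ κ → ∀ L : List Cardinal.{0},
      (∀ θ ∈ L, θ ∈ {θ | ∃ ν, θ = succ ν ∧ ρ ≤ ν ∧ θ ≤ κ}) → (∀ a ∈ N, a < κ.ord → P L ν a) →
      ∃ L : List Cardinal.{0}, (∀ θ ∈ L, θ ∈ {θ | ∃ ν, θ = succ ν ∧ ρ ≤ ν ∧ θ ≤ κ}) ∧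
        ∀ a ∈ N, a < κ.ord → P L ρ a := by
    intro ν
    induction ν using WellFoundedLT.induction with
    | ind ν IH =>
    intro h1 h2 L hL hP
    rcases h1.eq_or_lt with rfl | h1'
    · exact ⟨L, hL, hP⟩
    by_cases hs : ∃ ν₀, ν = succ ν₀
    · obtain ⟨ν₀, rfl⟩ := hs
      have h4 : ρ ≤ ν₀ := lt_succ_iff.1 h1'
      have hθ : succ ν₀ ∈ {θ | ∃ ν, θ = succ ν ∧ ρ ≤ ν ∧ θ ≤ κ} := ⟨ν₀, rfl, h4, h2⟩
      refine IH ν₀ (lt_succ ν₀) h4 ((le_succ ν₀).trans h2) (L ++ [succ ν₀]) ?_ ?_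
      · intro θ hθ'
        rcases List.mem_append.1 hθ' with h | h
        · exact hL θ h
        · rw [List.mem_singleton.1 h]
          exact hθ
      · intro a ha ha'
        obtain ⟨b, g, hb, hg1, hg2, hd⟩ := hP a ha ha'
        obtain ⟨i, hi, hgi⟩ := hN2 _ hθ g hg1 hg2
        obtain ⟨h5, h6⟩ := hN1 _ hθ i hi
        obtain ⟨Z, hZ1, -, hZ2⟩ := hN3 {δ (succ ν₀) i, g} (pair_subset h5 hg1) (to_countable _)
        refine ⟨b ++ [δ (succ ν₀) i], G (δ (succ ν₀) i) g,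
          List.rel_append hb (List.Forall₂.cons ⟨i, hi, rfl⟩ List.Forall₂.nil),
          hZ2 (Or.inl ⟨_, hZ1 (by simp), _, hZ1 (by simp), rfl⟩),
          (hE _ g hgi).1.trans_le (ord_le_ord.2 (lt_succ_iff.1 (lt_ord.1 h6))), ?_⟩
        rw [List.foldr_append]
        simpa [(hE _ g hgi).2] using hd
    · have hex : ∃ ν' ∈ Ico ρ ν, ∀ a ∈ N, a < κ.ord → P L ν' a := by
        by_contra! hcon
        have hcc : (Ico ρ ν).Countable := hc.mono fun c h => mem_Icc.2 ⟨h.1, h.2.le.trans h2⟩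
        have := hcc.to_subtype
        choose a ha1 ha2 ha3 using fun c : Ico ρ ν => hcon c.1 c.2
        obtain ⟨Z, hZ1, hZ2, hZ3⟩ := hN3 (range a) (by rintro _ ⟨c, rfl⟩; exact ha1 c)
          (countable_range a)
        obtain ⟨a', h5, h6, h7⟩ := hY2 Z hZ2 _ hZ1 (countable_range a)
        obtain ⟨b, g, hb, hg1, hg2, hd⟩ := hP a' (hZ3 (Or.inr h5)) h6
        have h8 : succ g.card < ν :=
          lt_of_le_of_ne (succ_le_of_lt (lt_ord.1 hg2)) fun h => hs ⟨_, h.symm⟩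
        refine ha3 ⟨max ρ (succ g.card), le_max_left _ _, max_lt h1' h8⟩
          ⟨b, g, hb, hg1, lt_ord.2 ((lt_succ _).trans_le (le_max_right _ _)),
            (h7 _ ⟨_, rfl⟩).trans hd⟩
      obtain ⟨ν', h4, h5⟩ := hex
      exact IH ν' h4.2 h4.1 (h4.2.le.trans h2) L hL h5
  obtain ⟨L, hL, h⟩ := key κ hρκ le_rfl [] (by simp)
    (fun a ha ha' => ⟨[], a, List.Forall₂.nil, ha, ha', Dom.refl _⟩)
  refine ⟨L, hL, fun a ha ha' => ?_⟩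
  obtain ⟨b, g, h1, -, h2, h3⟩ := h a ha ha'
  exact ⟨b, g, h1, h2, h3⟩

lemma exists_scale (h : bddNum = domNum) : ∃ hh : Ordinal.{0} → ℕ → ℕ,
    (∀ g, ∃ a < domNum.ord, Dom g (hh a)) ∧ ∀ b < domNum.ord, ∀ a < b, Dom (hh a) (hh b) := by
  classical
  obtain ⟨f, hf⟩ := exists_hh le_rfl
  have hb : ∀ F : Set (ℕ → ℕ), #F < domNum → ∃ g, ∀ f ∈ F, Dom f g := by
    intro F hF
    by_contra hcon
    have : bddNum ≤ #F := csInf_le' ⟨F, hcon, rfl⟩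
    exact (h ▸ this).not_gt hF
  choose! bd hbd using hb
  obtain ⟨hh, hM⟩ := exists_rec (S := Ordinal.{0}) (β := ℕ → ℕ)
    (fun b m => bd (insert (f b) (m '' Iio b))) (fun b m m' hmm => by
      rw [image_congr (f := m) (g := m') (s := Iio b) fun a ha => hmm a ha])
  have hsmall : ∀ b < domNum.ord, #(insert (f b) (hh '' Iio b) : Set (ℕ → ℕ)) < domNum := by
    intro b hb
    refine mk_insert_le.trans_lt (add_lt_of_lt aleph0_lt_domNum.le ?_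
      (one_lt_aleph0.trans aleph0_lt_domNum))
    have h1 := mk_image_le_lift (f := hh) (s := Iio b)
    rw [mk_Iio_ordinal, lift_lift] at h1
    exact (lift_le.1 h1).trans_lt (lt_ord.1 hb)
  refine ⟨hh, fun g => ?_, fun b hb a ha => ?_⟩
  · obtain ⟨a, ha, hd⟩ := hf g
    refine ⟨a, ha, hd.trans ?_⟩
    rw [hM a]
    exact hbd _ (hsmall a ha) _ (mem_insert _ _)
  · rw [hM b]
    exact hbd _ (hsmall b hb) _ (mem_insert_of_mem _ ⟨a, ha, rfl⟩)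

theorem mk_lt_of_bdd_eq_dom (h : bddNum = domNum)
    {X : Type} [TopologicalSpace X] [T3Space X] (hX : StronglyStarMenger X) {D : Set X}
    (hD : IsClosed D) [DiscreteTopology D] : #D < domNum := by
  obtain ⟨hh, hdom, hmono⟩ := exists_scale h
  rcases le_or_gt domNum (ℵ_ 3) with h3 | h3
  · exact mk_lt_of_cov aleph0_lt_domNum (cov'_of_le_aleph_three aleph0_lt_domNum.le h3).cov hh
      hdom hX hD
  have hreg : domNum.IsRegular := by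
    refine ⟨aleph0_lt_domNum.le, ?_⟩
    obtain ⟨s, hs1, hs2⟩ := exists_cof_eq (α := Iio domNum.ord)
    rw [Ordinal.cof_Iio, ← Ordinal.lift_cof] at hs2
    have h1 : domNum ≤ #((fun a : Iio domNum.ord => hh a.1) '' s) := by
      refine domNum_le fun g => ?_
      obtain ⟨a, ha, hd⟩ := hdom g
      obtain ⟨b, hb, hab⟩ := hs1 ⟨a, ha⟩
      refine ⟨_, ⟨b, hb, rfl⟩, hd.trans ?_⟩
      rcases (show a ≤ b.1 from hab).eq_or_lt with h' | h'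
      · rw [h']
        exact Dom.refl _
      · exact hmono _ b.2 _ h'
    have h2 := mk_image_le_lift (f := fun a : Iio domNum.ord => hh a.1) (s := s)
    rw [hs2, lift_lift] at h2
    exact h1.trans (lift_le.1 h2)
  refine mk_lt_of_descent le_rfl h3.le (cov'_of_le_aleph_three (aleph0_le_aleph 3) le_rfl).cov
    (Θ := {domNum}) (countable_singleton _) ?_ hh hdom (fun β _ => β) (fun _ => ∅)
    (fun _ _ => by simp) ?_ hX hD
  · rintro _ rfl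
    exact ⟨hreg, h3, le_rfl⟩
  · intro C δ N hN1 hN2 _
    refine ⟨[domNum], by simp, fun a ha ha' => ?_⟩
    obtain ⟨i, hi, h1⟩ := hN2 _ rfl a ha ha'
    exact ⟨[δ domNum i], 0, List.Forall₂.cons ⟨i, hi, rfl⟩ List.Forall₂.nil,
      isRegular_aleph_three.ord_pos, hmono _ (hN1 _ rfl i hi).2 _ h1⟩

end Pool.Agent.Work.MP_d02fb9_lc
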