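import Pool.Agent.Work.MP_d02fb9_lc.FDefs
import Pool.Agent.Work.MP_d02fb9_lc.Main
import Mathlib.Topology.Instances.Discrete
import Mathlib.Logic.Equiv.List

/-! The lower bound `𝔡 ≤ λ`, and the case that `cof([κ]^ℵ₀) ≤ κ⁺` for all `κ`. -/

namespace Pool.Agent.Work.MP_d02fb9_lc

open Cardinal Set Order Filter Topology

theorem domNum_le_continuum : domNum ≤ 𝔠 :=
  (domNum_le (F := Set.univ) fun g => ⟨g, trivial, Dom.refl g⟩).trans (by simp)

theorem exists_space {l : Cardinal.{0}} (hl : l < domNum) :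
    ∃ (X : Type) (_ : TopologicalSpace X) (_ : T3Space X), StronglyStarMenger X ∧
      ∃ D : Set X, IsClosed D ∧ DiscreteTopology D ∧ #D = l := by
  classical
  obtain ⟨Z, hZ⟩ := le_mk_iff_exists_set.1
    (show l ≤ #(ℕ → Bool) from (hl.le.trans domNum_le_continuum).trans (by simp))
  let br : Z → ℕ → List Bool := fun z n => (List.range n).map z.1
  let Φ : List Bool ⊕ Z → List Bool ⊕ Z → Bool := fun x i =>
    decide (x = i ∨ ∃ z n, i = .inr z ∧ x = .inl (br z n))
  have hinj : Function.Injective Φ := by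
    intro x y h
    have h1 : y = x ∨ ∃ z n, x = .inr z ∧ y = .inl (br z n) := by
      simpa [Φ] using (congrFun h x).symm
    have h2 : x = y ∨ ∃ z n, y = .inr z ∧ x = .inl (br z n) := by
      simpa [Φ] using congrFun h y
    rcases h1 with h1 | ⟨z, n, rfl, rfl⟩
    · exact h1.symm
    · simp at h2
  let _ : TopologicalSpace (List Bool ⊕ Z) := TopologicalSpace.induced Φ inferInstance
  have hemb : IsEmbedding Φ := ⟨⟨rfl⟩, hinj⟩
  have hc : ∀ i, IsClopen {x | Φ x i = true} := fun i =>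
    (isClopen_discrete {true}).preimage ((continuous_apply i).comp hemb.continuous)
  have hlim : ∀ z, Tendsto (fun n => Sum.inl (br z n)) atTop (𝓝 (Sum.inr z : List Bool ⊕ Z)) := by
    intro z
    rw [hemb.tendsto_nhds_iff, tendsto_pi_nhds]
    intro i
    refine tendsto_const_nhds.congr' ?_
    rcases i with s | z'
    · filter_upwards [eventually_gt_atTop s.length] with n hn
      have : br z n ≠ s := fun h => by
        have := congrArg List.length h
        simp [br] at this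
        omega
      simp [Φ, this]
    · by_cases h : z = z'
      · subst h
        refine Eventually.of_forall fun n => ?_
        simp only [Φ, Function.comp_apply, true_or, decide_true]
        exact (decide_eq_true (Or.inr ⟨z, n, rfl, rfl⟩)).symm
      · obtain ⟨k, hk⟩ := Function.ne_iff.1 fun e : z.1 = z'.1 => h (Subtype.ext e)
        filter_upwards [eventually_gt_atTop k] with n hn
        have : ∀ m, br z n ≠ br z' m := fun m e => by
          have h1 := congrArg List.length e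
          simp only [br, List.length_map, List.length_range] at h1
          subst h1
          exact hk (List.map_inj_left.1 e k (List.mem_range.2 hn))
        have h2 : ¬ ∃ z'' m, z' = z'' ∧ br z n = br z'' m := by
          rintro ⟨_, m, rfl, e⟩
          exact this m e
        simp only [Φ, Function.comp_apply, Sum.inr.injEq, Sum.inl.injEq, h, h2, reduceCtorEq,
          and_false, exists_false, or_self]
  refine ⟨List Bool ⊕ Z, inferInstance, hemb.t3Space, fun U hU hcov => ?_, range Sum.inr, ?_, ?_,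
    (mk_range_eq _ Sum.inr_injective).trans hZ⟩
  · have h1 : ∀ n x, ∃ u ∈ U n, x ∈ u := fun n x => mem_sUnion.1 (hcov n ▸ mem_univ x)
    choose u hu1 hu2 using h1
    have h2 : ∀ (z : Z) n, ∃ s, Sum.inl s ∈ u n (.inr z) := fun z n =>
      ((hlim z).eventually ((hU n _ (hu1 n _)).mem_nhds (hu2 n _))).exists.imp' _ fun _ h => h
    choose s hs using h2
    obtain ⟨g, hg⟩ : ∃ g : ℕ → ℕ, ∀ z, ¬ Dom g fun n => Encodable.encode (s z n) := by
      by_contra! h
      refine (domNum_le (F := range fun z n => Encodable.encode (s z n)) fun g => ?_).not_gt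
        ((mk_range_le.trans hZ.le).trans_lt hl)
      obtain ⟨z, hz⟩ := h g
      exact ⟨_, ⟨z, rfl⟩, hz⟩
    refine ⟨fun n => Sum.inl '' (Encodable.encode ⁻¹' Iic (g n + n)), fun n =>
      ((finite_Iic _).preimage Encodable.encode_injective.injOn).image _, ?_⟩
    rintro (t | z)
    · exact ⟨Encodable.encode t, _, hu1 _ (.inl t), hu2 _ _, .inl t, hu2 _ _, t, by simp, rfl⟩
    · obtain ⟨n, hn⟩ := (not_eventually.1 (hg z)).exists
      exact ⟨n, _, hu1 n (.inr z), hu2 _ _, .inl (s z n), hs z n, s z n,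
        mem_Iic.2 ((not_le.1 hn).le.trans (Nat.le_add_right _ _)), rfl⟩
  · have : range Sum.inr = ⋂ s, {x | Φ x (.inl s) = true}ᶜ := by
      ext x
      rcases x with t | z <;> simp [Φ]
    rw [this]
    exact isClosed_iInter fun s => (hc _).isOpen.isClosed_compl
  · rw [discreteTopology_iff_isOpen_singleton]
    rintro ⟨_, z, rfl⟩
    refine isOpen_induced_iff.2 ⟨_, (hc (.inr z)).isOpen, ?_⟩
    ext ⟨_, z', rfl⟩
    simp [Φ]

/-- A cofinal family of at most `c` countable subsets of `α`. -/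
def CovT (α : Type) (c : Cardinal.{0}) : Prop :=
  ∃ G : Set (Set α), #G ≤ c ∧ (∀ C ∈ G, C.Countable) ∧ ∀ A : Set α, A.Countable → ∃ C ∈ G, A ⊆ C

theorem CovT.of_inj {α β : Type} {c} (h : CovT α c) (hβ : #β ≤ #α) : CovT β c := by
  obtain ⟨e⟩ := (Cardinal.le_def _ _).1 hβ
  obtain ⟨G, h1, h2, h3⟩ := h
  refine ⟨preimage e '' G, mk_image_le.trans h1, ?_, fun A hA => ?_⟩
  · rintro _ ⟨C, hC, rfl⟩
    exact (h2 C hC).preimage e.injective
  · obtain ⟨C, hC, h⟩ := h3 _ (hA.image e)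
    exact ⟨_, ⟨C, hC, rfl⟩, image_subset_iff.1 h⟩

theorem covT_iff {κ c : Cardinal.{0}} : CovT κ.out c ↔ cofCtble κ ≤ c := by
  constructor
  · rintro ⟨G, h1, h2, h3⟩
    exact le_trans (b := #G) (csInf_le' ⟨G, h2, h3, rfl⟩) h1
  · intro h
    obtain ⟨G, h1, h2, h3⟩ := csInf_mem (s := {c | ∃ G : Set (Set κ.out), (∀ C ∈ G, C.Countable) ∧
      (∀ A : Set κ.out, A.Countable → ∃ C ∈ G, A ⊆ C) ∧ #G = c})
      ⟨_, {C | C.Countable}, fun _ h => h, fun A hA => ⟨A, hA, subset_rfl⟩, rfl⟩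
    exact ⟨G, h3.le.trans h, h1, h2⟩

theorem le_cofCtble {κ : Cardinal.{0}} (h : ℵ₀ < κ) : κ ≤ cofCtble κ := by
  obtain ⟨G, h1, h2, h3⟩ := covT_iff.2 (le_refl (cofCtble κ))
  by_contra! hlt
  have h4 : ⋃₀ G = Set.univ := eq_univ_of_forall fun a => by
    obtain ⟨C, hC, h⟩ := h3 {a} (countable_singleton a)
    exact ⟨C, hC, h rfl⟩
  have h5 := mk_sUnion_le G
  rw [h4, mk_univ, mk_out] at h5
  refine h5.not_gt (mul_lt_of_lt h.le (h1.trans_lt hlt) (lt_of_le_of_lt (ciSup_le' fun C => ?_) h))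
  exact le_aleph0_iff_set_countable.2 (h2 C.1 C.2)

theorem covT_of_bounded {T : Type} [LinearOrder T] {c : Cardinal.{0}} (hc : ℵ₀ ≤ c) (hT : #T ≤ c)
    (hb : ∀ A : Set T, A.Countable → ∃ b, A ⊆ Iio b) (h : ∀ b : T, CovT (Iio b) c) : CovT T c := by
  choose G h1 h2 h3 using h
  refine ⟨⋃ b, image Subtype.val '' G b, (mk_iUnion_le _).trans
    (mul_le_of_le hc hT (ciSup_le' fun b => mk_image_le.trans (h1 b))), fun C hC => ?_,
    fun A hA => ?_⟩
  · obtain ⟨b, C', hC', rfl⟩ := mem_iUnion.1 hC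
    exact (h2 b C' hC').image _
  · obtain ⟨b, hb⟩ := hb A hA
    obtain ⟨C, hC, h⟩ := h3 b (Subtype.val ⁻¹' A) (hA.preimage Subtype.val_injective)
    exact ⟨_, mem_iUnion.2 ⟨b, C, hC, rfl⟩, fun a ha => ⟨⟨a, hb ha⟩, h ha, rfl⟩⟩

theorem cofCtble_domNum (H : ∀ κ : Cardinal.{0}, ℵ₀ ≤ κ → cofCtble κ ≤ succ κ) :
    cofCtble domNum = domNum := by
  refine le_antisymm (covT_iff.1 ?_) (le_cofCtble aleph0_lt_domNum)
  let T := domNum.ord.ToType
  have hT : #T = domNum := mk_ord_toType _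
  have hI : ∀ a : T, #(Iio a) < domNum := fun a =>
    (mk_Iio_lt a (by simp [T])).trans_eq hT
  refine (covT_of_bounded (T := T) aleph0_lt_domNum.le hT.le (fun A hA => ?_)
    fun b => ?_).of_inj (by rw [mk_out, hT])
  · obtain ⟨F, hF, hc⟩ := exists_dominating
    obtain ⟨e⟩ := Cardinal.eq.1 (hT.trans hc.symm)
    have h1 : ∀ a : T, ∃ g, ∀ t ≤ a, ¬ Dom g (e t).1 := by
      intro a
      by_contra! h
      refine (domNum_le (F := (fun t => (e t).1) '' Iic a) fun g => ?_).not_gt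
        (mk_image_le.trans_lt ?_)
      · obtain ⟨t, h1, h2⟩ := h g
        exact ⟨_, ⟨t, h1, rfl⟩, h2⟩
      · rw [← Iio_insert]
        exact mk_insert_le.trans_lt (add_lt_of_lt aleph0_lt_domNum.le (hI a)
          (one_lt_aleph0.trans aleph0_lt_domNum))
    choose g hg using h1
    obtain ⟨g0, h2⟩ := exists_dom_of_countable (hA.image g)
    obtain ⟨f, hf, h3⟩ := hF g0
    refine ⟨e.symm ⟨f, hf⟩, fun a ha => lt_of_not_ge fun h => hg a _ h ?_⟩
    simpa using (h2 _ ⟨a, ha, rfl⟩).trans h3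
  · have h1 : max ℵ₀ #(Iio b) < domNum := max_lt aleph0_lt_domNum (hI b)
    exact (covT_iff.2 ((H _ (le_max_left _ _)).trans (succ_le_of_lt h1))).of_inj
      (by rw [mk_out]; exact le_max_right _ _)

theorem lam_eq_mu (H : ∀ κ : Cardinal.{0}, ℵ₀ ≤ κ → cofCtble κ ≤ succ κ) : lamNum = muNum := by
  have h := cofCtble_domNum H
  have h1 : muNum = domNum :=
    IsLeast.csInf_eq ⟨⟨le_rfl, domNum_le_continuum, h⟩, fun κ hκ => hκ.1⟩
  rw [h1]
  refine IsLeast.csInf_eq ⟨fun X _ _ hX D hD _ => ?_, fun l hl => le_of_not_gt fun hlt => ?_⟩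
  · obtain ⟨hh, hdom⟩ := exists_hh le_rfl
    exact mk_lt_of_cov aleph0_lt_domNum (cov'_of_cofCtble h.le).cov hh hdom hX hD
  · obtain ⟨X, _, _, hX, D, h1, h2, h3⟩ := exists_space hlt
    exact (hl X hX D h1 h2).ne h3

theorem covT_of_cov' {ρ : Cardinal.{0}} (h : Cov' ρ) : CovT ρ.out ρ := by
  obtain ⟨U, h1, -, h3⟩ := h.cov
  obtain ⟨j⟩ : Nonempty (ρ.out ≃ Iio ρ.ord) := by
    rw [← lift_mk_eq', mk_out, mk_Iio_ordinal, card_ord, lift_lift]
  have hj : Function.Injective fun a => (j a).1 := Subtype.val_injective.comp j.injective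
  refine ⟨range fun b => (fun a => (j a).1) ⁻¹' U (j b).1, mk_range_le.trans (mk_out ρ).le, ?_,
    fun A hA => ?_⟩
  · rintro _ ⟨b, rfl⟩
    exact (h1 _).preimage hj
  · obtain ⟨γ, hγ, h⟩ := h3 ((fun a => (j a).1) '' A) (by
      rintro _ ⟨a, -, rfl⟩
      exact (j a).2) (hA.image _)
    exact ⟨_, ⟨j.symm ⟨γ, hγ⟩, rfl⟩, by simpa using image_subset_iff.1 h⟩

end Pool.Agent.Work.MP_d02fb9_lc
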