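import Pool.Agent.Work.MP_d02fb9_lc.FDefs
import Pool.Agent.Work.MP_63c7e0_lc.Basic
import Pool.Agent.Lib.ZFModel.DefsZFC

/-! From an external description of the generic objects to the statement inside the model. -/

namespace Pool.Agent.Work.MP_d02fb9_lc
open Pool.Agent.Lib.ZFModel Pool.Agent.Work.MP_63c7e0_lc Pool.Agent.Work.MP_3181e1_lc

variable {M : Type 1} {E : M → M → Prop}

set_option synthInstance.maxSize 100000

/-- The triple `((v, n), a)` belongs to `A`. -/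
def Tri (E : M → M → Prop) (A v n a : M) : Prop := ∃ q, IsPair E q v n ∧ App E A q a

/-- The external description of the generic objects. -/
structure MD (E : M → M → Prop) where
  nat : ℕ → M
  w : M
  mem_nat : ∀ a n, E a (nat n) ↔ ∃ m < n, a = nat m
  mem_w : ∀ a, E a w ↔ ∃ n, a = nat n
  J : Type
  lt : J → J → Prop
  tri : ∀ i j, lt i j ∨ i = j ∨ lt j i
  ne : Nonempty J
  o : J → M
  mem_o : ∀ a j, E a (o j) ↔ ∃ i, lt i j ∧ a = o i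
  θ : M
  mem_θ : ∀ a, E a θ ↔ ∃ j, a = o j
  h : J → ℕ → ℕ
  hM : J → M
  mem_hM : ∀ p j, E p (hM j) ↔ ∃ n, IsPair E p (nat n) (nat (h j n))
  f : M
  mem_f : ∀ p, E p f ↔ ∃ j, IsPair E p (o j) (hM j)
  A : M
  finA : ∀ v n, {a | Tri E A (o v) (nat n) a}.Finite
  irrA : ∀ v n a, Tri E A (o v) (nat n) a → ∃ j, j ≠ v ∧ a = o j
  big : ∀ R : M → M → M → Prop, Dfn E (fun v => R (v 0) (v 1) (v 2)) →
    (∀ γ n k k', R (o γ) (nat n) (nat k) → R (o γ) (nat n) (nat k') → k = k') →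
    ∀ i, ∃ β, ∀ γ, lt γ i ∨ γ = i → ∃ n0, ∀ n, n0 ≤ n → ∀ k, R (o γ) (nat n) (nat k) → k < h β n
  col : ∀ R : M → M → M → Prop, Dfn E (fun v => R (v 0) (v 1) (v 2)) →
    (∀ n, ∃ K, ∀ v k, R (o v) (nat n) (nat k) → k < K) →
    ∃ v, ∀ n k, R (o v) (nat n) (nat k) → ∃ a, Tri E A (o v) (nat n) a ∧ R a (nat n) (nat k)
  cov : ∀ R : M → M → M → Prop, Dfn E (fun v => R (v 0) (v 1) (v 2)) →
    (∀ γ n a a', R (o γ) (nat n) (o a) → R (o γ) (nat n) (o a') → o a = o a') →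
    ∃ (s : ℕ → J) (c : M), (∀ p, E p c ↔ ∃ n, IsPair E p (nat n) (o (s n))) ∧
      ∀ γ, ∃ m, ∀ n, ¬ R (o γ) (nat n) (o (s m))

instance [Nonempty M] (a b c d : (ℕ → M) → M) [Trm a] [Trm b] [Trm c] [Trm d] :
    Dfn E (fun v => Tri E (a v) (b v) (c v) (d v)) := by unfold Tri; infer_instance

instance [Nonempty M] (a b c : (ℕ → M) → M) [Trm a] [Trm b] [Trm c] :
    Dfn E (fun v => IsInj E (a v) (b v) (c v)) := by unfold IsInj; infer_instance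

section zf
variable (zf : IsZF E)
include zf

theorem exists_funs (A B : M) :
    ∃ Z, ∀ e C D, Sub E C A → Sub E D B → IsFun E e C D → E e Z := by
  have := zf.nonempty
  obtain ⟨g, -, hg⟩ := exists_rel zf A B fun a _ => a = a
  obtain ⟨Z, hZ⟩ := zf.powerset g
  refine ⟨Z, fun e C D hC hD he => (hZ e).2 fun p hp => ?_⟩
  obtain ⟨x, y, hx, hy, h⟩ := he.1 p hp
  obtain ⟨q, hq, h'⟩ := (hg x y).2 ⟨hC x hx, hD y hy, rfl⟩
  exact pair_unique zf h' h ▸ hq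

theorem app_of_mem {c : M} {ι : Type} {a b : ι → M} (h : ∀ p, E p c ↔ ∃ i, IsPair E p (a i) (b i))
    (x y : M) : App E c x y ↔ ∃ i, x = a i ∧ y = b i := by
  constructor
  · rintro ⟨p, hp, h1⟩
    obtain ⟨i, h2⟩ := (h p).1 hp
    exact ⟨i, pair_inj zf h1 h2⟩
  · rintro ⟨i, rfl, rfl⟩
    obtain ⟨p, hp⟩ := exists_pair zf (a i) (b i)
    exact ⟨p, (h p).2 ⟨i, hp⟩, hp⟩

variable (md : MD E)

theorem nat_inj {m n : ℕ} (h : md.nat m = md.nat n) : m = n := by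
  rcases lt_trichotomy m n with h1 | h1 | h1
  · exact absurd ((md.mem_nat _ n).2 ⟨m, h1, h.symm⟩) (not_mem_self zf (md.nat n))
  · exact h1
  · exact absurd ((md.mem_nat _ m).2 ⟨n, h1, h⟩) (not_mem_self zf (md.nat m))

theorem o_inj {i j : md.J} (h : md.o i = md.o j) : i = j := by
  rcases md.tri i j with h1 | h1 | h1
  · exact absurd ((md.mem_o _ j).2 ⟨i, h1, h.symm⟩) (not_mem_self zf _)
  · exact h1
  · exact absurd ((md.mem_o _ i).2 ⟨j, h1, h⟩) (not_mem_self zf _)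

theorem nat_sub {m n : ℕ} : Sub E (md.nat m) (md.nat n) ↔ m ≤ n := by
  constructor
  · intro h
    by_contra hc
    exact not_mem_self zf _ (h _ ((md.mem_nat _ m).2 ⟨n, by omega, rfl⟩))
  · intro h x hx
    obtain ⟨k, hk, rfl⟩ := (md.mem_nat _ _).1 hx
    exact (md.mem_nat _ _).2 ⟨k, by omega, rfl⟩

omit zf in
theorem nat_succ (n : ℕ) (z : M) : E z (md.nat (n + 1)) ↔ E z (md.nat n) ∨ z = md.nat n := by
  rw [md.mem_nat, md.mem_nat]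
  constructor
  · rintro ⟨m, hm, rfl⟩
    rcases Nat.lt_succ_iff_lt_or_eq.1 hm with h | rfl
    · exact Or.inl ⟨m, h, rfl⟩
    · exact Or.inr rfl
  · rintro (⟨m, hm, rfl⟩ | rfl)
    · exact ⟨m, by omega, rfl⟩
    · exact ⟨n, by omega, rfl⟩

omit zf in
theorem nat_zero : IsEmptySet E (md.nat 0) := fun x hx => by
  obtain ⟨m, hm, _⟩ := (md.mem_nat _ _).1 hx
  omega

omit zf in
theorem natw (n : ℕ) : E (md.nat n) md.w := (md.mem_w _).2 ⟨n, rfl⟩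

omit zf in
theorem oθ (j : md.J) : E (md.o j) md.θ := (md.mem_θ _).2 ⟨j, rfl⟩

theorem isOmega_w : IsOmega E md.w := by
  refine ⟨⟨⟨_, natw md 0, nat_zero md⟩, fun x hx => ?_⟩, fun w' hw' x hx => ?_⟩
  · obtain ⟨n, rfl⟩ := (md.mem_w _).1 hx
    exact ⟨_, natw md (n + 1), nat_succ md n⟩
  · obtain ⟨n, rfl⟩ := (md.mem_w _).1 hx
    clear hx
    induction n with
    | zero =>
      obtain ⟨e, he, he'⟩ := hw'.1
      exact empty_unique zf he' (nat_zero md) ▸ he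
    | succ n ih =>
      obtain ⟨y, hy, h⟩ := hw'.2 _ ih
      have : y = md.nat (n + 1) := zf.extensionality _ _ fun z => (h z).trans (nat_succ md n z).symm
      exact this ▸ hy

theorem omega_eq {w : M} (h : IsOmega E w) : w = md.w :=
  zf.extensionality _ _ fun x => ⟨h.2 _ (isOmega_w zf md).1 x, (isOmega_w zf md).2 _ h.1 x⟩

omit zf in
theorem isOrd_θ : IsOrd E md.θ := by
  refine ⟨fun x hx y hy => ?_, fun x y hx hy => ?_⟩
  · obtain ⟨j, rfl⟩ := (md.mem_θ _).1 hx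
    obtain ⟨i, -, rfl⟩ := (md.mem_o _ _).1 hy
    exact oθ md i
  · obtain ⟨i, rfl⟩ := (md.mem_θ _).1 hx
    obtain ⟨j, rfl⟩ := (md.mem_θ _).1 hy
    rcases md.tri i j with h | rfl | h
    · exact Or.inl ((md.mem_o _ _).2 ⟨i, h, rfl⟩)
    · exact Or.inr (Or.inl rfl)
    · exact Or.inr (Or.inr ((md.mem_o _ _).2 ⟨j, h, rfl⟩))

theorem app_hM (j : md.J) (x y : M) :
    App E (md.hM j) x y ↔ ∃ n, x = md.nat n ∧ y = md.nat (md.h j n) :=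
  app_of_mem zf (fun p => md.mem_hM p j) x y

theorem isFun_hM (j : md.J) : IsFun E (md.hM j) md.w md.w := by
  refine ⟨fun p hp => ?_, fun x hx => ?_, fun x y y' h1 h2 => ?_⟩
  · obtain ⟨n, h⟩ := (md.mem_hM p j).1 hp
    exact ⟨_, _, natw md _, natw md _, h⟩
  · obtain ⟨n, rfl⟩ := (md.mem_w _).1 hx
    exact ⟨_, (app_hM zf md j _ _).2 ⟨n, rfl, rfl⟩⟩
  · obtain ⟨n, rfl, rfl⟩ := (app_hM zf md j _ _).1 h1
    obtain ⟨m, h3, rfl⟩ := (app_hM zf md j _ _).1 h2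
    rw [nat_inj zf md h3]

theorem domLe_θ : DomLe E md.θ := by
  have := zf.nonempty
  obtain ⟨Z, hZ⟩ := exists_funs zf md.w md.w
  obtain ⟨F, hF⟩ := zf.sep Z fun h => IsFun E h md.w md.w
  have hA := app_of_mem zf md.mem_f
  refine ⟨md.w, F, md.f, isOmega_w zf md, ⟨fun p hp => ?_, fun x hx => ?_, fun x y y' h1 h2 => ?_⟩,
    fun h hh => ((hF h).1 hh).2, fun g hg => ?_⟩
  · obtain ⟨j, h⟩ := (md.mem_f p).1 hp
    exact ⟨_, _, oθ md j, (hF _).2 ⟨hZ _ _ _ (fun _ h => h) (fun _ h => h) (isFun_hM zf md j),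
      isFun_hM zf md j⟩, h⟩
  · obtain ⟨j, rfl⟩ := (md.mem_θ _).1 hx
    exact ⟨_, (hA _ _).2 ⟨j, rfl, rfl⟩⟩
  · obtain ⟨i, rfl, rfl⟩ := (hA _ _).1 h1
    obtain ⟨j, h3, rfl⟩ := (hA _ _).1 h2
    rw [o_inj zf md h3]
  · obtain ⟨i⟩ := md.ne
    obtain ⟨β, hβ⟩ := md.big (fun _ n k => App E g n k) inferInstance
      (fun _ n k k' h1 h2 => nat_inj zf md (hg.2.2 _ _ _ h1 h2)) i
    obtain ⟨n0, h⟩ := hβ i (Or.inr rfl)
    refine ⟨_, _, (hA _ _).2 ⟨β, rfl, rfl⟩, _, natw md n0, fun n a b h1 h2 h3 => ?_⟩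
    obtain ⟨m, rfl, rfl⟩ := (app_hM zf md β _ _).1 h3
    obtain ⟨k, rfl⟩ := (md.mem_w _).1 (hg.mem zf h2).2
    exact (nat_sub zf md).2 (h m ((nat_sub zf md).1 h1) k h2).le

theorem not_domLe {ν : M} (hν : E ν md.θ) : ¬ DomLe E ν := by
  have := zf.nonempty
  rintro ⟨w, F, f, hw, hf, hF, hd⟩
  rw [omega_eq zf md hw] at hF hd
  obtain ⟨i, rfl⟩ := (md.mem_θ _).1 hν
  obtain ⟨β, hβ⟩ := md.big (fun γ n k => ∃ h, App E f γ h ∧ App E h n k) inferInstance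
    (by
      rintro γ n k k' ⟨h, h1, h2⟩ ⟨h', h3, h4⟩
      obtain rfl := hf.2.2 _ _ _ h1 h3
      exact nat_inj zf md ((hF _ (hf.mem zf h1).2).2.2 _ _ _ h2 h4)) i
  obtain ⟨γ, h, h1, k, hk, h2⟩ := hd _ (isFun_hM zf md β)
  obtain ⟨k, rfl⟩ := (md.mem_w _).1 hk
  obtain ⟨j, hj, rfl⟩ := (md.mem_o _ _).1 (hf.mem zf h1).1
  obtain ⟨n0, h3⟩ := hβ j (Or.inl hj)
  have h4 := hF _ (hf.mem zf h1).2
  obtain ⟨b, hb⟩ := h4.2.1 _ (natw md (max k n0))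
  obtain ⟨l, rfl⟩ := (md.mem_w _).1 (h4.mem zf hb).2
  have h5 := h3 _ (le_max_right k n0) l ⟨h, h1, hb⟩
  have h6 := (nat_sub zf md).1 (h2 _ _ _ ((nat_sub zf md).2 (le_max_left k n0))
    ((app_hM zf md β _ _).2 ⟨_, rfl, rfl⟩) hb)
  omega

end zf

section zfc
variable (zfc : IsZFC E)
include zfc

theorem choice_rel (A B g : M) (h : ∀ x, E x A → ∃ y, E y B ∧ App E g x y) :
    ∃ f, IsFun E f A B ∧ ∀ x y, App E f x y → App E g x y := by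
  have zf := zfc.zf
  have := zf.nonempty
  obtain ⟨W, hW⟩ := zf.powerset g
  obtain ⟨a, ha⟩ := zf.sep W fun z => ∃ x, E x A ∧
    ∀ p, E p z ↔ E p g ∧ ∃ y, E y B ∧ IsPair E p x y
  obtain ⟨c, hc⟩ := zfc.choice a (by
      intro z hz
      obtain ⟨-, x, hx, h1⟩ := (ha z).1 hz
      obtain ⟨y, hy, p, hp, h2⟩ := h x hx
      exact ⟨p, (h1 p).2 ⟨hp, y, hy, h2⟩⟩)
    (by
      intro z z' p hz hz' h1 h2
      obtain ⟨-, x, -, h3⟩ := (ha z).1 hz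
      obtain ⟨-, x', -, h4⟩ := (ha z').1 hz'
      obtain ⟨-, y, -, h5⟩ := (h3 p).1 h1
      obtain ⟨-, y', -, h6⟩ := (h4 p).1 h2
      obtain rfl := (pair_inj zf h5 h6).1
      exact zf.extensionality _ _ fun q => (h3 q).trans (h4 q).symm)
  obtain ⟨f, h1, h2⟩ := exists_rel zf A B fun x y => ∃ p, E p g ∧ E p c ∧ IsPair E p x y
  have key : ∀ x, E x A → ∃! p, (E p g ∧ ∃ y, E y B ∧ IsPair E p x y) ∧ E p c := by
    intro x hx
    obtain ⟨z, hz⟩ := zf.sep g fun p => ∃ y, E y B ∧ IsPair E p x y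
    have := hc z ((ha z).2 ⟨(hW z).2 fun p hp => ((hz p).1 hp).1, x, hx, hz⟩)
    simpa only [hz] using this
  refine ⟨f, ⟨h1, fun x hx => ?_, fun x y y' h3 h4 => ?_⟩, fun x y h3 => ?_⟩
  · obtain ⟨p, ⟨⟨h3, y, h4, h5⟩, h6⟩, -⟩ := key x hx
    exact ⟨y, (h2 x y).2 ⟨hx, h4, p, h3, h6, h5⟩⟩
  · obtain ⟨hx, hy, p, a1, a2, a3⟩ := (h2 _ _).1 h3
    obtain ⟨-, hy', p', b1, b2, b3⟩ := (h2 _ _).1 h4
    obtain rfl := (key x hx).unique ⟨⟨a1, y, hy, a3⟩, a2⟩ ⟨⟨b1, y', hy', b3⟩, b2⟩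
    exact (pair_inj zf a3 b3).2
  · obtain ⟨-, -, p, a1, -, a3⟩ := (h2 _ _).1 h3
    exact ⟨p, a1, a3⟩

theorem choice_fun (A B : M) (R : M → M → Prop)
    [Dfn E fun v => ∃ x y, E x A ∧ E y B ∧ IsPair E (v 0) x y ∧ R x y]
    (h : ∀ x, E x A → ∃ y, E y B ∧ R x y) :
    ∃ f, IsFun E f A B ∧ ∀ x y, App E f x y → R x y := by
  obtain ⟨g, -, hg⟩ := exists_rel zfc.zf A B R
  obtain ⟨f, h1, h2⟩ := choice_rel zfc A B g fun x hx => by
    obtain ⟨y, hy, h3⟩ := h x hx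
    exact ⟨y, hy, (hg x y).2 ⟨hx, hy, h3⟩⟩
  exact ⟨f, h1, fun x y h3 => ((hg x y).1 (h2 x y h3)).2.2⟩

variable (md : MD E)

theorem not_cofLe : ¬ CofLe E md.θ := by
  have zf := zfc.zf
  have := zf.nonempty
  rintro ⟨F, f, hf, hF, hc⟩
  obtain ⟨Z, hZ⟩ := exists_funs zf md.θ md.w
  obtain ⟨ch, h1, h2⟩ := choice_fun zfc F Z (fun C e => IsInj E e C md.w) fun C hC => by
    obtain ⟨h3, w, e, hw, he⟩ := hF C hC
    rw [omega_eq zf md hw] at he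
    exact ⟨e, hZ e C _ h3 (fun _ h => h) he.1, he⟩
  obtain ⟨s, c, h3, h4⟩ := md.cov
    (fun γ n a => ∃ C e, App E f γ C ∧ App E ch C e ∧ App E e a n) inferInstance (by
      rintro γ n a a' ⟨C, e, a1, a2, a3⟩ ⟨C', e', b1, b2, b3⟩
      obtain rfl := hf.2.2 _ _ _ a1 b1
      obtain rfl := h1.2.2 _ _ _ a2 b2
      exact (h2 _ _ a2).2 _ _ _ a3 b3)
  have hA := app_of_mem zf h3
  obtain ⟨A, hAm⟩ := zf.sep md.θ fun a => ∃ n, App E c n a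
  obtain ⟨e, h5, h6⟩ := choice_fun zfc A md.w (fun a n => App E c n a) fun a ha => by
    obtain ⟨n, hn⟩ := ((hAm a).1 ha).2
    obtain ⟨k, rfl, -⟩ := (hA _ _).1 hn
    exact ⟨_, natw md k, hn⟩
  obtain ⟨γ, C, h7, h8⟩ := hc A (fun a ha => ((hAm a).1 ha).1)
    ⟨md.w, e, isOmega_w zf md, h5, fun x x' y a1 a2 => by
      obtain ⟨k, rfl, rfl⟩ := (hA _ _).1 (h6 _ _ a1)
      obtain ⟨k', a3, rfl⟩ := (hA _ _).1 (h6 _ _ a2)
      rw [nat_inj zf md a3]⟩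
  obtain ⟨j, rfl⟩ := (md.mem_θ _).1 (hf.mem zf h7).1
  obtain ⟨m, hm⟩ := h4 j
  obtain ⟨e', he'⟩ := h1.2.1 C (hf.mem zf h7).2
  obtain ⟨n, hn⟩ := (h2 _ _ he').1.2.1 _
    (h8 _ ((hAm _).2 ⟨oθ md (s m), _, (hA _ _).2 ⟨m, rfl, rfl⟩⟩))
  obtain ⟨k, rfl⟩ := (md.mem_w _).1 ((h2 _ _ he').1.mem zf hn).2
  exact hm k ⟨C, e', h7, he', hn⟩

theorem lamLe_θ : LamLe E md.θ := by
  have zf := zfc.zf
  have := zf.nonempty
  rintro X τ D top reg ssm ⟨⟨hDX, O, hO, hOD⟩, hdis⟩ ⟨f, hf⟩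
  obtain ⟨Uf, hU1, hU2⟩ := choice_fun zfc D τ (fun d U => E d U ∧ ∀ d', E d' D → ¬ d' = d →
    ∃ W, E W τ ∧ E d' W ∧ ∀ z, E z U → ¬ E z W) fun d hd => by
    obtain ⟨V, hV, h1⟩ := hdis d hd
    obtain ⟨C, hC⟩ := zf.sep D fun z => ¬ z = d
    obtain ⟨s, hs⟩ := zf.pairing O V
    obtain ⟨W, hW⟩ := zf.union s
    obtain ⟨U, U', a1, a2, a3, a4, a5⟩ := reg.2 d C (hDX d hd)
      ⟨fun z hz => hDX z ((hC z).1 hz).1, W, top.2.2.2 s W (fun z hz => by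
        rcases (hs z).1 hz with rfl | rfl
        exacts [hO, hV]) hW, fun z => by
        rw [hW, hC]
        constructor
        · rintro ⟨y, hy, hz⟩
          rcases (hs y).1 hy with rfl | rfl
          · exact ⟨((hOD z).1 hz).1, fun h => ((hOD z).1 hz).2 h.1⟩
          · exact ⟨top.1 _ hV z hz, fun h => h.2 ((h1 z).1 ⟨hz, h.1⟩)⟩
        · rintro ⟨hz, h⟩
          by_cases hzD : E z D
          · have : z = d := by_contra fun h' => h ⟨hzD, h'⟩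
            exact ⟨V, (hs V).2 (Or.inr rfl), ((h1 z).2 this).1⟩
          · exact ⟨O, (hs O).2 (Or.inl rfl), (hOD z).2 ⟨hz, hzD⟩⟩⟩
      (fun h => ((hC d).1 h).2 rfl)
    exact ⟨U, a1, a3, fun d' hd' hne => ⟨U', a2, a4 d' ((hC d').2 ⟨hd', hne⟩), a5⟩⟩
  obtain ⟨Pτ, hP⟩ := zf.powerset τ
  obtain ⟨u, hu1, hu2⟩ := choice_fun zfc md.w Pτ (fun n c => ∀ U, E U c ↔ E U τ ∧
    ((∀ x, E x U → ¬ E x D) ∨ ∃ d U0, App E Uf d U0 ∧ ∀ x, E x U → E x U0 ∧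
      ∀ v a d' U', App E f v d → Tri E md.A v n a → App E f a d' → App E Uf d' U' → ¬ E x U'))
    fun n _ => by
      obtain ⟨c, hc⟩ := zf.sep τ fun U => (∀ x, E x U → ¬ E x D) ∨ ∃ d U0, App E Uf d U0 ∧
        ∀ x, E x U → E x U0 ∧ ∀ v a d' U', App E f v d → Tri E md.A v n a → App E f a d' →
          App E Uf d' U' → ¬ E x U'
      exact ⟨c, (hP c).2 fun U hU => ((hc U).1 hU).1, hc⟩
  obtain ⟨R', F, hF1, hF2, hF3⟩ := ssm _ _ u (isOmega_w zf md) hu1 fun n c hc => by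
    refine ⟨fun U hU => ((hu2 n c hc U).1 hU).1, fun x hx => ?_⟩
    by_cases hxD : E x D
    swap
    · exact ⟨O, (hu2 n c hc O).2 ⟨hO, Or.inl fun z hz => ((hOD z).1 hz).2⟩, (hOD x).2 ⟨hx, hxD⟩⟩
    obtain ⟨k, rfl⟩ := (md.mem_w _).1 (hu1.mem zf hc).1
    obtain ⟨U0, hU0⟩ := hU1.2.1 x hxD
    have key : ∀ s : Set M, s.Finite → (∀ a ∈ s, ¬ App E f a x) → ∃ U, E U τ ∧ E x U ∧
        ∀ z, E z U → E z U0 ∧ ∀ a ∈ s, ∀ d' U', App E f a d' → App E Uf d' U' → ¬ E z U' := by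
      intro s hs
      induction s, hs using Set.Finite.induction_on with
      | empty => exact fun _ => ⟨U0, (hU1.mem zf hU0).2, (hU2 _ _ hU0).1, fun z hz => ⟨hz, by simp⟩⟩
      | @insert a s _ _ ih =>
        intro h
        obtain ⟨U, a1, a2, a3⟩ := ih fun b hb => h b (Set.mem_insert_of_mem _ hb)
        by_cases ha : ∃ d' U', App E f a d' ∧ App E Uf d' U'
        · obtain ⟨d', U', b1, b2⟩ := ha
          obtain ⟨W, c1, c2, c3⟩ := (hU2 _ _ b2).2 x hxD fun e =>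
            h a (Set.mem_insert _ _) (e ▸ b1)
          obtain ⟨V, hV⟩ := zf.sep U fun z => E z W
          refine ⟨V, top.2.2.1 U W V a1 c1 hV, (hV x).2 ⟨a2, c2⟩, fun z hz =>
            ⟨(a3 z ((hV z).1 hz).1).1, ?_⟩⟩
          rintro b (rfl | hb) d'' U'' e1 e2
          · obtain rfl := hf.1.2.2 _ _ _ b1 e1
            obtain rfl := hU1.2.2 _ _ _ b2 e2
            exact fun h' => c3 z h' ((hV z).1 hz).2
          · exact (a3 z ((hV z).1 hz).1).2 b hb d'' U'' e1 e2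
        · refine ⟨U, a1, a2, fun z hz => ⟨(a3 z hz).1, ?_⟩⟩
          rintro b (rfl | hb) d'' U'' e1 e2
          · exact absurd ⟨d'', U'', e1, e2⟩ ha
          · exact (a3 z hz).2 b hb d'' U'' e1 e2
    obtain ⟨U, a1, a2, a3⟩ := key {a | ∃ v, App E f v x ∧ Tri E md.A v (md.nat k) a} (by
        by_cases h : ∃ v, App E f v x
        · obtain ⟨v, hv⟩ := h
          obtain ⟨j, rfl⟩ := (md.mem_θ _).1 (hf.1.mem zf hv).1
          refine (md.finA j k).subset ?_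
          rintro a ⟨v', b1, b2⟩
          rwa [hf.2 _ _ _ b1 hv] at b2
        · exact Set.finite_empty.subset fun a ⟨v, hv, _⟩ => h ⟨v, hv⟩)
      (by
        rintro a ⟨v, b1, b2⟩ b3
        obtain ⟨j, rfl⟩ := (md.mem_θ _).1 (hf.1.mem zf b1).1
        obtain ⟨i, b4, rfl⟩ := md.irrA j k a b2
        exact b4 (o_inj zf md (hf.2 _ _ _ b3 b1)))
    exact ⟨U, (hu2 _ c hc U).2 ⟨a1, Or.inr ⟨x, U0, hU0, fun z hz => ⟨(a3 z hz).1,
      fun v a d' U' b1 b2 => (a3 z hz).2 a ⟨v, b1, b2⟩ d' U'⟩⟩⟩, a2⟩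
  obtain ⟨Z, hZ⟩ := exists_funs zf md.w X
  obtain ⟨ch, h1, h2⟩ := choice_fun zfc md.w Z
    (fun n e => ∃ a m, App E F n a ∧ E m md.w ∧ IsBij E e m a) fun n hn => by
      obtain ⟨a, ha⟩ := hF1.2.1 n hn
      obtain ⟨h3, w, m, e, hw, hm, he⟩ := hF2 n a ha
      rw [omega_eq zf md hw] at hm
      refine ⟨e, hZ e m a (fun z hz => ?_) h3 he.1, a, m, ha, hm, he⟩
      obtain ⟨k, rfl⟩ := (md.mem_w _).1 hm
      obtain ⟨l, -, rfl⟩ := (md.mem_nat _ _).1 hz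
      exact natw md l
  obtain ⟨v, hv⟩ := md.col (fun v n k => ∃ e z d U, App E ch n e ∧ App E e k z ∧ App E f v d ∧
    App E Uf d U ∧ E z U) inferInstance fun n => by
      obtain ⟨e, he⟩ := h1.2.1 _ (natw md n)
      obtain ⟨a, m, -, hm, hb⟩ := h2 _ _ he
      obtain ⟨K, rfl⟩ := (md.mem_w _).1 hm
      refine ⟨K, ?_⟩
      rintro v k ⟨e', z, -, -, a1, a2, -⟩
      obtain rfl := h1.2.2 _ _ _ he a1
      obtain ⟨l, hl, a3⟩ := (md.mem_nat _ _).1 (hb.1.mem zf a2).1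
      rwa [nat_inj zf md a3]
  obtain ⟨d, hd⟩ := hf.1.2.1 _ (oθ md v)
  have hdD := (hf.1.mem zf hd).2
  obtain ⟨n, c, a, U, z, a1, a2, a3, a4, a5, a6⟩ := hF3 d (hDX d hdD)
  obtain ⟨n, rfl⟩ := (md.mem_w _).1 (hu1.mem zf a1).1
  obtain ⟨-, h | ⟨d', U0, b1, b2⟩⟩ := (hu2 _ c a1 U).1 a3
  · exact h d a4 hdD
  obtain rfl : d = d' := by
    by_contra hne
    obtain ⟨W, -, c2, c3⟩ := (hU2 _ _ b1).2 d hdD hne
    exact c3 d (b2 d a4).1 c2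
  obtain ⟨e, he⟩ := h1.2.1 _ (natw md n)
  obtain ⟨a', m, c1, hm, hb⟩ := h2 _ _ he
  obtain rfl := hF1.2.2 _ _ _ a2 c1
  obtain ⟨k, hk⟩ := hb.2.2 z a6
  obtain ⟨K, rfl⟩ := (md.mem_w _).1 hm
  obtain ⟨k, -, rfl⟩ := (md.mem_nat _ _).1 (hb.1.mem zf hk).1
  obtain ⟨b, e1, e', z', d', U', e2, e3, e4, e5, e6⟩ := hv n k ⟨e, z, d, U0, he, hk, hd, b1, (b2 z a5).1⟩
  obtain rfl := h1.2.2 _ _ _ he e2
  obtain rfl := hb.1.2.2 _ _ _ hk e3
  exact (b2 z a5).2 _ b d' U' hd e1 e4 e5 e6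

end zfc

end Pool.Agent.Work.MP_d02fb9_lc
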