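import Pool.Agent.Work.MP_d02fb9_lc.Defs
import Mathlib.Data.Set.Card
import Mathlib.Topology.DiscreteSubset

namespace Pool.Agent.Work.MP_d02fb9_lc

open Cardinal Filter Set

universe u

/-- Eventual domination. -/
def Dom (f g : ℕ → ℕ) : Prop := ∀ᶠ n in atTop, f n ≤ g n

lemma Dom.refl (f : ℕ → ℕ) : Dom f f := Eventually.of_forall fun _ => le_rfl

lemma Dom.trans {f g h : ℕ → ℕ} (h1 : Dom f g) (h2 : Dom g h) : Dom f h := by
  filter_upwards [h1, h2] with n a b using a.trans b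

lemma Dom.exists_add {f g : ℕ → ℕ} (h : Dom f g) : ∃ m, ∀ n, f n ≤ g n + m := by
  obtain ⟨N, hN⟩ := eventually_atTop.1 h
  refine ⟨(Finset.range N).sup f, fun n => ?_⟩
  rcases lt_or_ge n N with h' | h'
  · exact (Finset.le_sup (f := f) (Finset.mem_range.2 h')).trans (Nat.le_add_left _ _)
  · exact (hN n h').trans (Nat.le_add_right _ _)

lemma exists_dom_of_countable {s : Set (ℕ → ℕ)} (hs : s.Countable) : ∃ g, ∀ f ∈ s, Dom f g := by
  rcases s.eq_empty_or_nonempty with rfl | hne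
  · exact ⟨0, by simp⟩
  obtain ⟨e, rfl⟩ := hs.exists_eq_range hne
  refine ⟨fun n => (Finset.range (n + 1)).sup fun i => e i n, ?_⟩
  rintro _ ⟨i, rfl⟩
  filter_upwards [eventually_ge_atTop i] with n hn
  exact Finset.le_sup (f := fun i => e i n) (Finset.mem_range.2 (Nat.lt_succ_of_le hn))

/-- The colouring principle for the vertex set `V`. -/
def Colourable (V : Type u) : Prop :=
  ∀ A : ℕ → V → Set V, (∀ n v, (A n v).Finite) → (∀ n v, v ∉ A n v) →
    ∃ (K : Type) (c : ℕ → V → K), (∀ n, (range (c n)).Finite) ∧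
      ∀ v, ∃ n, ∀ a ∈ A n v, c n a ≠ c n v

theorem colourable_of_space {X : Type} [TopologicalSpace X] [T3Space X]
    (hX : StronglyStarMenger X) {D : Set X} (hD : IsClosed D) [DiscreteTopology D]
    {V : Type u} (ι : V → X) (hι : Function.Injective ι) (hιD : ∀ v, ι v ∈ D) : Colourable V := by
  classical
  intro A hA hirr
  have hsep : ∀ d ∈ D, ∃ U W : Set X, IsOpen U ∧ IsOpen W ∧ d ∈ U ∧ D \ {d} ⊆ W ∧
      Disjoint U W := by
    intro d hd
    have hcl : IsClosed (D \ {d}) := by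
      have h1 : IsClosed ((Subtype.val : D → X) ⁻¹' (D \ {d})) := isClosed_discrete _
      have h2 := hD.isClosedEmbedding_subtypeVal.isClosedMap _ h1
      rwa [Subtype.image_preimage_coe, inter_eq_right.2 sdiff_subset] at h2
    obtain ⟨U, W, hU, hW, h1, h2, h3⟩ :=
      SeparatedNhds.of_isCompact_isClosed (isCompact_singleton (x := d)) hcl
        (disjoint_singleton_left.2 fun h => h.2 rfl)
    exact ⟨U, W, hU, hW, h1 rfl, h2, h3⟩
  choose! U W hU hW hdU hDW hUW using hsep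
  have huniq : ∀ d ∈ D, ∀ d' ∈ D, d' ∈ U d → d' = d := by
    intro d hd d' hd' h
    by_contra hne
    exact disjoint_left.1 (hUW d hd) h (hDW d hd ⟨hd', hne⟩)
  let N : ℕ → X → Set X := fun n d => U d ∩ ⋂ a ∈ {a | ∃ v, ι v = d ∧ a ∈ A n v}, W (ι a)
  have hfin : ∀ n d, {a | ∃ v, ι v = d ∧ a ∈ A n v}.Finite := by
    intro n d
    by_cases h : ∃ v, ι v = d
    · obtain ⟨v, rfl⟩ := h
      refine (hA n v).subset ?_
      rintro a ⟨v', hv', ha⟩
      rwa [hι hv'] at ha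
    · refine finite_empty.subset ?_
      rintro a ⟨v, hv, -⟩
      exact h ⟨v, hv⟩
  obtain ⟨F, hF, hcov⟩ := hX (fun n => insert Dᶜ (N n '' D)) (by
      rintro n u (rfl | ⟨d, hd, rfl⟩)
      · exact hD.isOpen_compl
      · exact (hU d hd).inter ((hfin n d).isOpen_biInter fun a _ => hW _ (hιD a))) (by
      intro n
      refine eq_univ_of_forall fun x => ?_
      by_cases hx : x ∈ D
      · refine ⟨N n x, Or.inr ⟨x, hx, rfl⟩, hdU x hx, ?_⟩
        simp only [mem_iInter]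
        rintro a ⟨v, rfl, ha⟩
        refine hDW _ (hιD a) ⟨hx, fun h => hirr n v ?_⟩
        rwa [← hι h] at ha
      · exact ⟨Dᶜ, Or.inl rfl, hx⟩)
  refine ⟨Set X, fun n v => F n ∩ U (ι v), fun n => ?_, fun v => ?_⟩
  · refine (hF n).finite_subsets.subset ?_
    rintro _ ⟨v, rfl⟩
    exact inter_subset_left
  · obtain ⟨n, u, hu, hvu, x, hxu, hxF⟩ := hcov (ι v)
    refine ⟨n, fun a ha heq => ?_⟩
    rcases hu with rfl | ⟨d, hd, rfl⟩
    · exact hvu (hιD v)
    have hdv : ι v = d := huniq d hd _ (hιD v) hvu.1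
    subst hdv
    have h1 : x ∈ F n ∩ U (ι a) := by
      have : x ∈ F n ∩ U (ι v) := ⟨hxF, hxu.1⟩
      simp only at heq
      rwa [← heq] at this
    have h2 : x ∈ W (ι a) := by
      have := hxu.2
      simp only [mem_iInter] at this
      exact this a ⟨v, rfl, ha⟩
    exact disjoint_left.1 (hUW _ (hιD a)) h1.2 h2

/-- A system of nodes with countably many predecessors and countable sets of functions which
defeats every assignment of functions to nodes gives a vertex set that is not colourable. -/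
theorem not_colourable_of_core {ι : Type u} (x : ι → Set (ℕ → ℕ)) (pred : ι → Set ι)
    (hx : ∀ t, (x t).Countable) (hp : ∀ t, (pred t).Countable) (hirr : ∀ t, t ∉ pred t)
    (hK : ∀ H : ι → ℕ → ℕ, ∃ K : Set ι,
      (∀ s ⊆ K, s.Countable → ∃ t' ∈ K, ∀ t ∈ s, pred t ⊆ pred t' ∧ x t ⊆ x t') ∧
      ∀ t ∈ K, ∃ t' ∈ K, pred t ⊆ pred t' ∧ x t ⊆ x t' ∧ t ∈ pred t' ∧ ∃ h ∈ x t', Dom (H t) h) :
    ¬ Colourable (ι × (⋃ t, x t) × ℕ) := by
  classical
  intro hcol
  let y : ι → Set (ι × (⋃ t, x t) × ℕ) := fun t => {w | w.1 ∈ pred t ∧ w.2.1.1 ∈ x t}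
  have hy : ∀ t, (y t).Countable := by
    intro t
    have h1 : ((Subtype.val : (⋃ t, x t) → ℕ → ℕ) ⁻¹' x t).Countable :=
      (hx t).preimage Subtype.val_injective
    refine ((hp t).prod (h1.prod (countable_univ (α := ℕ)))).mono ?_
    rintro ⟨a, b, c⟩ ⟨h2, h3⟩
    exact ⟨h2, h3, trivial⟩
  choose enc henc using fun t => countable_iff_exists_injOn.1 (hy t)
  obtain ⟨Kc, c, hc, hgood⟩ := hcol
    (fun n v => {w | w ∈ y v.1 ∧ enc v.1 w < v.2.1.1 n + v.2.2})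
    (fun n v => by
      refine Finite.of_finite_image (f := enc v.1) ((finite_lt_nat (v.2.1.1 n + v.2.2)).subset ?_)
        ((henc v.1).mono fun w hw => hw.1)
      rintro _ ⟨w, hw, rfl⟩
      exact hw.2)
    (fun n v h => hirr _ h.1.1)
  have hH : ∀ t n, ∃ M, ∀ w ∈ y t, ∃ w' ∈ y t, enc t w' < M ∧ c n w' = c n w := by
    intro t n
    have hfin : (c n '' y t).Finite := (hc n).subset (image_subset_range _ _)
    have := hfin.to_subtype
    choose r hr1 hr2 using fun k : c n '' y t => k.2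
    obtain ⟨M, hM⟩ := (finite_range fun k => enc t (r k)).bddAbove
    refine ⟨M + 1, fun w hw => ⟨r ⟨c n w, w, hw, rfl⟩, hr1 _, ?_, hr2 _⟩⟩
    exact Nat.lt_succ_of_le (hM ⟨_, rfl⟩)
  choose H hH using hH
  obtain ⟨K, hK1, hK2⟩ := hK H
  have hmono : ∀ t t', pred t ⊆ pred t' → x t ⊆ x t' → y t ⊆ y t' :=
    fun t t' h1 h2 w hw => ⟨h1 hw.1, h2 hw.2⟩
  obtain ⟨t₀, ht₀, -⟩ := hK1 ∅ (empty_subset _) countable_empty
  have hmax : ∀ n, ∃ t ∈ K, ∀ t' ∈ K, (c n '' y t').ncard ≤ (c n '' y t).ncard := by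
    intro n
    have hb : ((fun t => (c n '' y t).ncard) '' K).Finite := by
      refine (finite_le_nat (range (c n)).ncard).subset ?_
      rintro _ ⟨t, -, rfl⟩
      exact ncard_le_ncard (image_subset_range _ _) (hc n)
    obtain ⟨_, ⟨t, ht, rfl⟩, hm⟩ := exists_max_image _ id hb ⟨_, t₀, ht₀, rfl⟩
    exact ⟨t, ht, fun t' ht' => hm _ ⟨t', ht', rfl⟩⟩
  choose tn htn hmax using hmax
  obtain ⟨t, ht, hub⟩ := hK1 (range tn) (by rintro _ ⟨n, rfl⟩; exact htn n) (countable_range _)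
  obtain ⟨t', ht', h1, h2, h3, h, hh, hdom⟩ := hK2 t ht
  obtain ⟨m, hm⟩ := hdom.exists_add
  let v : ι × (⋃ t, x t) × ℕ := (t, ⟨h, mem_iUnion.2 ⟨t', hh⟩⟩, m)
  have hv : v ∈ y t' := ⟨h3, hh⟩
  obtain ⟨n, hn⟩ := hgood v
  have e1 : y (tn n) ⊆ y t := hmono _ _ (hub _ ⟨n, rfl⟩).1 (hub _ ⟨n, rfl⟩).2
  have e2 : c n '' y (tn n) = c n '' y t' :=
    eq_of_subset_of_ncard_le (image_mono (e1.trans (hmono _ _ h1 h2))) (hmax n t' ht')
      ((hc n).subset (image_subset_range _ _))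
  have e3 : c n v ∈ c n '' y (tn n) := e2 ▸ ⟨v, hv, rfl⟩
  obtain ⟨w, hw, hwv⟩ := e3
  obtain ⟨w', hw', hlt, hcw⟩ := hH t n w (e1 hw)
  exact hn w' ⟨hw', hlt.trans_le (hm n)⟩ (hcw.trans hwv)

/-- The topological consequence. -/
theorem mk_lt_of_core {κ : Cardinal.{0}} (hκ : ℵ₀ ≤ κ) {ι : Type 1}
    (hι : #ι ≤ Cardinal.lift.{1} κ) (x : ι → Set (ℕ → ℕ)) (pred : ι → Set ι)
    (hx : ∀ t, (x t).Countable) (hp : ∀ t, (pred t).Countable) (hirr : ∀ t, t ∉ pred t)
    (hK : ∀ H : ι → ℕ → ℕ, ∃ K : Set ι,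
      (∀ s ⊆ K, s.Countable → ∃ t' ∈ K, ∀ t ∈ s, pred t ⊆ pred t' ∧ x t ⊆ x t') ∧
      ∀ t ∈ K, ∃ t' ∈ K, pred t ⊆ pred t' ∧ x t ⊆ x t' ∧ t ∈ pred t' ∧ ∃ h ∈ x t', Dom (H t) h)
    {X : Type} [TopologicalSpace X] [T3Space X] (hX : StronglyStarMenger X) {D : Set X}
    (hD : IsClosed D) [DiscreteTopology D] : #D < κ := by
  by_contra! hle
  have hκ' : ℵ₀ ≤ Cardinal.lift.{1} κ := by simpa using hκ
  have h1 : Cardinal.lift.{1} #(⋃ t, x t) ≤ Cardinal.lift.{1} κ := by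
    refine (mk_iUnion_le_lift x).trans ?_
    refine (mul_le_mul' (b := Cardinal.lift.{1} κ) (d := Cardinal.lift.{1} κ) (by simpa using hι)
      (ciSup_le' fun t => ?_)).trans (mul_eq_self hκ').le
    exact lift_le.2 ((le_aleph0_iff_set_countable.2 (hx t)).trans hκ)
  have h2 : Cardinal.lift.{0} #(ι × (⋃ t, x t) × ℕ) ≤ Cardinal.lift.{1} #D := by
    refine le_trans ?_ (lift_le.2 hle)
    simp only [mk_prod, lift_uzero, mk_nat, lift_mul, lift_aleph0]
    calc _ ≤ Cardinal.lift.{1} κ * (Cardinal.lift.{1} κ * Cardinal.lift.{1} κ) :=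
          mul_le_mul' hι (mul_le_mul' h1 hκ')
      _ = _ := by rw [mul_eq_self hκ', mul_eq_self hκ']
  obtain ⟨e⟩ := lift_mk_le'.1 h2
  exact not_colourable_of_core x pred hx hp hirr hK
    (colourable_of_space hX hD (fun v => (e v).1) (Subtype.val_injective.comp e.injective)
      (fun v => (e v).2))

end Pool.Agent.Work.MP_d02fb9_lc
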